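import Pool.Agent.W2helper64.RS.Low4

set_option autoImplicit false
set_option linter.unusedSectionVars false

/-!
The lower bound: the estimates.
-/

namespace Pool.Agent.W2helper64.RS

open Finset Filter Topology

theorem mf {p : ℕ → Prop} {inst : DecidablePred p} {s : Finset ℕ} {a : ℕ} :
    a ∈ @Finset.filter ℕ p inst s ↔ a ∈ s ∧ p a := Finset.mem_filter

theorem ev_exp (x c : ℝ) (hx : 0 < x) (n : ℕ) : ∀ᶠ L : ℝ in atTop, c * L ^ n ≤ Real.exp (x * L) := by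
  have h := tendsto_exp_mul_div_rpow_atTop (n : ℝ) x hx
  filter_upwards [h.eventually_ge_atTop c, eventually_gt_atTop (0 : ℝ)] with L hL hL0
  rw [le_div_iff₀ (by positivity), Real.rpow_natCast] at hL
  exact hL

theorem ev_log (x c : ℝ) (hx : 0 < x) (hc : 0 < c) : ∀ᶠ L : ℝ in atTop, Real.log L ≤ c * L ^ x := by
  have := (isLittleO_log_rpow_atTop hx).bound hc
  filter_upwards [this, eventually_ge_atTop (1 : ℝ)] with L hL hL1
  refine (le_abs_self _).trans (hL.trans (le_of_eq ?_))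
  rw [Real.norm_of_nonneg (by positivity)]

/-- all the estimates -/
theorem ev_low (C1 Y0 δ ε : ℝ) (hδ : 0 < δ) (hε : 0 < ε) (hεδ : ε ≤ δ / 2) (hδ1 : δ ≤ 1 / 4) :
    ∀ᶠ L : ℝ in atTop,
      16 ≤ L ∧ L ^ (1 - ε / 2) ≤ δ * L ∧ 32 * L * L ≤ Real.exp (δ * L) ∧ Y0 ≤ Real.exp (δ * L) ∧
      2 ≤ Real.exp (δ * L) ∧
      Real.exp (1 / 2 * L) + 1 ≤ Real.exp L / (4 * L ^ (ε / 4)) ∧
      8 * C1 / δ ≤ L ^ (ε / 4) ∧
      Real.exp (-(ε / 2 * L)) ≤ 1 / (2 * L ^ (ε / 4)) * (1 / (16 * L)) ^ ⌊L ^ (1 - ε / 2)⌋₊ ∧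
      2 ≤ Real.exp (ε / 2 * L) ∧
      (1 + 2 * L) * (16 * L ^ 2) ≤ Real.exp (δ / 4 * L) := by
  have e1 := ev_exp δ 32 hδ 2
  have e2 := ev_exp δ (|Y0| + 2) hδ 0
  have e3 := ev_exp (1 / 2) 8 (by norm_num) 1
  have e4 := ev_exp (ε / 2) 2 (by positivity) 0
  have e5 := ev_exp (δ / 4) 48 (by positivity) 3
  have l1 := ev_log (ε / 4) (ε / 16) (by positivity) (by positivity)
  have p1 : ∀ᶠ L : ℝ in atTop, 1 / δ ≤ L ^ (ε / 2) :=
    (tendsto_rpow_atTop (by positivity)).eventually_ge_atTop _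
  have p2 : ∀ᶠ L : ℝ in atTop, 8 * C1 / δ ≤ L ^ (ε / 4) :=
    (tendsto_rpow_atTop (by positivity)).eventually_ge_atTop _
  have p3 : ∀ᶠ L : ℝ in atTop, (4 : ℝ) ≤ L ^ (ε / 4) :=
    (tendsto_rpow_atTop (by positivity)).eventually_ge_atTop _
  have p4 : ∀ᶠ L : ℝ in atTop, 48 / ε ≤ L := eventually_ge_atTop _
  filter_upwards [e1, e2, e3, e4, e5, l1, p1, p2, p3, p4, eventually_ge_atTop (16 : ℝ)] with
    L e1 e2 e3 e4 e5 l1 p1 p2 p3 p4 hL16
  have hL0 : 0 < L := by linarith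
  have hL1 : 1 ≤ L := by linarith
  simp only [pow_zero, mul_one, pow_one] at e2 e3 e4
  have hY : Y0 ≤ |Y0| := le_abs_self _
  have hYn : 0 ≤ |Y0| := abs_nonneg _
  have hLε : L ^ (ε / 4) ≤ L := by
    calc L ^ (ε / 4) ≤ L ^ (1 : ℝ) := Real.rpow_le_rpow_of_exponent_le hL1 (by linarith)
      _ = L := Real.rpow_one _
  have hLεp : 0 < L ^ (ε / 4) := by positivity
  refine ⟨hL16, ?_, by nlinarith, by linarith, by linarith, ?_, p2, ?_, e4, ?_⟩
  · have h1 : L ^ (1 - ε / 2) * L ^ (ε / 2) = L := by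
      rw [← Real.rpow_add hL0]; simp
    rw [div_le_iff₀ hδ] at p1
    have h2 : 0 < L ^ (1 - ε / 2) := by positivity
    calc L ^ (1 - ε / 2) = L ^ (1 - ε / 2) * 1 := by ring
      _ ≤ L ^ (1 - ε / 2) * (L ^ (ε / 2) * δ) := mul_le_mul_of_nonneg_left p1 h2.le
      _ = δ * (L ^ (1 - ε / 2) * L ^ (ε / 2)) := by ring
      _ = δ * L := by rw [h1]
  · have h1 : Real.exp L = Real.exp (1 / 2 * L) * Real.exp (1 / 2 * L) := by
      rw [← Real.exp_add]; congr 1; ring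
    rw [le_div_iff₀ (by positivity), h1]
    have h2 : 1 ≤ Real.exp (1 / 2 * L) := Real.one_le_exp (by positivity)
    calc (Real.exp (1 / 2 * L) + 1) * (4 * L ^ (ε / 4)) ≤
          (Real.exp (1 / 2 * L) + Real.exp (1 / 2 * L)) * (4 * L) := by gcongr
      _ = Real.exp (1 / 2 * L) * (8 * L) := by ring
      _ ≤ Real.exp (1 / 2 * L) * Real.exp (1 / 2 * L) := mul_le_mul_of_nonneg_left e3 (by positivity)
  · -- the probability that all are hit
    set k := ⌊L ^ (1 - ε / 2)⌋₊ with hk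
    have hkL : (k : ℝ) ≤ L ^ (1 - ε / 2) := Nat.floor_le (by positivity)
    have hlog16 : Real.log (16 * L) ≤ 2 * Real.log L := by
      rw [two_mul, ← Real.log_mul hL0.ne' hL0.ne']
      apply Real.log_le_log (by positivity)
      nlinarith
    have hlogL : 0 < Real.log L := Real.log_pos (by linarith)
    have hlog2 : Real.log 2 ≤ 1 := by
      have := Real.log_two_lt_d9; linarith
    have h1 : 1 / (2 * L ^ (ε / 4)) * (1 / (16 * L)) ^ k =
        Real.exp (-(Real.log 2 + ε / 4 * Real.log L + k * Real.log (16 * L))) := by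
      rw [neg_add, Real.exp_add, neg_add, Real.exp_add, Real.exp_neg, Real.exp_neg, Real.exp_neg,
        Real.exp_log (by norm_num), Real.exp_nat_mul, Real.exp_log (by positivity)]
      rw [mul_comm (ε / 4) (Real.log L), Real.exp_mul, Real.exp_log hL0]
      rw [one_div, one_div, mul_inv, inv_pow]
    rw [h1]
    apply Real.exp_le_exp.mpr
    rw [neg_le_neg_iff]
    have h2 : k * Real.log (16 * L) ≤ ε / 8 * L := by
      have h5 : L ^ (1 - ε / 2) * L ^ (ε / 4) ≤ L := by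
        rw [← Real.rpow_add hL0]
        calc L ^ (1 - ε / 2 + ε / 4) ≤ L ^ (1 : ℝ) :=
              Real.rpow_le_rpow_of_exponent_le hL1 (by linarith)
          _ = L := Real.rpow_one _
      calc k * Real.log (16 * L) ≤ L ^ (1 - ε / 2) * (2 * (ε / 16 * L ^ (ε / 4))) := by
            apply mul_le_mul hkL (by linarith) (Real.log_nonneg (by linarith)) (by positivity)
        _ = ε / 8 * (L ^ (1 - ε / 2) * L ^ (ε / 4)) := by ring
        _ ≤ ε / 8 * L := mul_le_mul_of_nonneg_left h5 (by positivity)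
    have h3 : ε / 4 * Real.log L ≤ ε / 4 * (ε / 16 * L) := by
      apply mul_le_mul_of_nonneg_left _ (by positivity)
      exact l1.trans (mul_le_mul_of_nonneg_left hLε (by positivity))
    have h4 : 1 ≤ ε / 48 * L := by
      rw [div_le_iff₀ hε] at p4
      linarith
    have h5 : ε ≤ 1 := by linarith
    have h6 : 0 ≤ ε * L := by positivity
    nlinarith
  · calc (1 + 2 * L) * (16 * L ^ 2) ≤ (3 * L) * (16 * L ^ 2) := by gcongr; linarith
      _ = 48 * L ^ 3 := by ring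
      _ ≤ Real.exp (δ / 4 * L) := e5

/-- the groups are hit with probability at least `1 / (16 L)` -/
theorem grp_prod : ∃ Y0 : ℝ, ∀ m W i : ℕ, 1 ≤ m → 16 ≤ Real.log m → Y0 ≤ W →
    32 * Real.log m * Real.log m ≤ W → 2 ^ (i + 1) * W ≤ m →
    ∏ p ∈ grp m W i, (1 - 1 / (((p : Nat.Primes) : ℕ) : ℝ)) ≤ 1 - 1 / (16 * Real.log m) := by
  classical
  obtain ⟨Y0, h⟩ := dyadic_sum
  refine ⟨max Y0 1, fun m W i hm hL hW0 hW1 hW2 => ?_⟩
  have hW1' : (1 : ℝ) ≤ W := (le_max_right _ _).trans hW0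
  set L := Real.log m with hLd
  set Y : ℕ := 2 ^ i * W with hY
  have hYW : W ≤ Y := Nat.le_mul_of_pos_left W (by positivity)
  have hYW' : (W : ℝ) ≤ Y := by exact_mod_cast hYW
  have h2Y : 2 * Y = 2 ^ (i + 1) * W := by rw [hY, pow_succ]; ring
  have h2Ym : 2 * Y ≤ m := by rw [h2Y]; exact hW2
  have hYpos : (0 : ℝ) < Y := by linarith
  have hlog2Y : Real.log (2 * Y) ≤ L := by
    apply Real.log_le_log (by positivity)
    exact_mod_cast h2Ym
  have hlog2Y0 : 0 < Real.log (2 * Y) := Real.log_pos (by linarith)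
  have h1 := h Y m ((le_max_left _ _).trans (hW0.trans hYW')) hm (by
    calc 32 * L * Real.log (2 * Y) ≤ 32 * L * L := mul_le_mul_of_nonneg_left hlog2Y (by linarith)
      _ ≤ W := hW1
      _ ≤ Y := hYW')
  have hsum : 1 / (8 * L) ≤ ∑ p ∈ grp m W i, 1 / (((p : Nat.Primes) : ℕ) : ℝ) := by
    have h2 : 1 / (8 * L) ≤ 1 / (8 * Real.log (2 * Y)) :=
      one_div_le_one_div_of_le (by positivity) (by linarith)
    refine h2.trans (h1.trans ?_)
    have h3 : ∑ p ∈ grp m W i, 1 / (((p : Nat.Primes) : ℕ) : ℝ) =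
        ∑ n ∈ (grp m W i).image (fun p : {x // x ∈ PM m} => ((p : Nat.Primes) : ℕ)), 1 / (n : ℝ) := by
      rw [sum_image]
      intro x _ y _ hxy
      exact Subtype.ext (Subtype.ext hxy)
    rw [h3]
    refine sum_le_sum_of_subset_of_nonneg ?_ fun _ _ _ => by positivity
    intro n hn
    rw [mem_filter, mem_Ioc] at hn
    rw [mem_image]
    refine ⟨⟨⟨n, hn.2.1⟩, mem_PM.mpr (hn.1.2.trans h2Ym)⟩, ?_, rfl⟩
    unfold grp
    rw [mem_filter]
    refine ⟨mem_univ _, hn.1.1, ?_, hn.2.2⟩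
    show n ≤ 2 ^ (i + 1) * W
    rw [← h2Y]
    exact hn.1.2
  have hprod : ∏ p ∈ grp m W i, (1 - 1 / (((p : Nat.Primes) : ℕ) : ℝ)) ≤
      Real.exp (-∑ p ∈ grp m W i, 1 / (((p : Nat.Primes) : ℕ) : ℝ)) := by
    rw [← sum_neg_distrib, Real.exp_sum]
    refine prod_le_prod (fun p _ => fac_nonneg (p : Nat.Primes).2) fun p _ => ?_
    have := Real.add_one_le_exp (-((1 : ℝ) / (((p : Nat.Primes) : ℕ) : ℝ)))
    linarith
  refine hprod.trans ?_
  have h4 : Real.exp (-∑ p ∈ grp m W i, 1 / (((p : Nat.Primes) : ℕ) : ℝ)) ≤ Real.exp (-(1 / (8 * L))) :=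
    Real.exp_le_exp.mpr (by linarith)
  refine h4.trans ?_
  have hx0 : 0 < 1 / (8 * L) := by positivity
  have hx1 : 1 / (8 * L) ≤ 1 / 2 := by
    apply one_div_le_one_div_of_le (by norm_num); linarith
  have h5 := exp_le_quad (y := -(1 / (8 * L))) (by rw [abs_neg, abs_of_pos hx0]; linarith)
  have h6 : 1 / (16 * L) = 1 / (8 * L) / 2 := by field_simp; norm_num
  rw [h6]
  nlinarith

open Classical in
theorem lower_fin : ∃ δ0 : ℝ, 0 < δ0 ∧ δ0 ≤ 1 / 4 ∧ ∀ δ : ℝ, 0 < δ → δ ≤ δ0 → ∀ ε : ℝ, 0 < ε → ε ≤ δ / 2 →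
    ∀ᶠ m : ℕ in atTop,
    avg (fun a : Om m => if ((((range m).filter (fun c : ℕ => (m : ℝ) ^ (1 / 2 : ℝ) ≤ c)).filter (fun c =>
      red m a c ∧ ∀ j ∈ range (⌊Real.log m ^ (2 - ε)⌋₊ + 1), ∃ p : {x // x ∈ PM m},
        (((p : Nat.Primes) : ℕ) : ℝ) ≤ (m : ℝ) ^ (3 * δ) ∧ phi m c p j = a p)).card : ℝ) <
        (m : ℝ) ^ (1 - ε) then (1 : ℝ) else 0) ≤ Real.exp (-(2 * Real.log m)) := by
  obtain ⟨C1, δ0, hC1, hδ0, hδ04, hsieve⟩ := upper_sieve
  obtain ⟨Y0, hgrp⟩ := grp_prod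
  refine ⟨δ0, hδ0, hδ04, fun δ hδ hδδ ε hε hεδ => ?_⟩
  have hLt : Tendsto (fun m : ℕ => Real.log m) atTop atTop :=
    Real.tendsto_log_atTop.comp tendsto_natCast_atTop_atTop
  filter_upwards [hLt.eventually (ev_low C1 Y0 δ ε hδ hε hεδ (hδδ.trans hδ04)), hsieve δ hδ hδδ,
    tot_lower (ε / 4) (by positivity), eventually_ge_atTop 2] with m hL hS htot hm2
  obtain ⟨hL16, hF2, hF3, hF4, hF4', hF5, hF6, hF7, hF8, hF9⟩ := hL
  set L := Real.log m with hLd
  have hm1 : 1 ≤ m := by omega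
  have hm0 : (0 : ℝ) < m := by exact_mod_cast hm1
  have hm1' : (1 : ℝ) ≤ m := by exact_mod_cast hm1
  have hmx : ∀ x : ℝ, (m : ℝ) ^ x = Real.exp (x * L) := fun x => by
    rw [Real.rpow_def_of_pos hm0, mul_comm]
  have hmL : (m : ℝ) = Real.exp L := (Real.exp_log hm0).symm
  have hL0 : 0 < L := by linarith
  have hL1 : 1 ≤ L := by linarith
  have hδ1 : δ ≤ 1 / 4 := hδδ.trans hδ04
  set k := ⌊L ^ (1 - ε / 2)⌋₊ with hk
  set J := ⌊L ^ (2 - ε)⌋₊ + 1 with hJ
  set W := ⌈(m : ℝ) ^ δ⌉₊ with hW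
  set θ : ℝ := 1 / (16 * L) with hθ
  set N : ℝ := m / (2 * L ^ (ε / 4)) with hN
  set C : Finset ℕ := (range m).filter (fun c : ℕ => (m : ℝ) ^ (1 / 2 : ℝ) ≤ c) with hC
  have hwW : (m : ℝ) ^ δ ≤ W := Nat.le_ceil _
  have hWlt : (W : ℝ) < (m : ℝ) ^ δ + 1 := Nat.ceil_lt_add_one (by positivity)
  have hmδ2 : (2 : ℝ) ≤ (m : ℝ) ^ δ := by rw [hmx]; exact hF4'
  have hW1' : (1 : ℝ) ≤ W := by linarith
  have hW1 : 1 ≤ W := by exact_mod_cast hW1'
  have hθ0 : 0 ≤ θ := by positivity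
  have hθ1 : θ ≤ 1 := by
    rw [hθ, div_le_one (by positivity)]; linarith
  have hN0 : 0 ≤ N := by positivity
  -- `2 ^ k W ≤ m ^ (3 δ)`
  have hkL : (k : ℝ) ≤ δ * L := (Nat.floor_le (by positivity)).trans hF2
  have h2k : (2 : ℝ) ^ k ≤ (m : ℝ) ^ δ := by
    rw [hmx]
    calc (2 : ℝ) ^ k ≤ (Real.exp 1) ^ k := by
          apply pow_le_pow_left₀ (by norm_num)
          have := Real.add_one_le_exp 1
          linarith
      _ = Real.exp k := by rw [← Real.exp_nat_mul, mul_one]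
      _ ≤ Real.exp (δ * L) := Real.exp_le_exp.mpr hkL
  have h2kW : (2 : ℝ) ^ k * W ≤ (m : ℝ) ^ (3 * δ) := by
    have h1 : (W : ℝ) ≤ (m : ℝ) ^ δ * (m : ℝ) ^ δ := by nlinarith
    have h2 : (m : ℝ) ^ (3 * δ) = (m : ℝ) ^ δ * ((m : ℝ) ^ δ * (m : ℝ) ^ δ) := by
      rw [← Real.rpow_add hm0, ← Real.rpow_add hm0]; congr 1; ring
    rw [h2]
    exact mul_le_mul h2k h1 (by positivity) (by positivity)
  have h2kWm : 2 ^ k * W ≤ m := by
    have h1 : (2 : ℝ) ^ k * W ≤ m := h2kW.trans (by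
      calc (m : ℝ) ^ (3 * δ) ≤ (m : ℝ) ^ (1 : ℝ) := Real.rpow_le_rpow_of_exponent_le hm1' (by linarith)
        _ = m := Real.rpow_one _)
    exact_mod_cast h1
  -- the groups
  have hG : ∀ i < k, ∏ p ∈ grp m W i, (1 - 1 / (((p : Nat.Primes) : ℕ) : ℝ)) ≤ 1 - θ := by
    intro i hi
    refine hgrp m W i hm1 hL16 ?_ ?_ ?_
    · rw [hmx] at hwW; linarith
    · rw [hmx] at hwW; linarith
    · refine le_trans ?_ h2kWm
      exact Nat.mul_le_mul_right W (Nat.pow_le_pow_right (by norm_num) hi)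
  -- the number of the good classes
  have hJ1 : 1 ≤ J := by omega
  have hJle : (J : ℝ) ≤ 2 * L ^ (2 - ε) := by
    have h1 : ((⌊L ^ (2 - ε)⌋₊ : ℕ) : ℝ) ≤ L ^ (2 - ε) := Nat.floor_le (by positivity)
    have h2 : (1 : ℝ) ≤ L ^ (2 - ε) := Real.one_le_rpow hL1 (by linarith)
    rw [hJ]; push_cast; linarith
  have hgood : ∀ a : Om m,
      N ≤ ((C.filter (fun c => red m a c ∧ (Hc m J ((m : ℝ) ^ δ) a c).card ≤ k)).card : ℝ) := by
    intro a
    have c1 := reduced_card m hm1 a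
    have c2 := many_le (J := J) (k := k) (w := (m : ℝ) ^ δ) a hm1
    have c3 := hS (m * J) (Nat.le_mul_of_pos_right m hJ1) a
    -- the reduced classes are good, or small, or with many survivors
    have hsub : (range m).filter (fun c => ∀ p : {x // x ∈ PM m}, ((p : Nat.Primes) : ℕ) ∣ m →
        ((c : ℕ) : ZMod ((p : Nat.Primes) : ℕ)) ≠ a p) ⊆
        (C.filter (fun c => red m a c ∧ (Hc m J ((m : ℝ) ^ δ) a c).card ≤ k)) ∪
        (range (⌈(m : ℝ) ^ (1 / 2 : ℝ)⌉₊) ∪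
          (range m).filter (fun c => ¬ (Hc m J ((m : ℝ) ^ δ) a c).card ≤ k)) := by
      intro c hc
      rw [mem_filter] at hc
      rw [mem_union, mem_union]
      by_cases h1 : (m : ℝ) ^ (1 / 2 : ℝ) ≤ c
      · by_cases h2 : (Hc m J ((m : ℝ) ^ δ) a c).card ≤ k
        · left
          rw [mem_filter, hC, mem_filter]
          exact ⟨⟨hc.1, h1⟩, hc.2, h2⟩
        · right; right
          rw [mem_filter]
          exact ⟨hc.1, h2⟩
      · right; left
        rw [mem_range]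
        push Not at h1
        exact Nat.lt_ceil.mpr h1
    have c4 := card_le_card hsub
    have c5 := (c4.trans (card_union_le _ _)).trans (Nat.add_le_add_left (card_union_le _ _) _)
    rw [c1, card_range] at c5
    have c6 : (Nat.totient m : ℝ) ≤
        ((C.filter (fun c => red m a c ∧ (Hc m J ((m : ℝ) ^ δ) a c).card ≤ k)).card : ℝ) +
        ((⌈(m : ℝ) ^ (1 / 2 : ℝ)⌉₊ : ℝ) +
          (((range m).filter (fun c => ¬ (Hc m J ((m : ℝ) ^ δ) a c).card ≤ k)).card : ℝ)) := by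
      exact_mod_cast c5
    have c7 : (⌈(m : ℝ) ^ (1 / 2 : ℝ)⌉₊ : ℝ) ≤ m / (4 * L ^ (ε / 4)) := by
      have h1 : (⌈(m : ℝ) ^ (1 / 2 : ℝ)⌉₊ : ℝ) < (m : ℝ) ^ (1 / 2 : ℝ) + 1 := Nat.ceil_lt_add_one (by positivity)
      rw [hmx] at h1
      rw [hmx, hmL]
      linarith
    have c8 : (((range m).filter (fun c => ¬ (Hc m J ((m : ℝ) ^ δ) a c).card ≤ k)).card : ℝ) ≤
        m / (4 * L ^ (ε / 4)) := by
      set T : ℝ := (((range m).filter (fun c => ¬ (Hc m J ((m : ℝ) ^ δ) a c).card ≤ k)).card : ℝ) with hT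
      have h1 : ((k : ℝ) + 1) * T ≤ C1 * ((m * J : ℕ) : ℝ) / (δ * L) := by
        refine le_trans ?_ c3
        rw [hT]
        exact_mod_cast c2
      have h2 : L ^ (1 - ε / 2) ≤ (k : ℝ) + 1 := (Nat.lt_floor_add_one _).le
      have hT0 : 0 ≤ T := Nat.cast_nonneg _
      have h3 : L ^ (1 - ε / 2) * T ≤ C1 * (m * (2 * L ^ (2 - ε))) / (δ * L) := by
        refine (mul_le_mul_of_nonneg_right h2 hT0).trans (h1.trans ?_)
        push_cast
        gcongr
      have h4 : C1 * (m * (2 * L ^ (2 - ε))) / (δ * L) =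
          L ^ (1 - ε / 2) * (2 * C1 / δ * m / L ^ (ε / 2)) := by
        have h5 : L ^ (2 - ε) = L ^ (1 - ε / 2) * L / L ^ (ε / 2) := by
          rw [eq_div_iff (by positivity)]
          nth_rewrite 4 [← Real.rpow_one L]
          rw [← Real.rpow_add hL0, ← Real.rpow_add hL0]
          congr 1
          ring
        rw [h5]
        field_simp
      rw [h4] at h3
      have h6 : T ≤ 2 * C1 / δ * m / L ^ (ε / 2) := le_of_mul_le_mul_left h3 (by positivity)
      refine h6.trans ?_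
      have h7 : L ^ (ε / 2) = L ^ (ε / 4) * L ^ (ε / 4) := by
        rw [← Real.rpow_add hL0]; congr 1; ring
      rw [h7, div_le_div_iff₀ (by positivity) (by positivity)]
      have h8 : 8 * C1 / δ = 4 * (2 * C1 / δ) := by ring
      rw [h8] at hF6
      have h9 : 0 < L ^ (ε / 4) := by positivity
      calc 2 * C1 / δ * m * (4 * L ^ (ε / 4)) = (4 * (2 * C1 / δ)) * (m * L ^ (ε / 4)) := by ring
        _ ≤ L ^ (ε / 4) * (m * L ^ (ε / 4)) := mul_le_mul_of_nonneg_right hF6 (by positivity)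
        _ = m * (L ^ (ε / 4) * L ^ (ε / 4)) := by ring
    have c9 : m / L ^ (ε / 4) = N + (m / (4 * L ^ (ε / 4)) + m / (4 * L ^ (ε / 4))) := by
      rw [hN]; field_simp; ring
    rw [c9] at htot
    linarith
  have hcomb := combine (J := J) (w := (m : ℝ) ^ δ) hm1 hJ1 hW1 hwW hθ0 hθ1 hN0 hG C (filter_subset _ _)
    hgood
  -- the value of `N θ ^ k`
  have hlam : Real.exp ((1 - ε / 2) * L) ≤ N * θ ^ k := by
    have h1 : Real.exp ((1 - ε / 2) * L) = m * Real.exp (-(ε / 2 * L)) := by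
      rw [hmL, ← Real.exp_add]; congr 1
      ring
    rw [h1, hN, hθ]
    have h2 := mul_le_mul_of_nonneg_left hF7 hm0.le
    refine h2.trans (le_of_eq ?_)
    ring
  refine le_trans (avg_mono fun a => ?_) (hcomb.trans ?_)
  · split_ifs with h1 h2 h2
    · exact le_rfl
    · exfalso
      apply h2
      have h3 : (m : ℝ) ^ (1 - ε) ≤ N * θ ^ k / 2 := by
        rw [hmx]
        have h4 : Real.exp ((1 - ε) * L) * Real.exp (ε / 2 * L) = Real.exp ((1 - ε / 2) * L) := by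
          rw [← Real.exp_add]; congr 1; ring
        have h5 : 0 < Real.exp ((1 - ε) * L) := Real.exp_pos _
        nlinarith
      refine lt_of_le_of_lt ?_ (h1.trans_le h3)
      rw [Nat.cast_le]
      apply card_le_card
      intro c hc
      replace hc := mf.mp hc
      refine mf.mpr ⟨hc.1, hc.2.1, fun j hj => ?_⟩
      obtain ⟨p, hp, hpj⟩ := hc.2.2 j hj
      refine ⟨p, ?_, hpj⟩
      have h6 : (((p : Nat.Primes) : ℕ) : ℝ) ≤ ((2 ^ k * W : ℕ) : ℝ) := by exact_mod_cast hp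
      push_cast at h6
      exact h6.trans h2kW
    · norm_num
    · exact le_rfl
  · apply Real.exp_le_exp.mpr
    have hsW : Real.exp (δ / 2 * L) ≤ Real.sqrt W := by
      apply Real.le_sqrt_of_sq_le
      rw [← Real.exp_nat_mul]
      refine le_trans (le_of_eq ?_) hwW
      rw [hmx]
      congr 1
      push_cast; ring
    have hJ2 : (J : ℝ) ≤ 2 * L ^ 2 := by
      refine hJle.trans ?_
      rw [← Real.rpow_two]
      apply mul_le_mul_of_nonneg_left _ (by norm_num)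
      exact Real.rpow_le_rpow_of_exponent_le hL1 (by linarith)
    have hJ0 : (0 : ℝ) < J := by exact_mod_cast hJ1
    have h1 : Real.exp (δ / 2 * L) * Real.exp ((1 - ε / 2) * L) ≤ Real.sqrt W * (N * θ ^ k) :=
      mul_le_mul hsW hlam (Real.exp_pos _).le (Real.sqrt_nonneg _)
    have h2 : Real.exp (δ / 4 * L) * m ≤ Real.exp (δ / 2 * L) * Real.exp ((1 - ε / 2) * L) := by
      rw [hmL, ← Real.exp_add, ← Real.exp_add]
      apply Real.exp_le_exp.mpr
      nlinarith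
    have h3 : 1 + 2 * L ≤ Real.sqrt W * (N * θ ^ k) / (8 * J * m) := by
      rw [le_div_iff₀ (by positivity)]
      calc (1 + 2 * L) * (8 * J * m) ≤ (1 + 2 * L) * (8 * (2 * L ^ 2) * m) := by gcongr
        _ = (1 + 2 * L) * (16 * L ^ 2) * m := by ring
        _ ≤ Real.exp (δ / 4 * L) * m := mul_le_mul_of_nonneg_right hF9 hm0.le
        _ ≤ _ := h2.trans h1
    linarith

end Pool.Agent.W2helper64.RS
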