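import Pool.Agent.W2helper64.RS.Num

set_option autoImplicit false
set_option linter.unusedSectionVars false

/-!
The upper bound: a long progression contains a survivor, up to a tiny probability.
-/

namespace Pool.Agent.W2helper64.RS

open Finset Filter Topology

/-- the estimates for large `L` -/
theorem ev_up (ε c : ℝ) (hε : 0 < ε) (hε1 : ε ≤ 1) (hc : 0 < c) (J0 : ℕ) : ∀ᶠ L : ℝ in atTop,
    J0 ≤ ⌊L ^ (2 + ε / 2)⌋₊ ∧ 3 ≤ ⌊L ^ (2 + ε / 2)⌋₊ ∧
    L ≤ ((⌊L ^ (2 + ε / 2)⌋₊ : ℕ) : ℝ) ^ (1 - (1 / 2 - ε / 16)) ∧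
    4 * L ≤ c * (((⌊L ^ (2 + ε / 2)⌋₊ : ℕ) : ℝ) ^ (1 / 2 - ε / 16) /
      Real.log ((⌊L ^ (2 + ε / 2)⌋₊ : ℕ) : ℝ)) ∧
    ((⌊L ^ (2 + ε / 2)⌋₊ : ℕ) : ℝ) + 9 ≤ L ^ (2 + ε) := by
  have hlo : ∀ᶠ L : ℝ in atTop, Real.log L ≤ (c / 24) * L ^ (ε / 16) := by
    have := (isLittleO_log_rpow_atTop (show 0 < ε / 16 by positivity)).bound
      (show (0 : ℝ) < c / 24 by positivity)
    filter_upwards [this, eventually_ge_atTop (1 : ℝ)] with L hL hL1
    refine (le_abs_self _).trans (hL.trans (le_of_eq ?_))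
    rw [Real.norm_of_nonneg (by positivity)]
  have h4 : ∀ᶠ L : ℝ in atTop, (4 : ℝ) ≤ L ^ (ε / 2) :=
    (tendsto_rpow_atTop (by positivity)).eventually_ge_atTop _
  have h5 : ∀ᶠ L : ℝ in atTop, (9 : ℝ) ≤ L ^ (2 + ε / 2) :=
    (tendsto_rpow_atTop (by positivity)).eventually_ge_atTop _
  have h6 : ∀ᶠ L : ℝ in atTop, (J0 : ℝ) ≤ L ^ (2 + ε / 2) :=
    (tendsto_rpow_atTop (by positivity)).eventually_ge_atTop _
  filter_upwards [hlo, h4, h5, h6, eventually_ge_atTop (3 : ℝ)] with L hlo h4 h5 h6 hL3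
  have hL0 : 0 < L := by linarith
  have hL1 : 1 ≤ L := by linarith
  set J : ℕ := ⌊L ^ (2 + ε / 2)⌋₊ with hJ
  have hPpos : 0 < L ^ (2 + ε / 2) := by positivity
  have hJle : (J : ℝ) ≤ L ^ (2 + ε / 2) := Nat.floor_le hPpos.le
  have hJgt : L ^ (2 + ε / 2) < J + 1 := Nat.lt_floor_add_one _
  have hJ9 : 9 ≤ J := Nat.le_floor (by exact_mod_cast h5)
  have hJ9' : (9 : ℝ) ≤ J := by exact_mod_cast hJ9
  have hJhalf : L ^ (2 + ε / 2) / 2 ≤ J := by linarith
  have hlogJ : Real.log J ≤ 3 * Real.log L := by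
    have h7 : (J : ℝ) ≤ L ^ (3 : ℝ) :=
      hJle.trans (Real.rpow_le_rpow_of_exponent_le hL1 (by linarith))
    have h8 := Real.log_le_log (by linarith) h7
    rwa [Real.log_rpow hL0] at h8
  have hlogJ0 : 0 < Real.log J := Real.log_pos (by linarith)
  have hlogL0 : 0 < Real.log L := Real.log_pos (by linarith)
  refine ⟨Nat.le_floor (by exact_mod_cast h6), by omega, ?_, ?_, ?_⟩
  · -- `L ≤ J ^ (1 - ζ)`
    have h7 : L ^ (2 : ℝ) ≤ J := by
      have e1 : L ^ (2 + ε / 2) = L ^ (2 : ℝ) * L ^ (ε / 2) := Real.rpow_add hL0 _ _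
      have h8 : 0 < L ^ (2 : ℝ) := by positivity
      rw [e1] at hJhalf
      have h9 := mul_le_mul_of_nonneg_left h4 h8.le
      linarith
    calc L = (L ^ (2 : ℝ)) ^ (1 / 2 : ℝ) := by
          rw [← Real.rpow_mul hL0.le]; norm_num
      _ ≤ (J : ℝ) ^ (1 / 2 : ℝ) := Real.rpow_le_rpow (by positivity) h7 (by norm_num)
      _ ≤ (J : ℝ) ^ (1 - (1 / 2 - ε / 16)) :=
          Real.rpow_le_rpow_of_exponent_le (by linarith) (by linarith)
  · have hζ : 0 < 1 / 2 - ε / 16 := by linarith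
    have h7 : L ^ (1 + ε / 16) / 2 ≤ (J : ℝ) ^ (1 / 2 - ε / 16) := by
      calc L ^ (1 + ε / 16) / 2 ≤ L ^ ((2 + ε / 2) * (1 / 2 - ε / 16)) / 2 := by
            apply div_le_div_of_nonneg_right _ (by norm_num)
            apply Real.rpow_le_rpow_of_exponent_le hL1
            nlinarith
        _ ≤ L ^ ((2 + ε / 2) * (1 / 2 - ε / 16)) * (1 / 2 : ℝ) ^ (1 / 2 - ε / 16) := by
            rw [div_eq_mul_one_div]
            apply mul_le_mul_of_nonneg_left _ (by positivity)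
            calc (1 / 2 : ℝ) = (1 / 2 : ℝ) ^ (1 : ℝ) := (Real.rpow_one _).symm
              _ ≤ (1 / 2 : ℝ) ^ (1 / 2 - ε / 16) :=
                  Real.rpow_le_rpow_of_exponent_ge (by norm_num) (by norm_num) (by linarith)
        _ = (L ^ (2 + ε / 2) / 2) ^ (1 / 2 - ε / 16) := by
            rw [div_eq_mul_one_div (L ^ (2 + ε / 2)), Real.mul_rpow (by positivity) (by norm_num),
              ← Real.rpow_mul hL0.le]
        _ ≤ (J : ℝ) ^ (1 / 2 - ε / 16) := Real.rpow_le_rpow (by positivity) hJhalf hζ.le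
    have h8 : L ^ (1 + ε / 16) = L * L ^ (ε / 16) := by
      rw [Real.rpow_add hL0, Real.rpow_one]
    rw [h8] at h7
    rw [← mul_div_assoc, le_div_iff₀ hlogJ0]
    have h9 : 0 < L ^ (ε / 16) := by positivity
    calc 4 * L * Real.log J ≤ 4 * L * (3 * Real.log L) :=
          mul_le_mul_of_nonneg_left hlogJ (by positivity)
      _ ≤ 4 * L * (3 * ((c / 24) * L ^ (ε / 16))) := by
          apply mul_le_mul_of_nonneg_left _ (by positivity)
          linarith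
      _ = c * (L * L ^ (ε / 16) / 2) := by ring
      _ ≤ c * (J : ℝ) ^ (1 / 2 - ε / 16) := mul_le_mul_of_nonneg_left h7 hc.le
  · have e1 : L ^ (2 + ε) = L ^ (2 + ε / 2) * L ^ (ε / 2) := by
      rw [← Real.rpow_add hL0]; congr 1; ring
    rw [e1]
    nlinarith

open Classical in
/-- the upper bound for the probability that a progression of length `J` has no survivor -/
theorem upper_fin (ε : ℝ) (hε : 0 < ε) (hε1 : ε ≤ 1) : ∀ᶠ L : ℝ in atTop, ∀ m b : ℕ,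
    avg (fun a : (p : {x // x ∈ PX (2 * L)}) → ZMod ((p : Nat.Primes) : ℕ) =>
      if (∀ j ∈ Icc 1 ⌊L ^ (2 + ε / 2)⌋₊, ∃ p : {x // x ∈ PX (2 * L)}, ¬ ((p : Nat.Primes) : ℕ) ∣ m ∧
        phi m b p j = a p) then (1 : ℝ) else 0) ≤ Real.exp (-(4 * L)) := by
  set ζ : ℝ := 1 / 2 - ε / 16 with hζ
  obtain ⟨c1, hc1, Y0, hlow⟩ := small_low ζ (by rw [hζ]; linarith) (by rw [hζ]; linarith)
  obtain ⟨c2, hc2, J0, hmed⟩ := med_prod ζ (by rw [hζ]; linarith) (by rw [hζ]; linarith)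
  filter_upwards [ev_up ε (c1 * c2 / 2) hε hε1 (by positivity) (max Y0 J0), eventually_ge_atTop (1 : ℝ)]
    with L hL hL1 m b
  obtain ⟨hJ0, hJ3, hJL, hfin, -⟩ := hL
  set J : ℕ := ⌊L ^ (2 + ε / 2)⌋₊ with hJ
  set F := PX (2 * L) with hF
  set φ : (p : {x // x ∈ F}) → ℕ → ZMod ((p : Nat.Primes) : ℕ) := fun p j => phi m b p j with hφ
  set A : Finset ℕ := Icc 1 J with hA
  have hJ1 : (1 : ℝ) ≤ J := by exact_mod_cast (by omega : 1 ≤ J)
  have hJpos : (0 : ℝ) < J := by linarith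
  set K0 : Finset {x // x ∈ F} := univ.filter fun p =>
    ¬ ((p : Nat.Primes) : ℕ) ∣ m ∧ (((p : Nat.Primes) : ℕ) : ℝ) < (J : ℝ) ^ ζ with hK0
  set KM : Finset {x // x ∈ F} := univ.filter fun p =>
    ¬ ((p : Nat.Primes) : ℕ) ∣ m ∧ (J : ℝ) ^ ζ ≤ (((p : Nat.Primes) : ℕ) : ℝ) ∧ ((p : Nat.Primes) : ℕ) ≤ J with hKM
  set KL : Finset {x // x ∈ F} := univ.filter fun p =>
    ¬ ((p : Nat.Primes) : ℕ) ∣ m ∧ (J : ℝ) ^ ζ ≤ (((p : Nat.Primes) : ℕ) : ℝ) ∧ J < ((p : Nat.Primes) : ℕ) with hKL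
  have hdML : Disjoint KM K0 := by
    rw [disjoint_left]
    intro p hp hq
    rw [hKM, mem_filter] at hp
    rw [hK0, mem_filter] at hq
    linarith [hp.2.2.1, hq.2.2]
  have hdL : Disjoint KL (KM ∪ K0) := by
    rw [disjoint_left]
    intro p hp hq
    rw [hKL, mem_filter] at hp
    rw [mem_union, hKM, hK0, mem_filter, mem_filter] at hq
    rcases hq with hq | hq
    · have := hp.2.2.2
      have := hq.2.2.2
      omega
    · linarith [hp.2.2.1, hq.2.2]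
  -- step 0
  have h0 : ∀ a : (p : {x // x ∈ F}) → ZMod ((p : Nat.Primes) : ℕ),
      (if (∀ j ∈ A, ∃ p : {x // x ∈ F}, ¬ ((p : Nat.Primes) : ℕ) ∣ m ∧ phi m b p j = a p) then (1 : ℝ)
        else 0) ≤ (1 - (1 : ℝ)) ^ (surv A φ (KL ∪ (KM ∪ K0)) a).card := by
    intro a
    split_ifs with h
    · have : surv A φ (KL ∪ (KM ∪ K0)) a = ∅ := by
        unfold surv
        rw [filter_eq_empty_iff]
        intro j hj hall
        obtain ⟨p, hp, hpj⟩ := h j hj
        refine hall p ?_ hpj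
        rw [mem_union, mem_union, hKL, hKM, hK0, mem_filter, mem_filter, mem_filter]
        rcases lt_or_ge (((p : Nat.Primes) : ℕ) : ℝ) ((J : ℝ) ^ ζ) with h1 | h1
        · exact Or.inr (Or.inr ⟨mem_univ _, hp, h1⟩)
        · rcases Nat.lt_or_ge J ((p : Nat.Primes) : ℕ) with h2 | h2
          · exact Or.inl ⟨mem_univ _, hp, h1, h2⟩
          · exact Or.inr (Or.inl ⟨mem_univ _, hp, h1, h2⟩)
      rw [this, card_empty, pow_zero]
    · rw [sub_self]
      exact pow_nonneg le_rfl _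
  have hcard : ∀ p : {x // x ∈ F}, (Fintype.card (ZMod ((p : Nat.Primes) : ℕ)) : ℝ) =
      (((p : Nat.Primes) : ℕ) : ℝ) := fun p => by rw [ZMod.card]
  -- step 1: large primes
  have h1 := phaseL A φ (KM ∪ K0) KL hdL (fun p hp => by
    rw [hKL, mem_filter] at hp
    exact injOn_large hp.2.1 hp.2.2.2) (u := 1) zero_le_one le_rfl
  set ρ : ℝ := ∏ i ∈ KL, (1 - 1 / (Fintype.card (ZMod ((i : Nat.Primes) : ℕ)) : ℝ)) with hρ
  have hρ1 : 1 / (2 * L) ≤ ρ := by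
    rw [hρ]
    have := prod_PX (T := 2 * L) (by linarith) KL
    refine this.trans (le_of_eq ?_)
    refine prod_congr rfl fun p _ => ?_
    rw [hcard]
  have hρ2 : ρ ≤ 1 := by
    rw [hρ]
    refine prod_le_one (fun p _ => ?_) fun p _ => ?_
    · rw [hcard]; exact fac_nonneg (p : Nat.Primes).2
    · rw [hcard]; exact fac_le _
  -- the parameter
  set d : ℝ := 2 * (J : ℝ) ^ (1 - ζ) with hd
  have hd0 : 0 < d := by positivity
  have hv : 1 / d ≤ ρ := by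
    refine le_trans ?_ hρ1
    apply one_div_le_one_div_of_le (by linarith)
    rw [hd]
    linarith
  have h2 : ∀ a : (p : {x // x ∈ F}) → ZMod ((p : Nat.Primes) : ℕ),
      (1 - 1 * ρ) ^ (surv A φ (KM ∪ K0) a).card ≤
        Real.exp (-(1 / d) * ((surv A φ (KM ∪ K0) a).card : ℝ)) := by
    intro a
    have h3 : 1 - 1 * ρ ≤ Real.exp (-(1 / d)) := by
      have := Real.add_one_le_exp (-(1 / d))
      linarith
    calc (1 - 1 * ρ) ^ (surv A φ (KM ∪ K0) a).card ≤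
          (Real.exp (-(1 / d))) ^ (surv A φ (KM ∪ K0) a).card :=
        pow_le_pow_left₀ (by linarith) h3 _
      _ = Real.exp (-(1 / d) * ((surv A φ (KM ∪ K0) a).card : ℝ)) := by
        rw [← Real.exp_nat_mul]
        congr 1
        ring
  -- step 2: medium primes
  have h3 := phaseM A φ K0 KM hdML (d := d) (fun p hp r => by
    rw [hKM, mem_filter] at hp
    have hle : ((A.filter (fun j => φ p j = r)).card : ℝ) ≤ ((J / ((p : Nat.Primes) : ℕ) + 1 : ℕ) : ℝ) := by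
      exact_mod_cast fiber_le hp.2.1 J r
    refine hle.trans ?_
    have hp0 : (0 : ℝ) < (((p : Nat.Primes) : ℕ) : ℝ) := by exact_mod_cast (p : Nat.Primes).2.pos
    push_cast
    have h5 : ((J / ((p : Nat.Primes) : ℕ) : ℕ) : ℝ) ≤ (J : ℝ) / ((p : Nat.Primes) : ℕ) := Nat.cast_div_le
    have h6 : (J : ℝ) / ((p : Nat.Primes) : ℕ) ≤ (J : ℝ) ^ (1 - ζ) := by
      rw [div_le_iff₀ hp0]
      have h7 : (J : ℝ) = (J : ℝ) ^ (1 - ζ) * (J : ℝ) ^ ζ := by
        rw [← Real.rpow_add hJpos]; simp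
      calc (J : ℝ) = (J : ℝ) ^ (1 - ζ) * (J : ℝ) ^ ζ := h7
        _ ≤ _ := mul_le_mul_of_nonneg_left hp.2.2.1 (by positivity)
    have h7 : (1 : ℝ) ≤ (J : ℝ) ^ (1 - ζ) := Real.one_le_rpow hJ1 (by rw [hζ]; linarith)
    rw [hd]
    linarith) (fun p _ => by rw [ZMod.card]; exact (p : Nat.Primes).2.two_le) (v := 1 / d) (by positivity)
    (by rw [one_div, inv_mul_cancel₀ hd0.ne'])
  set ρ2 : ℝ := ∏ i ∈ KM, (1 - 2 / (Fintype.card (ZMod ((i : Nat.Primes) : ℕ)) : ℝ)) with hρ2d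
  have hρ2c : c2 ≤ ρ2 := by
    have h4 := hmed J ((le_max_right _ _).trans hJ0)
      (KM.image (fun p : {x // x ∈ F} => ((p : Nat.Primes) : ℕ))) (by
        intro p hp
        rw [mem_image] at hp
        obtain ⟨x, hx, rfl⟩ := hp
        rw [hKM, mem_filter] at hx
        exact ⟨(x : Nat.Primes).2, hx.2.2.1, hx.2.2.2⟩)
    refine h4.trans (le_of_eq ?_)
    rw [prod_image]
    · rw [hρ2d]
      refine prod_congr rfl fun p _ => ?_
      rw [hcard]
    · intro x _ y _ hxy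
      exact Subtype.ext (Subtype.ext hxy)
  -- step 3: small primes
  have h4 : ∀ a : (p : {x // x ∈ F}) → ZMod ((p : Nat.Primes) : ℕ),
      Real.exp (-(1 / d * ρ2) * ((surv A φ K0 a).card : ℝ)) ≤ Real.exp (-(4 * L)) := by
    intro a
    apply Real.exp_le_exp.mpr
    have h5 := hlow J ((le_max_left _ _).trans hJ0) F K0 m b (fun p hp => by
      rw [hK0, mem_filter] at hp
      exact hp.2) a
    have h6 : 1 / d * c2 * (c1 * (J / Real.log J)) ≤ 1 / d * ρ2 * ((surv A φ K0 a).card : ℝ) := by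
      apply mul_le_mul _ h5 _ _
      · exact mul_le_mul_of_nonneg_left hρ2c (by positivity)
      · have : 0 ≤ Real.log J := Real.log_nonneg hJ1
        positivity
      · have : 0 ≤ ρ2 := hc2.le.trans hρ2c
        positivity
    have h7 : 1 / d * c2 * (c1 * (J / Real.log J)) = c1 * c2 / 2 * ((J : ℝ) ^ ζ / Real.log J) := by
      have h8 : (J : ℝ) = (J : ℝ) ^ (1 - ζ) * (J : ℝ) ^ ζ := by
        rw [← Real.rpow_add hJpos]; simp
      have h9 : (J : ℝ) ^ (1 - ζ) ≠ 0 := (Real.rpow_pos_of_pos hJpos _).ne'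
      rw [hd]
      nth_rewrite 2 [h8]
      field_simp
    rw [h7] at h6
    linarith
  calc _ ≤ avg (fun a => (1 - (1 : ℝ)) ^ (surv A φ (KL ∪ (KM ∪ K0)) a).card) := avg_mono h0
    _ ≤ avg (fun a => (1 - 1 * ρ) ^ (surv A φ (KM ∪ K0) a).card) := h1
    _ ≤ avg (fun a => Real.exp (-(1 / d) * ((surv A φ (KM ∪ K0) a).card : ℝ))) := avg_mono h2
    _ ≤ avg (fun a => Real.exp (-(1 / d * ρ2) * ((surv A φ K0 a).card : ℝ))) := h3
    _ ≤ Real.exp (-(4 * L)) := avg_le_const h4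

end Pool.Agent.W2helper64.RS
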