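import Pool.Agent.W2helper64.RS.Meas
import Pool.Agent.W2helper64.RS.Up
import Pool.Agent.W2helper64.RS.Low5

set_option autoImplicit false
set_option linter.unusedSectionVars false

/-!
The two almost sure statements.
-/

namespace Pool.Agent.W2helper64.RS

open Finset Filter Topology MeasureTheory ProbabilityTheory

/-- the random sieve set of Banks, Ford and Tao -/
def R (a : (p : Nat.Primes) → ZMod (p : ℕ)) : Set ℕ :=
  {n | Real.exp 2 ≤ n ∧ ∀ p : Nat.Primes, 1 ≤ V (p : ℕ) * Real.log n → ((n : ℕ) : ZMod (p : ℕ)) ≠ a p}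

/-- the class `c` modulo `m` is reduced with respect to the choice `a` -/
def Reduced (a : (p : Nat.Primes) → ZMod (p : ℕ)) (m c : ℕ) : Prop :=
  ∀ p : Nat.Primes, (p : ℕ) ∣ m → ((c : ℕ) : ZMod (p : ℕ)) ≠ a p

/-- the bad event of the upper bound -/
def badU (ε L : ℝ) (m b : ℕ) (a : (p : Nat.Primes) → ZMod (p : ℕ)) : Prop :=
  ∀ j ∈ Icc 1 ⌊L ^ (2 + ε / 2)⌋₊, ∃ p : {x // x ∈ PX (2 * L)}, ¬ ((p : Nat.Primes) : ℕ) ∣ m ∧
    phi m b p j = a p

theorem law_badU (ε : ℝ) (hε : 0 < ε) (hε1 : ε ≤ 1) : ∀ᶠ L : ℝ in atTop, ∀ m b : ℕ,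
    law {a | badU ε L m b a} ≤ ENNReal.ofReal (Real.exp (-(4 * L))) := by
  classical
  filter_upwards [upper_fin ε hε hε1] with L hL m b
  have h := law_cyl (PX (2 * L)) (fun a => ∀ j ∈ Icc 1 ⌊L ^ (2 + ε / 2)⌋₊, ∃ p : {x // x ∈ PX (2 * L)},
    ¬ ((p : Nat.Primes) : ℕ) ∣ m ∧ phi m b p j = a p) (inst := Classical.decPred _)
  have h2 : {a | badU ε L m b a} = {a : (p : Nat.Primes) → ZMod (p : ℕ) |
      (fun a => ∀ j ∈ Icc 1 ⌊L ^ (2 + ε / 2)⌋₊, ∃ p : {x // x ∈ PX (2 * L)},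
    ¬ ((p : Nat.Primes) : ℕ) ∣ m ∧ phi m b p j = a p) ((PX (2 * L)).restrict a)} := rfl
  rw [h2, h]
  apply ENNReal.ofReal_le_ofReal
  refine le_trans (le_of_eq ?_) (hL m b)
  congr 1
  funext a
  by_cases h0 : ∀ j ∈ Icc 1 ⌊L ^ (2 + ε / 2)⌋₊, ∃ p : {x // x ∈ PX (2 * L)}, ¬ ((p : Nat.Primes) : ℕ) ∣ m ∧
    phi m b p j = a p
  · rw [if_pos h0, if_pos h0]
  · rw [if_neg h0, if_neg h0]

theorem ae_up1 (ε : ℝ) (hε : 0 < ε) (hε1 : ε ≤ 1) : ∀ᵐ a ∂law, ∀ᶠ x : ℕ in atTop,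
    ∀ m b : ℕ, m ≤ x → b ≤ 9 * x → ¬ badU ε (Real.log x) m b a := by
  have hlog : Tendsto (fun x : ℕ => Real.log (x : ℝ)) atTop atTop :=
    Real.tendsto_log_atTop.comp tendsto_natCast_atTop_atTop
  have hb := bc (fun x : ℕ => ⋃ q ∈ (Icc 0 x ×ˢ Icc 0 (9 * x) : Finset (ℕ × ℕ)),
    {a | badU ε (Real.log x) q.1 q.2 a}) 20 (by norm_num) (by
      filter_upwards [hlog.eventually (law_badU ε hε hε1), eventually_ge_atTop 9] with x hx hx9
      have hx0 : (0 : ℝ) < x := by exact_mod_cast (by omega : 0 < x)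
      have hx9' : (9 : ℝ) ≤ x := by exact_mod_cast hx9
      calc law (⋃ q ∈ (Icc 0 x ×ˢ Icc 0 (9 * x) : Finset (ℕ × ℕ)), {a | badU ε (Real.log x) q.1 q.2 a})
          ≤ ∑ q ∈ (Icc 0 x ×ˢ Icc 0 (9 * x) : Finset (ℕ × ℕ)), law {a | badU ε (Real.log x) q.1 q.2 a} :=
            measure_biUnion_finset_le _ _
        _ ≤ ∑ q ∈ (Icc 0 x ×ˢ Icc 0 (9 * x) : Finset (ℕ × ℕ)), ENNReal.ofReal (Real.exp (-(4 * Real.log x))) :=
            Finset.sum_le_sum fun q _ => hx q.1 q.2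
        _ = ENNReal.ofReal (((x + 1) * (9 * x + 1) : ℕ) * Real.exp (-(4 * Real.log x))) := by
            rw [sum_const, nsmul_eq_mul, card_product, Nat.card_Icc, Nat.card_Icc,
              ENNReal.ofReal_mul (by positivity), ENNReal.ofReal_natCast]
            rfl
        _ ≤ _ := by
            apply ENNReal.ofReal_le_ofReal
            have h1 : Real.exp (-(4 * Real.log x)) = 1 / (x : ℝ) ^ 4 := by
              rw [Real.exp_neg, one_div]
              congr 1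
              rw [← Real.exp_log hx0, Real.log_exp, ← Real.exp_nat_mul]
              norm_num
            rw [h1]
            push_cast
            rw [mul_one_div, mul_one_div, div_le_div_iff₀ (by positivity) (by positivity)]
            have h2 : ((x : ℝ) + 1) * (9 * x + 1) ≤ 20 * x ^ 2 := by nlinarith
            calc ((x : ℝ) + 1) * (9 * x + 1) * x ^ 2 ≤ 20 * x ^ 2 * x ^ 2 :=
                  mul_le_mul_of_nonneg_right h2 (by positivity)
              _ = 20 * x ^ 4 := by ring)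
  filter_upwards [hb] with a ha
  filter_upwards [ha] with x hx m b hm hb' hbad
  apply hx
  simp only [Set.mem_iUnion, exists_prop]
  exact ⟨(m, b), by simp [hm, hb'], hbad⟩

/-- the upper bound for one `ε` -/
theorem up_det (ε : ℝ) (hε : 0 < ε) (hε1 : ε ≤ 1) : ∀ᶠ x : ℕ in atTop,
    ∀ a : (p : Nat.Primes) → ZMod (p : ℕ),
    (∀ m b : ℕ, m ≤ x → b ≤ 9 * x → ¬ badU ε (Real.log x) m b a) →
    ∀ m c y : ℕ, 1 ≤ m → m ≤ x → Reduced a m c → y ≤ x →
      ∃ n ∈ R a, n ≡ c [MOD m] ∧ y < n ∧ (n : ℝ) ≤ y + m * Real.log x ^ (2 + ε) := by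
  have hlog : Tendsto (fun x : ℕ => Real.log (x : ℝ)) atTop atTop :=
    Real.tendsto_log_atTop.comp tendsto_natCast_atTop_atTop
  filter_upwards [hlog.eventually (ev_up ε 1 hε hε1 one_pos 1), hlog.eventually (ev_exp 1 2 one_pos 3),
    hlog.eventually_ge_atTop 1, eventually_ge_atTop 3] with x h1 h2 h3 hx3 a hgood m c y hm1 hmx hred hyx
  obtain ⟨-, -, -, -, hJ⟩ := h1
  set L : ℝ := Real.log x with hL
  set J : ℕ := ⌊L ^ (2 + ε / 2)⌋₊ with hJdef
  have hx0 : (0 : ℝ) < x := by exact_mod_cast (by omega : 0 < x)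
  -- the starting point
  set c1 : ℕ := y + 1 + ((c + m * (y + 1) - (y + 1)) % m) with hc1
  have hle : y + 1 ≤ m * (y + 1) := Nat.le_mul_of_pos_left _ hm1
  have hc1c : c1 ≡ c [MOD m] := by
    have e1 : c1 ≡ y + 1 + (c + m * (y + 1) - (y + 1)) [MOD m] := by
      rw [hc1]
      exact Nat.ModEq.add_left _ (Nat.mod_modEq _ _)
    have e2 : y + 1 + (c + m * (y + 1) - (y + 1)) = c + m * (y + 1) := by omega
    rw [e2] at e1
    refine e1.trans ?_
    show (c + m * (y + 1)) % m = c % m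
    exact Nat.add_mul_mod_self_left _ _ _
  have hc1lt : c1 < y + 1 + m := by
    have := Nat.mod_lt (c + m * (y + 1) - (y + 1)) hm1
    omega
  have hc1ge : y + 1 ≤ c1 := by omega
  set b : ℕ := c1 + 7 * m with hb
  have hb9 : b ≤ 9 * x := by omega
  have hbc : b ≡ c [MOD m] := by
    rw [hb]
    refine Nat.ModEq.trans ?_ hc1c
    show (c1 + 7 * m) % m = c1 % m
    exact Nat.add_mul_mod_self_right _ _ _
  have hno := hgood m b hmx hb9
  unfold badU at hno
  push Not at hno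
  obtain ⟨j, hj, hjn⟩ := hno
  rw [mem_Icc] at hj
  have hjJ : (j : ℝ) ≤ J := by exact_mod_cast hj.2
  have hm1' : (1 : ℝ) ≤ m := by exact_mod_cast hm1
  have hn_up : ((b + m * j : ℕ) : ℝ) ≤ y + m * L ^ (2 + ε) := by
    have e1 : ((b + m * j : ℕ) : ℝ) ≤ y + m * (J + 8) := by
      have e2 : b + m * j ≤ y + 8 * m + m * j := by omega
      have e3 : ((b + m * j : ℕ) : ℝ) ≤ ((y + 8 * m + m * j : ℕ) : ℝ) := by exact_mod_cast e2
      refine e3.trans ?_
      push_cast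
      nlinarith
    refine e1.trans ?_
    have : (m : ℝ) * (J + 8) ≤ m * L ^ (2 + ε) := by
      apply mul_le_mul_of_nonneg_left _ (by positivity)
      linarith
    linarith
  have hL3 : L ^ (2 + ε) ≤ L ^ 3 := by
    calc L ^ (2 + ε) ≤ L ^ (3 : ℝ) := Real.rpow_le_rpow_of_exponent_le h3 (by linarith)
      _ = L ^ 3 := by exact_mod_cast Real.rpow_natCast L 3
  have hexpL : Real.exp (1 * L) = x := by rw [one_mul, hL, Real.exp_log hx0]
  have hn9 : 9 ≤ b + m * j := by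
    have : 1 ≤ m * j := Nat.mul_pos hm1 hj.1
    omega
  have hn0 : (0 : ℝ) < ((b + m * j : ℕ) : ℝ) := by exact_mod_cast (by omega : 0 < b + m * j)
  have hlogn : Real.log ((b + m * j : ℕ) : ℝ) ≤ 2 * L := by
    have e1 : ((b + m * j : ℕ) : ℝ) ≤ (x : ℝ) ^ 2 := by
      refine hn_up.trans ?_
      have e2 : (y : ℝ) ≤ x := by exact_mod_cast hyx
      have e3 : (m : ℝ) ≤ x := by exact_mod_cast hmx
      have e4 : 1 + L ^ 3 ≤ x := by
        rw [hexpL] at h2
        have : 1 ≤ L ^ 3 := one_le_pow₀ h3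
        linarith
      have e5 : (m : ℝ) * L ^ (2 + ε) ≤ x * L ^ 3 :=
        mul_le_mul e3 hL3 (by positivity) (by positivity)
      nlinarith
    calc Real.log ((b + m * j : ℕ) : ℝ) ≤ Real.log ((x : ℝ) ^ 2) := Real.log_le_log hn0 e1
      _ = 2 * L := by rw [Real.log_pow, hL]; norm_num
  refine ⟨b + m * j, ⟨?_, ?_⟩, ?_, ?_, hn_up⟩
  · have e1 : Real.exp 2 ≤ 9 := by
      have : Real.exp 2 = Real.exp 1 * Real.exp 1 := by rw [← Real.exp_add]; norm_num
      rw [this]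
      have := Real.exp_one_lt_d9
      have := Real.exp_pos 1
      nlinarith
    exact e1.trans (by exact_mod_cast hn9)
  · intro p hp heq
    by_cases hpm : (p : ℕ) ∣ m
    · apply hred p hpm
      rw [← heq, ZMod.natCast_eq_natCast_iff]
      have e1 : b + m * j ≡ c [MOD m] := by
        refine Nat.ModEq.trans ?_ hbc
        show (b + m * j) % m = b % m
        exact Nat.add_mul_mod_self_left _ _ _
      exact (e1.of_dvd hpm).symm
    · have hmem : p ∈ PX (2 * L) := by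
        rw [mem_PX]
        exact hp.trans (mul_le_mul_of_nonneg_left hlogn (V_nonneg _))
      exact hjn ⟨p, hmem⟩ hpm heq
  · refine Nat.ModEq.trans ?_ hbc
    show (b + m * j) % m = b % m
    exact Nat.add_mul_mod_self_left _ _ _
  · have : 1 ≤ m * j := Nat.mul_pos hm1 hj.1
    omega

/-- the upper bound, almost surely -/
theorem ae_up : ∀ᵐ a ∂law, ∀ ε : ℝ, 0 < ε → ∀ᶠ x : ℕ in atTop, ∀ m c y : ℕ, 1 ≤ m → m ≤ x →
    Reduced a m c → y ≤ x →
      ∃ n ∈ R a, n ≡ c [MOD m] ∧ y < n ∧ (n : ℝ) ≤ y + m * Real.log x ^ (2 + ε) := by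
  have hall : ∀ᵐ a ∂law, ∀ k : ℕ, ∀ᶠ x : ℕ in atTop,
      ∀ m b : ℕ, m ≤ x → b ≤ 9 * x → ¬ badU (1 / ((k : ℝ) + 1)) (Real.log x) m b a := by
    rw [ae_all_iff]
    intro k
    exact ae_up1 _ (by positivity) (by
      rw [div_le_one (by positivity)]
      have : (0 : ℝ) ≤ k := by positivity
      linarith)
  filter_upwards [hall] with a ha ε hε
  obtain ⟨k, hk⟩ := exists_nat_one_div_lt hε
  have hk1 : 1 / ((k : ℝ) + 1) ≤ 1 := by
    rw [div_le_one (by positivity)]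
    have : (0 : ℝ) ≤ k := by positivity
    linarith
  have hlog : Tendsto (fun x : ℕ => Real.log (x : ℝ)) atTop atTop :=
    Real.tendsto_log_atTop.comp tendsto_natCast_atTop_atTop
  filter_upwards [ha k, up_det _ (by positivity) hk1, hlog.eventually_ge_atTop 1] with x h1 h2 h3 m c y hm hmx hr hy
  obtain ⟨n, hnR, hnc, hyn, hn⟩ := h2 a h1 m c y hm hmx hr hy
  refine ⟨n, hnR, hnc, hyn, hn.trans ?_⟩
  have : Real.log x ^ (2 + 1 / ((k : ℝ) + 1)) ≤ Real.log x ^ (2 + ε) :=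
    Real.rpow_le_rpow_of_exponent_le h3 (by linarith)
  have := mul_le_mul_of_nonneg_left this (Nat.cast_nonneg (α := ℝ) m)
  linarith

end Pool.Agent.W2helper64.RS
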