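import Pool.Agent.W2helper64.RS.Num

set_option autoImplicit false
set_option linter.unusedSectionVars false

/-!
The probability measure on the space of all choices of residue classes; the passage to finite averages.
-/

namespace Pool.Agent.W2helper64.RS

open Finset Filter Topology MeasureTheory ProbabilityTheory

/-- all residues `a p mod p` independent and uniform -/
noncomputable def law : Measure ((p : Nat.Primes) → ZMod (p : ℕ)) :=
  Measure.infinitePi fun p : Nat.Primes => uniformOn (Set.univ : Set (ZMod (p : ℕ)))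

instance : IsProbabilityMeasure law := by
  unfold law
  infer_instance

theorem unif_single (p : Nat.Primes) (x : ZMod (p : ℕ)) :
    uniformOn (Set.univ : Set (ZMod (p : ℕ))) {x} = ENNReal.ofReal (1 / ((p : ℕ) : ℝ)) := by
  rw [uniformOn_univ, Measure.count_singleton, ZMod.card]
  rw [one_div, one_div, ENNReal.ofReal_inv_of_pos (by exact_mod_cast p.2.pos), ENNReal.ofReal_natCast]

theorem law_cyl (F : Finset Nat.Primes) (P : ((p : {x // x ∈ F}) → ZMod ((p : Nat.Primes) : ℕ)) → Prop)
    {inst : DecidablePred P} :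
    law {a | P (F.restrict a)} = ENNReal.ofReal (avg fun a => if P a then (1 : ℝ) else 0) := by
  have h1 : {a : (p : Nat.Primes) → ZMod (p : ℕ) | P (F.restrict a)} = cylinder F {b | P b} := rfl
  rw [h1]
  unfold law
  rw [Measure.infinitePi_cylinder _ (Set.toFinite _).measurableSet]
  have h2 : {b : (p : {x // x ∈ F}) → ZMod ((p : Nat.Primes) : ℕ) | P b} =
      ((univ.filter fun b => P b : Finset ((p : {x // x ∈ F}) → ZMod ((p : Nat.Primes) : ℕ))) :
        Set ((p : {x // x ∈ F}) → ZMod ((p : Nat.Primes) : ℕ))) := by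
    ext b; simp
  rw [h2, ← sum_measure_singleton]
  have h3 : ∀ b : (p : {x // x ∈ F}) → ZMod ((p : Nat.Primes) : ℕ),
      Measure.pi (fun p : {x // x ∈ F} => uniformOn (Set.univ : Set (ZMod ((p : Nat.Primes) : ℕ)))) {b} =
      ENNReal.ofReal (1 / (Fintype.card ((p : {x // x ∈ F}) → ZMod ((p : Nat.Primes) : ℕ)) : ℝ)) := by
    intro b
    rw [Measure.pi_singleton]
    simp_rw [unif_single]
    rw [← ENNReal.ofReal_prod_of_nonneg (fun p _ => by positivity)]
    congr 1
    rw [Fintype.card_pi]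
    push_cast
    rw [prod_div_distrib, prod_const_one]
    simp_rw [ZMod.card]
  rw [sum_congr rfl fun b _ => h3 b, sum_const, nsmul_eq_mul]
  unfold avg
  rw [sum_boole, ← ENNReal.ofReal_natCast, ← ENNReal.ofReal_mul (by positivity)]
  congr 1
  ring

/-- Borel-Cantelli -/
theorem bc (E : ℕ → Set ((p : Nat.Primes) → ZMod (p : ℕ))) (C : ℝ) (hC : 0 ≤ C)
    (h : ∀ᶠ i : ℕ in atTop, law (E i) ≤ ENNReal.ofReal (C * (1 / (i : ℝ) ^ 2))) :
    ∀ᵐ a ∂law, ∀ᶠ i : ℕ in atTop, a ∉ E i := by
  obtain ⟨N, hN⟩ := eventually_atTop.mp h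
  have h1 : (∑' i : ℕ, law (if N ≤ i then E i else ∅)) ≠ ⊤ := by
    have hs : Summable fun i : ℕ => C * (1 / (i : ℝ) ^ 2) :=
      (Real.summable_one_div_nat_pow.mpr (by norm_num)).mul_left C
    have h2 : (∑' i : ℕ, ENNReal.ofReal (C * (1 / (i : ℝ) ^ 2))) ≠ ⊤ := hs.tsum_ofReal_ne_top
    refine ne_top_of_le_ne_top h2 (ENNReal.tsum_le_tsum fun i => ?_)
    split_ifs with hi
    · exact hN i hi
    · simp
  filter_upwards [ae_eventually_notMem h1] with a ha
  filter_upwards [ha, eventually_ge_atTop N] with i hi hiN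
  rwa [if_pos hiN] at hi

end Pool.Agent.W2helper64.RS
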