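import Pool.Agent.W2helper64.RS.Fin

set_option autoImplicit false
set_option linter.unusedSectionVars false

/-!
The effect of one random residue class on the exponential moments of the number of survivors.
-/

namespace Pool.Agent.W2helper64.RS

open Finset

theorem binom_low {x y : ℝ} (hx : 0 ≤ x) (hy : 0 ≤ y) (s : ℕ) :
    x ^ (s + 1) + (s + 1) * (x ^ s * y) ≤ (x + y) ^ (s + 1) := by
  induction s with
  | zero => simp
  | succ s ih =>
    have h1 : (x + y) ^ (s + 2) = (x + y) ^ (s + 1) * (x + y) := by ring
    rw [show s + 1 + 1 = s + 2 by ring, h1]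
    have h2 := mul_le_mul_of_nonneg_right ih (add_nonneg hx hy)
    refine le_trans ?_ h2
    push_cast
    have h3 : 0 ≤ (s + 1) * (x ^ s * y) * y := by positivity
    have h4 : x ^ (s + 2) + ((s : ℝ) + 1 + 1) * (x ^ (s + 1) * y) + (s + 1) * (x ^ s * y) * y =
        (x ^ (s + 1) + (s + 1) * (x ^ s * y)) * (x + y) := by ring
    linarith

/-- one large prime: every residue class contains at most one survivor -/
theorem stepL {β : Type} [Fintype β] [Nonempty β] [DecidableEq β] (S : Finset ℕ) (φ : ℕ → β)
    (hφ : Set.InjOn φ S) {u : ℝ} (hu0 : 0 ≤ u) (hu1 : u ≤ 1) :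
    (∑ r : β, (1 - u) ^ (S.filter (fun j => φ j ≠ r)).card) / (Fintype.card β : ℝ) ≤
      (1 - u * (1 - 1 / (Fintype.card β : ℝ))) ^ S.card := by
  have hq : (0 : ℝ) < (Fintype.card β : ℝ) := by exact_mod_cast Fintype.card_pos
  set q : ℝ := (Fintype.card β : ℝ) with hqd
  have hx : 0 ≤ 1 - u := by linarith
  rcases Nat.eq_zero_or_pos S.card with h0 | hpos
  · have hS : S = ∅ := card_eq_zero.mp h0
    subst hS
    simp only [filter_empty, card_empty, pow_zero, sum_const, card_univ, nsmul_eq_mul, mul_one]
    rw [← hqd, div_self hq.ne']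
  obtain ⟨s, hs⟩ : ∃ s, S.card = s + 1 := ⟨S.card - 1, by omega⟩
  -- the cardinalities
  have hc : ∀ r : β, (1 - u) ^ (S.filter (fun j => φ j ≠ r)).card =
      (1 - u) ^ (s + 1) + (if r ∈ S.image φ then (1 - u) ^ s - (1 - u) ^ (s + 1) else 0) := by
    intro r
    by_cases hr : r ∈ S.image φ
    · rw [if_pos hr]
      obtain ⟨j, hj, hjr⟩ := mem_image.mp hr
      have h1 : S.filter (fun i => φ i ≠ r) = S.erase j := by
        ext i
        rw [mem_filter, mem_erase]
        constructor
        · rintro ⟨hi, hne⟩
          exact ⟨fun h => hne (by rw [h, hjr]), hi⟩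
        · rintro ⟨hne, hi⟩
          exact ⟨hi, fun h => hne (hφ hi hj (h.trans hjr.symm))⟩
      rw [h1, card_erase_of_mem hj, hs, Nat.add_sub_cancel]
      ring
    · rw [if_neg hr, add_zero]
      have h1 : S.filter (fun i => φ i ≠ r) = S := by
        apply filter_true_of_mem
        intro i hi h
        exact hr (mem_image.mpr ⟨i, hi, h⟩)
      rw [h1, hs]
  rw [sum_congr rfl fun r _ => hc r, sum_add_distrib, ← sum_filter, sum_const, sum_const, card_univ,
    nsmul_eq_mul, nsmul_eq_mul]
  have hcard : ((univ.filter (fun r => r ∈ S.image φ)).card : ℝ) = s + 1 := by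
    have : univ.filter (fun r => r ∈ S.image φ) = S.image φ := by
      ext r; simp
    rw [this, card_image_of_injOn hφ, hs]
    push_cast; ring
  rw [hcard, ← hqd, hs, div_le_iff₀ hq]
  have h2 := binom_low hx (y := u / q) (by positivity) s
  have h3 : 1 - u * (1 - 1 / q) = 1 - u + u / q := by ring
  rw [h3]
  have h4 := mul_le_mul_of_nonneg_right h2 hq.le
  refine le_trans (le_of_eq ?_) h4
  have h5 : ((1 - u) ^ (s + 1) + ((s : ℝ) + 1) * ((1 - u) ^ s * (u / q))) * q =
      (1 - u) ^ (s + 1) * q + (s + 1) * ((1 - u) ^ s * u) * (q / q) := by ring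
  rw [h5, div_self hq.ne']
  ring

/-- one medium prime: every residue class contains at most `d` survivors -/
theorem stepM {β : Type} [Fintype β] [Nonempty β] [DecidableEq β] (S : Finset ℕ) (φ : ℕ → β)
    {d v : ℝ} (hd : ∀ r, ((S.filter (fun j => φ j = r)).card : ℝ) ≤ d) (hv : 0 ≤ v) (hvd : v * d ≤ 1) :
    (∑ r : β, Real.exp (-v * ((S.filter (fun j => φ j ≠ r)).card : ℝ))) / (Fintype.card β : ℝ) ≤
      Real.exp (-(v * (1 - (1 + v * d) / (Fintype.card β : ℝ))) * (S.card : ℝ)) := by
  have hq : (0 : ℝ) < (Fintype.card β : ℝ) := by exact_mod_cast Fintype.card_pos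
  set q : ℝ := (Fintype.card β : ℝ) with hqd
  set N : ℝ := (S.card : ℝ) with hN
  have hsplit : ∀ r : β, ((S.filter (fun j => φ j ≠ r)).card : ℝ) =
      N - ((S.filter (fun j => φ j = r)).card : ℝ) := by
    intro r
    have := card_filter_add_card_filter_not (s := S) (fun j => φ j = r)
    have h2 : ((S.filter (fun j => φ j = r)).card : ℝ) + ((S.filter (fun j => ¬ φ j = r)).card : ℝ) = N := by
      rw [hN]; exact_mod_cast this
    linarith
  have hsum : ∑ r : β, ((S.filter (fun j => φ j = r)).card : ℝ) = N := by
    rw [hN, ← Nat.cast_sum, ← card_eq_sum_card_fiberwise (t := univ) (fun _ _ => mem_univ _)]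
  have h1 : ∀ r : β, Real.exp (-v * ((S.filter (fun j => φ j ≠ r)).card : ℝ)) ≤
      Real.exp (-v * N) * (1 + v * (1 + v * d) * ((S.filter (fun j => φ j = r)).card : ℝ)) := by
    intro r
    rw [hsplit r]
    set n : ℝ := ((S.filter (fun j => φ j = r)).card : ℝ) with hn
    have hn0 : 0 ≤ n := Nat.cast_nonneg _
    have hnd := hd r
    have e1 : -v * (N - n) = -v * N + v * n := by ring
    rw [e1, Real.exp_add]
    refine mul_le_mul_of_nonneg_left ?_ (Real.exp_pos _).le
    have hvn0 : 0 ≤ v * n := mul_nonneg hv hn0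
    have hvn : v * n ≤ v * d := mul_le_mul_of_nonneg_left hnd hv
    have h2 := exp_le_quad (y := v * n) (by rw [abs_of_nonneg hvn0]; linarith)
    refine h2.trans ?_
    have h3 : (v * n) ^ 2 ≤ (v * n) * (v * d) := by
      rw [pow_two]; exact mul_le_mul_of_nonneg_left hvn hvn0
    nlinarith
  rw [div_le_iff₀ hq]
  refine (sum_le_sum fun r _ => h1 r).trans ?_
  rw [← mul_sum, sum_add_distrib, ← mul_sum, hsum, sum_const, card_univ, nsmul_eq_mul, mul_one, ← hqd]
  have h4 : -(v * (1 - (1 + v * d) / q)) * N = -v * N + v * (1 + v * d) * N / q := by ring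
  rw [h4, Real.exp_add, mul_assoc (Real.exp (-v * N))]
  refine mul_le_mul_of_nonneg_left ?_ (Real.exp_pos _).le
  have h5 := Real.add_one_le_exp (v * (1 + v * d) * N / q)
  have h6 := mul_le_mul_of_nonneg_right h5 hq.le
  have h7 : (v * (1 + v * d) * N / q + 1) * q = v * (1 + v * d) * N + q := by
    field_simp
  linarith

section
variable {ι : Type} [Fintype ι] [DecidableEq ι] {α : ι → Type} [∀ i, Fintype (α i)] [∀ i, Nonempty (α i)]
  [∀ i, DecidableEq (α i)]

/-- the elements of `A` which survive the coordinates in `K` -/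
def surv (A : Finset ℕ) (φ : (i : ι) → ℕ → α i) (K : Finset ι) (a : (i : ι) → α i) : Finset ℕ :=
  A.filter fun j => ∀ i ∈ K, φ i j ≠ a i

theorem surv_sub (A : Finset ℕ) (φ : (i : ι) → ℕ → α i) (K : Finset ι) (a : (i : ι) → α i) :
    surv A φ K a ⊆ A := filter_subset _ _

theorem surv_insert (A : Finset ℕ) (φ : (i : ι) → ℕ → α i) (K : Finset ι) (i : ι)
    (a : (i : ι) → α i) :
    surv A φ (insert i K) a = (surv A φ K a).filter fun j => φ i j ≠ a i := by
  ext j
  simp only [surv, mem_filter, mem_insert, forall_eq_or_imp]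
  tauto

theorem surv_update (A : Finset ℕ) (φ : (i : ι) → ℕ → α i) (K : Finset ι) (i : ι) (hi : i ∉ K)
    (a : (i : ι) → α i) (r : α i) : surv A φ K (Function.update a i r) = surv A φ K a := by
  unfold surv
  refine filter_congr fun j _ => ?_
  refine forall₂_congr fun k hk => ?_
  have : k ≠ i := fun h => hi (h ▸ hk)
  rw [Function.update_of_ne this]

theorem mm_surv (A : Finset ℕ) (φ : (i : ι) → ℕ → α i) (K : Finset ι) (i : ι) (hi : i ∉ K) (F : ℕ → ℝ)
    (a : (i : ι) → α i) :
    mm i (fun a => F (surv A φ (insert i K) a).card) a =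
      (∑ r : α i, F ((surv A φ K a).filter (fun j => φ i j ≠ r)).card) / (Fintype.card (α i) : ℝ) := by
  unfold mm
  congr 1
  refine sum_congr rfl fun r _ => ?_
  simp only
  rw [surv_insert, surv_update A φ K i hi, Function.update_self]

theorem phaseL (A : Finset ℕ) (φ : (i : ι) → ℕ → α i) (K0 K : Finset ι) (hd : Disjoint K K0)
    (hinj : ∀ i ∈ K, Set.InjOn (φ i) A) {u : ℝ} (hu0 : 0 ≤ u) (hu1 : u ≤ 1) :
    avg (fun a => (1 - u) ^ (surv A φ (K ∪ K0) a).card) ≤
      avg (fun a => (1 - u * ∏ i ∈ K, (1 - 1 / (Fintype.card (α i) : ℝ))) ^ (surv A φ K0 a).card) := by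
  induction K using Finset.induction_on generalizing u with
  | empty => simp
  | insert i K hiK ih =>
    have hi0 : i ∉ K0 := fun h => disjoint_left.mp hd (mem_insert_self i K) h
    have hd' : Disjoint K K0 := disjoint_of_subset_left (subset_insert i K) hd
    have hi : i ∉ K ∪ K0 := by
      rw [mem_union]; tauto
    have hq : (1 : ℝ) ≤ (Fintype.card (α i) : ℝ) := by exact_mod_cast Fintype.card_pos
    have hq1 : 0 ≤ 1 - 1 / (Fintype.card (α i) : ℝ) := by
      rw [sub_nonneg, div_le_one (by linarith)]; exact hq
    have hq2 : 1 - 1 / (Fintype.card (α i) : ℝ) ≤ 1 := by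
      have : 0 ≤ 1 / (Fintype.card (α i) : ℝ) := by positivity
      linarith
    rw [insert_union, ← avg_mm i, prod_insert hiK]
    have h1 : avg (mm i fun a => (1 - u) ^ (surv A φ (insert i (K ∪ K0)) a).card) ≤
        avg (fun a => (1 - u * (1 - 1 / (Fintype.card (α i) : ℝ))) ^ (surv A φ (K ∪ K0) a).card) := by
      refine avg_mono fun a => ?_
      rw [mm_surv A φ (K ∪ K0) i hi (fun n => (1 - u) ^ n)]
      refine stepL _ _ ?_ hu0 hu1
      exact (hinj i (mem_insert_self i K)).mono (by exact_mod_cast surv_sub A φ _ a)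
    have h2 := ih hd' (fun k hk => hinj k (mem_insert_of_mem hk))
      (u := u * (1 - 1 / (Fintype.card (α i) : ℝ))) (mul_nonneg hu0 hq1)
      (by nlinarith)
    rw [mul_assoc] at h2
    exact h1.trans h2

theorem phaseM (A : Finset ℕ) (φ : (i : ι) → ℕ → α i) (K0 K : Finset ι) (hd : Disjoint K K0)
    {d : ℝ} (hfib : ∀ i ∈ K, ∀ r, ((A.filter (fun j => φ i j = r)).card : ℝ) ≤ d)
    (hq2 : ∀ i ∈ K, 2 ≤ Fintype.card (α i)) {v : ℝ} (hv0 : 0 ≤ v) (hvd : v * d ≤ 1) :
    avg (fun a => Real.exp (-v * ((surv A φ (K ∪ K0) a).card : ℝ))) ≤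
      avg (fun a => Real.exp (-(v * ∏ i ∈ K, (1 - 2 / (Fintype.card (α i) : ℝ))) *
        ((surv A φ K0 a).card : ℝ))) := by
  induction K using Finset.induction_on generalizing v with
  | empty => simp
  | insert i K hiK ih =>
    have hi0 : i ∉ K0 := fun h => disjoint_left.mp hd (mem_insert_self i K) h
    have hd' : Disjoint K K0 := disjoint_of_subset_left (subset_insert i K) hd
    have hi : i ∉ K ∪ K0 := by
      rw [mem_union]; tauto
    have hq : (2 : ℝ) ≤ (Fintype.card (α i) : ℝ) := by exact_mod_cast hq2 i (mem_insert_self i K)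
    have hq1 : 0 ≤ 1 - 2 / (Fintype.card (α i) : ℝ) := by
      rw [sub_nonneg, div_le_one (by linarith)]; exact hq
    have hqle : 1 - 2 / (Fintype.card (α i) : ℝ) ≤ 1 := by
      have : 0 ≤ 2 / (Fintype.card (α i) : ℝ) := by positivity
      linarith
    have hd0 : 0 ≤ d := by
      obtain ⟨r⟩ : Nonempty (α i) := inferInstance
      exact (Nat.cast_nonneg _).trans (hfib i (mem_insert_self i K) r)
    rw [insert_union, ← avg_mm i, prod_insert hiK]
    have h1 : avg (mm i fun a => Real.exp (-v * ((surv A φ (insert i (K ∪ K0)) a).card : ℝ))) ≤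
        avg (fun a => Real.exp (-(v * (1 - 2 / (Fintype.card (α i) : ℝ))) *
          ((surv A φ (K ∪ K0) a).card : ℝ))) := by
      refine avg_mono fun a => ?_
      rw [mm_surv A φ (K ∪ K0) i hi (fun n => Real.exp (-v * (n : ℝ)))]
      have h2 := stepM (surv A φ (K ∪ K0) a) (φ i) (d := d) (v := v) (fun r => by
        refine le_trans ?_ (hfib i (mem_insert_self i K) r)
        exact_mod_cast card_le_card (filter_subset_filter _ (surv_sub A φ _ a))) hv0 hvd
      refine h2.trans (Real.exp_le_exp.mpr ?_)
      refine mul_le_mul_of_nonneg_right ?_ (Nat.cast_nonneg _)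
      rw [neg_le_neg_iff]
      refine mul_le_mul_of_nonneg_left ?_ hv0
      have : (1 + v * d) / (Fintype.card (α i) : ℝ) ≤ 2 / (Fintype.card (α i) : ℝ) :=
        div_le_div_of_nonneg_right (by linarith) (by linarith)
      linarith
    have h2 := ih hd' (fun k hk => hfib k (mem_insert_of_mem hk)) (fun k hk => hq2 k (mem_insert_of_mem hk))
      (v := v * (1 - 2 / (Fintype.card (α i) : ℝ))) (mul_nonneg hv0 hq1)
      (by
        calc v * (1 - 2 / (Fintype.card (α i) : ℝ)) * d ≤ v * 1 * d := by
              refine mul_le_mul_of_nonneg_right ?_ hd0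
              exact mul_le_mul_of_nonneg_left hqle hv0
          _ = v * d := by ring
          _ ≤ 1 := hvd)
    rw [mul_assoc] at h2
    exact h1.trans h2

/-- all elements of `H` are hit by a list of disjoint groups of coordinates -/
theorem hit_low (φ : (i : ι) → ℕ → α i) (θ : ℝ) (hθ0 : 0 ≤ θ) (hθ1 : θ ≤ 1) (L : List (List ι))
    (hnd : L.flatten.Nodup)
    (hL : ∀ l ∈ L, (l.map fun i => (1 - 1 / (Fintype.card (α i) : ℝ))).prod ≤ 1 - θ) :
    ∀ H : Finset ℕ, H.card ≤ L.length → ∀ a : (i : ι) → α i,
      θ ^ H.card ≤ ml L.flatten (fun a => if (∀ j ∈ H, ∃ i ∈ L.flatten, φ i j = a i) then (1 : ℝ) else 0) a := by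
  induction L with
  | nil =>
    intro H hH a
    have : H = ∅ := card_eq_zero.mp (by simpa using hH)
    subst this
    simp [ml]
  | cons l L ih =>
    intro H hH a
    rw [List.flatten_cons, List.nodup_append] at hnd
    obtain ⟨hnl, hnL, hdis⟩ := hnd
    have ih' := ih hnL (fun l' hl' => hL l' (by simp [hl']))
    rcases H.eq_empty_or_nonempty with h0 | ⟨j, hj⟩
    · subst h0
      simp only [card_empty, pow_zero, notMem_empty, IsEmpty.forall_iff, implies_true, if_true]
      rw [ml_const]
    · set H' := H.erase j with hH'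
      have hc : H.card = H'.card + 1 := by
        rw [hH', card_erase_of_mem hj]
        have := card_pos.mpr ⟨j, hj⟩
        omega
      have hc' : H'.card ≤ L.length := by
        rw [List.length_cons] at hH; omega
      -- the product of the indicators
      have hone : ∀ (l : List ι), l.Nodup → ∀ a : (i : ι) → α i,
          ml l (fun a => if (∀ i ∈ l, φ i j ≠ a i) then (1 : ℝ) else 0) a =
            (l.map fun i => (1 - 1 / (Fintype.card (α i) : ℝ))).prod := by
        intro l
        induction l with
        | nil => intro _ a; simp [ml]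
        | cons i l ihl =>
          intro hnd a
          rw [List.nodup_cons] at hnd
          have e1 : (fun a : (i : ι) → α i => if (∀ k ∈ i :: l, φ k j ≠ a k) then (1 : ℝ) else 0) =
              fun a => (if φ i j ≠ a i then (1 : ℝ) else 0) *
                (if (∀ k ∈ l, φ k j ≠ a k) then (1 : ℝ) else 0) := by
            funext a
            by_cases h1 : φ i j ≠ a i
            · by_cases h2 : ∀ k ∈ l, φ k j ≠ a k
              · rw [if_pos h1, if_pos h2, if_pos, mul_one]
                intro k hk
                rcases List.mem_cons.mp hk with rfl | hk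
                · exact h1
                · exact h2 k hk
              · rw [if_neg h2, mul_zero, if_neg]
                exact fun h => h2 fun k hk => h k (List.mem_cons_of_mem _ hk)
            · rw [if_neg h1, zero_mul, if_neg]
              exact fun h => h1 (h i (by simp))
          rw [e1, ml]
          have hin : Indep i (fun a : (i : ι) → α i => if (∀ k ∈ l, φ k j ≠ a k) then (1 : ℝ) else 0) := by
            intro a r
            have : (∀ k ∈ l, φ k j ≠ (Function.update a i r) k) ↔ ∀ k ∈ l, φ k j ≠ a k := by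
              refine forall₂_congr fun k hk => ?_
              have : k ≠ i := fun h => hnd.1 (h ▸ hk)
              rw [Function.update_of_ne this]
            simp only [this]
          rw [mm_mul_indep hin]
          have hmm : mm i (fun a : (i : ι) → α i => if φ i j ≠ a i then (1 : ℝ) else 0) =
              fun _ => 1 - 1 / (Fintype.card (α i) : ℝ) := by
            funext b
            unfold mm
            simp only [Function.update_self]
            rw [← sum_filter, sum_const, nsmul_eq_mul, mul_one]
            have h3 : (univ.filter fun r => φ i j ≠ r).card = Fintype.card (α i) - 1 := by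
              have : univ.filter (fun r => φ i j ≠ r) = univ.erase (φ i j) := by
                ext r; simp [eq_comm]
              rw [this, card_erase_of_mem (mem_univ _), card_univ]
            have hq : 1 ≤ Fintype.card (α i) := Fintype.card_pos
            rw [h3, Nat.cast_sub hq, Nat.cast_one]
            have hq' := (cardi_pos (α := α) i).ne'
            field_simp
          rw [hmm]
          have e2 : (fun a : (i : ι) → α i => (1 - 1 / (Fintype.card (α i) : ℝ)) *
              (if (∀ k ∈ l, φ k j ≠ a k) then (1 : ℝ) else 0)) =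
              fun a => (fun a : (i : ι) → α i => if (∀ k ∈ l, φ k j ≠ a k) then (1 : ℝ) else 0) a *
                (fun _ : (i : ι) → α i => (1 - 1 / (Fintype.card (α i) : ℝ))) a := by
            funext a; ring
          have h6 := ihl hnd.2 a
          rw [e2, ml_mul_indep l (fun _ _ _ _ => rfl)]
          simp only [List.map_cons, List.prod_cons]
          rw [h6]
          ring
      -- lower bound by a product
      set g1 : ((i : ι) → α i) → ℝ := fun a => if (∃ i ∈ l, φ i j = a i) then (1 : ℝ) else 0 with hg1
      set g2 : ((i : ι) → α i) → ℝ :=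
        fun a => if (∀ k ∈ H', ∃ i ∈ L.flatten, φ i k = a i) then (1 : ℝ) else 0 with hg2
      have hprod : ∀ a, g1 a * g2 a ≤
          (if (∀ k ∈ H, ∃ i ∈ (l :: L).flatten, φ i k = a i) then (1 : ℝ) else 0) := by
        intro a
        simp only [hg1, hg2]
        by_cases h1 : ∃ i ∈ l, φ i j = a i
        · by_cases h2 : ∀ k ∈ H', ∃ i ∈ L.flatten, φ i k = a i
          · rw [if_pos h1, if_pos h2, if_pos, mul_one]
            intro k hk
            by_cases hkj : k = j
            · obtain ⟨i, hi, hij⟩ := h1
              exact ⟨i, by rw [List.flatten_cons, List.mem_append]; exact Or.inl hi, by rw [hkj, hij]⟩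
            · obtain ⟨i, hi, hij⟩ := h2 k (mem_erase.mpr ⟨hkj, hk⟩)
              exact ⟨i, by rw [List.flatten_cons, List.mem_append]; exact Or.inr hi, hij⟩
          · rw [if_neg h2, mul_zero]
            split_ifs <;> norm_num
        · rw [if_neg h1, zero_mul]
          split_ifs <;> norm_num
      refine le_trans ?_ (ml_mono _ hprod a)
      rw [List.flatten_cons, ml_append]
      have hin2 : ∀ i ∈ l, Indep i g2 := by
        intro i hi a r
        have : (∀ k ∈ H', ∃ i' ∈ L.flatten, φ i' k = (Function.update a i r) i') ↔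
            ∀ k ∈ H', ∃ i' ∈ L.flatten, φ i' k = a i' := by
          refine forall₂_congr fun k hk => ?_
          refine exists_congr fun i' => and_congr_right fun hi' => ?_
          have : i' ≠ i := fun h => hdis i hi i' hi' h.symm
          rw [Function.update_of_ne this]
        simp only [hg2, this]
      rw [ml_mul_indep l hin2]
      -- the first factor
      have hfirst : ∀ a, θ ≤ ml l g1 a := by
        intro a
        have e1 : ∀ a, (1 : ℝ) ≤ g1 a + (if (∀ i ∈ l, φ i j ≠ a i) then (1 : ℝ) else 0) := by
          intro a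
          simp only [hg1]
          by_cases h : ∃ i ∈ l, φ i j = a i
          · rw [if_pos h]
            have : (0 : ℝ) ≤ if (∀ i ∈ l, φ i j ≠ a i) then (1 : ℝ) else 0 := by split_ifs <;> norm_num
            linarith
          · rw [if_neg h, if_pos (by push Not at h; exact h)]
            norm_num
        have e2 := ml_mono l e1 a
        rw [ml_const] at e2
        have e3 : ml l (fun a => g1 a + (if (∀ i ∈ l, φ i j ≠ a i) then (1 : ℝ) else 0)) a =
            ml l g1 a + ml l (fun a => if (∀ i ∈ l, φ i j ≠ a i) then (1 : ℝ) else 0) a := by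
          have := ml_sum (univ : Finset Bool) l (fun b => if b then g1 else
            (fun a : (i : ι) → α i => if (∀ i ∈ l, φ i j ≠ a i) then (1 : ℝ) else 0))
          have h4 := congrFun this a
          simpa using h4
        rw [e3, hone l hnl a] at e2
        have := hL l (by simp)
        linarith
      have hg20 : ∀ a, 0 ≤ g2 a := by
        intro a; simp only [hg2]; split_ifs <;> norm_num
      have h5 : ∀ a, θ * g2 a ≤ ml l g1 a * g2 a := fun a =>
        mul_le_mul_of_nonneg_right (hfirst a) (hg20 a)
      refine le_trans ?_ (ml_mono _ h5 a)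
      have e4 : (fun a => θ * g2 a) = fun a => g2 a * (fun _ : (i : ι) → α i => θ) a := by
        funext a; ring
      rw [e4, ml_mul_indep _ (fun _ _ _ _ => rfl), hc, pow_succ]
      exact mul_le_mul_of_nonneg_right (ih' H' hc' a) hθ0

end

end Pool.Agent.W2helper64.RS
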