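import Pool.Agent.Y835.SB.Lin2
import Pool.Agent.Helper923.PNT
import Pool.Agent.W2helper64.RS.Step

set_option autoImplicit false
set_option linter.unusedSectionVars false

/-!
The arithmetic input: the linear sieve for arbitrary residue classes, Mertens.
-/

namespace Pool.Agent.W2helper64.RS

open Finset Filter Topology

instance nzP (p : Nat.Primes) : NeZero (p : ℕ) := ⟨p.2.ne_zero⟩
instance fcP (p : Nat.Primes) : Fact ((p : ℕ).Prime) := ⟨p.2⟩

/-- the residue class of the term number `j` of the progression `b + m j` -/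
def phi (m b : ℕ) (p : Nat.Primes) (j : ℕ) : ZMod (p : ℕ) := ((b + m * j : ℕ) : ZMod (p : ℕ))

theorem unit_of_not_dvd {p : Nat.Primes} {m : ℕ} (h : ¬ (p : ℕ) ∣ m) : ((m : ℕ) : ZMod (p : ℕ)) ≠ 0 := by
  intro h0
  exact h ((ZMod.natCast_eq_zero_iff m p).mp h0)

theorem phi_eq_iff {m b : ℕ} {p : Nat.Primes} (h : ¬ (p : ℕ) ∣ m) (j k : ℕ) :
    phi m b p j = phi m b p k ↔ j ≡ k [MOD p] := by
  unfold phi
  push_cast
  rw [add_right_inj, mul_right_inj' (unit_of_not_dvd h), ZMod.natCast_eq_natCast_iff]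

open Classical in
/-- the linear sieve for arbitrary residue classes in a progression -/
theorem small_low (ζ : ℝ) (hζ1 : 1 / 4 ≤ ζ) (hζ2 : ζ < 1 / 2) : ∃ c : ℝ, 0 < c ∧ ∃ Y0 : ℕ, ∀ J : ℕ, Y0 ≤ J →
    ∀ (F : Finset Nat.Primes) (K : Finset {x // x ∈ F}) (m b : ℕ),
      (∀ p ∈ K, ¬ ((p : Nat.Primes) : ℕ) ∣ m ∧ (((p : Nat.Primes) : ℕ) : ℝ) < (J : ℝ) ^ ζ) →
      ∀ a : (p : {x // x ∈ F}) → ZMod ((p : Nat.Primes) : ℕ),
        c * (J / Real.log J) ≤
          ((surv (Icc 1 J) (fun (p : {x // x ∈ F}) j => phi m b p j) K a).card : ℝ) := by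
  obtain ⟨c, hc, Y0, h⟩ := Pool.Agent.Y835.SB.lin_low ζ hζ1 hζ2
  refine ⟨c, hc, Y0, fun J hJ F K m b hK a => ?_⟩
  -- the shifts
  have hs : ∀ p : {x // x ∈ F}, ∃ s : ℕ, p ∈ K → phi m b p s = a p := by
    intro p
    by_cases hp : p ∈ K
    · have hu := unit_of_not_dvd (hK p hp).1
      refine ⟨((a p - ((b : ℕ) : ZMod ((p : Nat.Primes) : ℕ))) / ((m : ℕ) : ZMod ((p : Nat.Primes) : ℕ))).val,
        fun _ => ?_⟩
      unfold phi
      push_cast
      rw [ZMod.natCast_val, ZMod.cast_id', id, mul_div_cancel₀ _ hu]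
      ring
    · exact ⟨0, fun h => absurd h hp⟩
  choose s hs using hs
  obtain ⟨n, hn⟩ := Nat.chineseRemainderOfFinset (fun p : {x // x ∈ F} => (((p : Nat.Primes) : ℕ) - 1) * s p)
    (fun p : {x // x ∈ F} => ((p : Nat.Primes) : ℕ)) K (fun p _ => (p : Nat.Primes).2.ne_zero) (by
      intro p _ q _ hpq
      show Nat.Coprime _ _
      rw [Nat.coprime_primes (p : Nat.Primes).2 (q : Nat.Primes).2]
      intro h
      exact hpq (Subtype.ext (Subtype.ext h)))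
  refine (h J hJ n).trans ?_
  rw [Nat.cast_le]
  apply card_le_card
  intro j hj
  rw [mem_filter] at hj
  unfold surv
  rw [mem_filter]
  refine ⟨hj.1, fun p hp heq => ?_⟩
  have h1 := hj.2 _ (p : Nat.Primes).2 (hK p hp).2
  apply h1
  have h2 : j ≡ s p [MOD ((p : Nat.Primes) : ℕ)] := by
    rw [← phi_eq_iff (b := b) (hK p hp).1, hs p hp]
    exact heq
  have h3 := (hn p hp).add h2
  have h4 : (((p : Nat.Primes) : ℕ) - 1) * s p + s p = ((p : Nat.Primes) : ℕ) * s p := by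
    have := (p : Nat.Primes).2.one_lt
    obtain ⟨q, hq⟩ : ∃ q, ((p : Nat.Primes) : ℕ) = q + 1 := ⟨((p : Nat.Primes) : ℕ) - 1, by omega⟩
    rw [hq, Nat.add_sub_cancel]
    ring
  rw [h4] at h3
  exact (Nat.modEq_zero_iff_dvd).mp (h3.trans (Nat.modEq_zero_iff_dvd.mpr (dvd_mul_right _ _)))

theorem fiber_le {m b : ℕ} {p : Nat.Primes} (h : ¬ (p : ℕ) ∣ m) (J : ℕ) (r : ZMod (p : ℕ)) :
    ((Icc 1 J).filter (fun j => phi m b p j = r)).card ≤ J / (p : ℕ) + 1 := by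
  rw [← card_range (J / (p : ℕ) + 1)]
  refine card_le_card_of_injOn (fun j => j / (p : ℕ)) ?_ ?_
  · intro j hj
    rw [mem_coe, mem_filter, mem_Icc] at hj
    rw [mem_coe, mem_range]
    have := Nat.div_le_div_right (c := (p : ℕ)) hj.1.2
    show j / (p : ℕ) < _
    omega
  · intro j hj k hk hjk
    rw [mem_coe, mem_filter] at hj hk
    have h1 : j ≡ k [MOD p] := by
      rw [← phi_eq_iff (b := b) h, hj.2, hk.2]
    have h2 : j / (p : ℕ) = k / (p : ℕ) := hjk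
    rw [← Nat.div_add_mod j (p : ℕ), ← Nat.div_add_mod k (p : ℕ), h2, h1]

theorem injOn_large {m b : ℕ} {p : Nat.Primes} (h : ¬ (p : ℕ) ∣ m) {J : ℕ} (hJ : J < (p : ℕ)) :
    Set.InjOn (phi m b p) (Icc 1 J : Finset ℕ) := by
  intro j hj k hk hjk
  rw [mem_coe, mem_Icc] at hj hk
  rw [phi_eq_iff h] at hjk
  have h1 : j % (p : ℕ) = j := Nat.mod_eq_of_lt (by omega)
  have h2 : k % (p : ℕ) = k := Nat.mod_eq_of_lt (by omega)
  have h3 : j % (p : ℕ) = k % (p : ℕ) := hjk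
  omega

/-- `1 - x ≥ exp (-2 x)` for `0 ≤ x ≤ 1 / 2` -/
theorem one_sub_ge {x : ℝ} (h0 : 0 ≤ x) (h1 : x ≤ 1 / 2) : Real.exp (-(2 * x)) ≤ 1 - x := by
  have h2 : Real.exp (-(2 * x)) = (Real.exp (2 * x))⁻¹ := Real.exp_neg _
  rw [h2]
  have h3 : 1 + 2 * x ≤ Real.exp (2 * x) := by linarith [Real.add_one_le_exp (2 * x)]
  have h4 : (1 - x) * (1 + 2 * x) ≥ 1 := by nlinarith
  have h5 : 0 < Real.exp (2 * x) := Real.exp_pos _
  rw [inv_le_iff_one_le_mul₀ h5]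
  nlinarith

theorem med_prod (ζ : ℝ) (hζ : 0 < ζ) (hζ1 : ζ < 1) : ∃ c : ℝ, 0 < c ∧ ∃ J0 : ℕ, ∀ J : ℕ, J0 ≤ J →
    ∀ P : Finset ℕ, (∀ p ∈ P, p.Prime ∧ (J : ℝ) ^ ζ ≤ p ∧ p ≤ J) → c ≤ ∏ p ∈ P, (1 - 2 / (p : ℝ)) := by
  obtain ⟨C, hC0, hC⟩ := Pool.Agent.Helper923.HMertens.mertens_ratio
  have hl2 : 0 < Real.log 2 := Real.log_pos (by norm_num)
  set B : ℝ := Real.log (2 / ζ) + C / Real.log 2 with hB
  have ht : Tendsto (fun J : ℕ => (J : ℝ) ^ (ζ / 2)) atTop atTop :=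
    (tendsto_rpow_atTop (by positivity)).comp tendsto_natCast_atTop_atTop
  obtain ⟨J0, hJ0⟩ := eventually_atTop.mp ((ht.eventually_ge_atTop 8).and (eventually_ge_atTop 3))
  refine ⟨Real.exp (-(4 * B)), Real.exp_pos _, J0, fun J hJ P hP => ?_⟩
  obtain ⟨h8, h3⟩ := hJ0 J hJ
  have hJ1 : (1 : ℝ) < J := by exact_mod_cast (by omega : 1 < J)
  have hJp : (0 : ℝ) < J := by linarith
  have hsq : (J : ℝ) ^ ζ = (J : ℝ) ^ (ζ / 2) * (J : ℝ) ^ (ζ / 2) := by
    rw [← Real.rpow_add hJp]; congr 1; ring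
  have h64 : 64 ≤ (J : ℝ) ^ ζ := by rw [hsq]; nlinarith
  -- the lower end
  set a : ℕ := ⌈(J : ℝ) ^ ζ⌉₊ - 1 with ha
  have hceil : (J : ℝ) ^ ζ ≤ ⌈(J : ℝ) ^ ζ⌉₊ := Nat.le_ceil _
  have hceil1 : (64 : ℝ) ≤ (⌈(J : ℝ) ^ ζ⌉₊ : ℝ) := h64.trans hceil
  have hceil2 : 64 ≤ ⌈(J : ℝ) ^ ζ⌉₊ := by exact_mod_cast hceil1
  have ha1 : (a : ℝ) = (⌈(J : ℝ) ^ ζ⌉₊ : ℝ) - 1 := by
    rw [ha, Nat.cast_sub (by omega), Nat.cast_one]
  have ha2 : 2 ≤ a := by omega
  have haJ : a ≤ J := by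
    have h1 : (J : ℝ) ^ ζ ≤ J := by
      calc (J : ℝ) ^ ζ ≤ (J : ℝ) ^ (1 : ℝ) := Real.rpow_le_rpow_of_exponent_le hJ1.le hζ1.le
        _ = J := Real.rpow_one _
    have h2 : ⌈(J : ℝ) ^ ζ⌉₊ ≤ J := Nat.ceil_le.mpr h1
    omega
  have hlow : (J : ℝ) ^ (ζ / 2) ≤ a := by
    rw [ha1]
    nlinarith
  have hloga : ζ / 2 * Real.log J ≤ Real.log a := by
    rw [← Real.log_rpow hJp]
    exact Real.log_le_log (Real.rpow_pos_of_pos hJp _) hlow
  have hlogJ : 0 < Real.log J := Real.log_pos hJ1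
  have hla : Real.log 2 ≤ Real.log a := Real.log_le_log (by norm_num) (by exact_mod_cast ha2)
  have hla0 : 0 < Real.log a := hl2.trans_le hla
  have h5 := (abs_le.mp (hC a J ha2 haJ)).2
  have h6 : Real.log (Real.log J / Real.log a) ≤ Real.log (2 / ζ) := by
    apply Real.log_le_log (by positivity)
    rw [div_le_div_iff₀ hla0 hζ]
    nlinarith
  have h7 : C / Real.log a ≤ C / Real.log 2 := div_le_div_of_nonneg_left hC0 hl2 hla
  have hsum : ∑ p ∈ P, (1 : ℝ) / p ≤ B := by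
    have hsub : P ⊆ (Ioc a J).filter Nat.Prime := by
      intro p hp
      obtain ⟨h1, h2, h3⟩ := hP p hp
      rw [mem_filter, mem_Ioc]
      have : ⌈(J : ℝ) ^ ζ⌉₊ ≤ p := Nat.ceil_le.mpr h2
      exact ⟨⟨by omega, h3⟩, h1⟩
    have := sum_le_sum_of_subset_of_nonneg (f := fun p : ℕ => (1 : ℝ) / p) hsub fun _ _ _ => by positivity
    rw [hB]
    linarith
  calc Real.exp (-(4 * B)) ≤ Real.exp (-(4 * ∑ p ∈ P, (1 : ℝ) / p)) := by
        apply Real.exp_le_exp.mpr; linarith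
    _ = ∏ p ∈ P, Real.exp (-(2 * (2 / (p : ℝ)))) := by
        rw [← Real.exp_sum]
        congr 1
        rw [mul_sum, ← sum_neg_distrib]
        refine sum_congr rfl fun p _ => ?_
        ring
    _ ≤ ∏ p ∈ P, (1 - 2 / (p : ℝ)) := by
        refine prod_le_prod (fun _ _ => (Real.exp_pos _).le) fun p hp => ?_
        have hp4 : (4 : ℝ) ≤ p := by
          have := (hP p hp).2.1
          linarith
        apply one_sub_ge
        · positivity
        · rw [div_le_div_iff₀ (by linarith) (by norm_num)]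
          linarith

/-! ### the products `V` -/

/-- `V y = ∏_(p ≤ y) (1 - 1 / p)` -/
noncomputable def V (y : ℕ) : ℝ := ∏ p ∈ (Icc 1 y).filter Nat.Prime, (1 - 1 / (p : ℝ))

theorem fac_nonneg {p : ℕ} (hp : p.Prime) : 0 ≤ 1 - 1 / (p : ℝ) := by
  have : (2 : ℝ) ≤ p := by exact_mod_cast hp.two_le
  rw [sub_nonneg, div_le_one (by linarith)]; linarith

theorem fac_le (p : ℕ) : 1 - 1 / (p : ℝ) ≤ 1 := by
  have : (0 : ℝ) ≤ 1 / p := by positivity
  linarith

theorem V_nonneg (y : ℕ) : 0 ≤ V y := prod_nonneg fun _ hp => fac_nonneg (mem_filter.mp hp).2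

theorem V_ge : ∃ c : ℝ, 0 < c ∧ ∀ y : ℕ, 2 ≤ y → c / Real.log y ≤ V y := by
  obtain ⟨c, hc, h⟩ := Pool.Agent.Y835.SB.prod_ge
  exact ⟨c, hc, fun y hy => h y hy _ fun p hp => ⟨(mem_filter.mp hp).2, (mem_Icc.mp (mem_filter.mp hp).1).2⟩⟩

theorem V_le : ∃ C : ℝ, 0 < C ∧ ∀ y : ℕ, 2 ≤ y → V y ≤ C / Real.log y := by
  obtain ⟨C, hC0, hC⟩ := Pool.Agent.Helper923.HMertens.mertens_ratio
  have hl2 : 0 < Real.log 2 := Real.log_pos (by norm_num)
  refine ⟨Real.exp (C / Real.log 2) * Real.log 2, by positivity, fun y hy => ?_⟩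
  have h1 := (abs_le.mp (hC 2 y le_rfl hy)).1
  have hly : 0 < Real.log y := Real.log_pos (by exact_mod_cast (by omega : 1 < y))
  have h2 : V y ≤ ∏ p ∈ (Ioc 2 y).filter Nat.Prime, (1 - 1 / (p : ℝ)) := by
    unfold V
    refine prod_le_prod_of_subset_of_le_one ?_ ?_ ?_
    · intro p hp
      rw [mem_filter, mem_Ioc] at hp
      rw [mem_filter, mem_Icc]
      exact ⟨⟨by omega, hp.1.2⟩, hp.2⟩
    · exact fun p hp => fac_nonneg (mem_filter.mp hp).2
    · exact fun p _ _ => fac_le p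
  refine h2.trans ?_
  have h3 : ∏ p ∈ (Ioc 2 y).filter Nat.Prime, (1 - 1 / (p : ℝ)) ≤
      Real.exp (-∑ p ∈ (Ioc 2 y).filter Nat.Prime, (1 : ℝ) / p) := by
    rw [← sum_neg_distrib, Real.exp_sum]
    refine prod_le_prod (fun p hp => fac_nonneg (mem_filter.mp hp).2) fun p _ => ?_
    have := Real.add_one_le_exp (-((1 : ℝ) / p))
    linarith
  refine h3.trans ?_
  have h4 : ((2 : ℕ) : ℝ) = 2 := by norm_num
  rw [h4] at h1
  have h5 : Real.exp (C / Real.log 2) * Real.log 2 / Real.log y =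
      Real.exp (C / Real.log 2 - Real.log (Real.log y / Real.log 2)) := by
    rw [Real.exp_sub, Real.exp_log (by positivity)]
    field_simp
  rw [h5]
  apply Real.exp_le_exp.mpr
  linarith

theorem V_anti {x y : ℕ} (h : x ≤ y) : V y ≤ V x := by
  unfold V
  refine prod_le_prod_of_subset_of_le_one ?_ ?_ ?_
  · exact filter_subset_filter _ (Icc_subset_Icc_right h)
  · exact fun p hp => fac_nonneg (mem_filter.mp hp).2
  · exact fun p _ _ => fac_le p

theorem fin_primes (T : ℝ) : {p : Nat.Primes | 1 ≤ V p * T}.Finite := by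
  obtain ⟨C, hC0, hC⟩ := V_le
  rcases le_or_gt T 0 with hT | hT
  · convert Set.finite_empty
    ext p
    simp only [Set.mem_ofPred_eq, Set.mem_empty_iff_false, iff_false, not_le]
    have := mul_nonpos_of_nonneg_of_nonpos (V_nonneg p) hT
    linarith
  · have hsub : {p : Nat.Primes | 1 ≤ V p * T} ⊆
        {p : Nat.Primes | (p : ℕ) ≤ ⌈Real.exp (C * T)⌉₊} := by
      intro p hp
      simp only [Set.mem_ofPred_eq] at hp ⊢
      have h1 := hC p p.2.two_le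
      have hp1 : (1 : ℝ) < (p : ℕ) := by exact_mod_cast p.2.one_lt
      have hlp : 0 < Real.log (p : ℕ) := Real.log_pos hp1
      have h2 : 1 ≤ C / Real.log (p : ℕ) * T := hp.trans (mul_le_mul_of_nonneg_right h1 hT.le)
      rw [div_mul_eq_mul_div, le_div_iff₀ hlp, one_mul] at h2
      have h3 : ((p : ℕ) : ℝ) ≤ Real.exp (C * T) := by
        rw [← Real.exp_log (by linarith : (0 : ℝ) < (p : ℕ))]
        exact Real.exp_le_exp.mpr h2
      exact_mod_cast h3.trans (Nat.le_ceil _)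
    refine Set.Finite.subset ?_ hsub
    apply Set.Finite.of_injOn (f := fun p : Nat.Primes => (p : ℕ)) (t := Set.Iic ⌈Real.exp (C * T)⌉₊)
    · intro p hp
      simpa using hp
    · intro p _ q _ h
      exact Subtype.ext h
    · exact Set.finite_Iic _

/-- the primes relevant for the integers `n` with `log n ≤ T` -/
noncomputable def PX (T : ℝ) : Finset Nat.Primes := (fin_primes T).toFinset

theorem mem_PX {T : ℝ} {p : Nat.Primes} : p ∈ PX T ↔ 1 ≤ V p * T := by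
  unfold PX
  rw [Set.Finite.mem_toFinset]
  rfl

theorem prod_PX {T : ℝ} (hT : 1 ≤ T) (K : Finset {x // x ∈ PX T}) :
    1 / T ≤ ∏ p ∈ K, (1 - 1 / (((p : Nat.Primes) : ℕ) : ℝ)) := by
  rcases K.eq_empty_or_nonempty with h | h
  · subst h
    rw [prod_empty, div_le_one (by linarith)]
    exact hT
  · obtain ⟨q, hq, hmax⟩ := exists_max_image K (fun p => ((p : Nat.Primes) : ℕ)) h
    have h1 := mem_PX.mp q.2
    have h2 : 1 / T ≤ V (q : Nat.Primes) := by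
      rw [div_le_iff₀ (by linarith)]
      exact h1
    refine h2.trans ?_
    unfold V
    have h3 : ∏ p ∈ K, (1 - 1 / (((p : Nat.Primes) : ℕ) : ℝ)) =
        ∏ p ∈ K.image (fun p : {x // x ∈ PX T} => ((p : Nat.Primes) : ℕ)), (1 - 1 / (p : ℝ)) := by
      rw [prod_image]
      intro x _ y _ hxy
      exact Subtype.ext (Subtype.ext hxy)
    rw [h3]
    refine prod_le_prod_of_subset_of_le_one ?_ ?_ ?_
    · intro p hp
      rw [mem_image] at hp
      obtain ⟨x, hx, rfl⟩ := hp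
      rw [mem_filter, mem_Icc]
      exact ⟨⟨(x : Nat.Primes).2.one_lt.le, hmax x hx⟩, (x : Nat.Primes).2⟩
    · exact fun p hp => fac_nonneg (mem_filter.mp hp).2
    · exact fun p _ _ => fac_le p

end Pool.Agent.W2helper64.RS
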