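import Mathlib

set_option autoImplicit false
set_option linter.unusedSectionVars false

/-!
Averages over a finite product of finite sets, and resampling of one coordinate.
-/

namespace Pool.Agent.W2helper64.RS

open Finset

section
variable {ι : Type} [Fintype ι] [DecidableEq ι] {α : ι → Type} [∀ i, Fintype (α i)] [∀ i, Nonempty (α i)]

/-- the average over the product -/
noncomputable def avg (G : ((i : ι) → α i) → ℝ) : ℝ := (∑ a, G a) / (Fintype.card ((i : ι) → α i) : ℝ)

/-- the average over one coordinate -/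
noncomputable def mm (i : ι) (G : ((i : ι) → α i) → ℝ) : ((i : ι) → α i) → ℝ :=
  fun a => (∑ r : α i, G (Function.update a i r)) / (Fintype.card (α i) : ℝ)

theorem card_pos' : (0 : ℝ) < (Fintype.card ((i : ι) → α i) : ℝ) := by
  exact_mod_cast Fintype.card_pos

theorem cardi_pos (i : ι) : (0 : ℝ) < (Fintype.card (α i) : ℝ) := by
  exact_mod_cast Fintype.card_pos

theorem avg_mono {G H : ((i : ι) → α i) → ℝ} (h : ∀ a, G a ≤ H a) : avg G ≤ avg H := by
  classical
  unfold avg
  exact div_le_div_of_nonneg_right (sum_le_sum fun a _ => h a) card_pos'.le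

theorem avg_const (c : ℝ) : avg (fun _ : (i : ι) → α i => c) = c := by
  classical
  unfold avg
  rw [sum_const, card_univ, nsmul_eq_mul, mul_div_assoc, mul_div_cancel_of_imp']
  intro h
  exact absurd h card_pos'.ne'

theorem avg_le_const {G : ((i : ι) → α i) → ℝ} {c : ℝ} (h : ∀ a, G a ≤ c) : avg G ≤ c := by
  rw [← avg_const (α := α) c]
  exact avg_mono h

theorem avg_mul (c : ℝ) (G : ((i : ι) → α i) → ℝ) : avg (fun a => c * G a) = c * avg G := by
  unfold avg
  rw [← mul_sum, mul_div_assoc]

theorem avg_nonneg {G : ((i : ι) → α i) → ℝ} (h : ∀ a, 0 ≤ G a) : 0 ≤ avg G := by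
  rw [← avg_const (α := α) 0]
  exact avg_mono h

/-- resampling one coordinate does not change the average -/
theorem avg_mm (i : ι) (G : ((i : ι) → α i) → ℝ) : avg (mm i G) = avg G := by
  classical
  unfold avg mm
  congr 1
  rw [← sum_div, div_eq_iff (cardi_pos i).ne']
  -- the bijection (a, r) ↦ (update a i r, a i)
  have h1 : ∑ a : (i : ι) → α i, ∑ r : α i, G (Function.update a i r) =
      ∑ x : ((i : ι) → α i) × α i, G (Function.update x.1 i x.2) := by
    rw [Fintype.sum_prod_type]
  let e : (((i : ι) → α i) × α i) ≃ (((i : ι) → α i) × α i) :=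
    { toFun := fun x => (Function.update x.1 i x.2, x.1 i)
      invFun := fun x => (Function.update x.1 i x.2, x.1 i)
      left_inv := fun x => by simp
      right_inv := fun x => by simp }
  have h2 : ∑ x : ((i : ι) → α i) × α i, G (Function.update x.1 i x.2) =
      ∑ x : ((i : ι) → α i) × α i, G x.1 :=
    Fintype.sum_equiv e _ _ fun x => rfl
  rw [h1, h2, Fintype.sum_prod_type]
  simp only [sum_const, card_univ, nsmul_eq_mul]
  rw [← mul_sum, mul_comm]

/-- the average over the coordinates in a list -/
noncomputable def ml : List ι → (((i : ι) → α i) → ℝ) → ((i : ι) → α i) → ℝ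
  | [], G => G
  | i :: l, G => ml l (mm i G)

theorem avg_ml (l : List ι) (G : ((i : ι) → α i) → ℝ) : avg (ml l G) = avg G := by
  induction l generalizing G with
  | nil => rfl
  | cons i l ih => rw [ml, ih, avg_mm]

theorem mm_mono (i : ι) {G H : ((i : ι) → α i) → ℝ} (h : ∀ a, G a ≤ H a) (a : (i : ι) → α i) :
    mm i G a ≤ mm i H a := by
  unfold mm
  exact div_le_div_of_nonneg_right (sum_le_sum fun r _ => h _) (cardi_pos i).le

theorem ml_mono (l : List ι) {G H : ((i : ι) → α i) → ℝ} (h : ∀ a, G a ≤ H a) (a : (i : ι) → α i) :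
    ml l G a ≤ ml l H a := by
  induction l generalizing G H with
  | nil => exact h a
  | cons i l ih => exact ih fun b => mm_mono i h b

theorem mm_sum {β : Type} (s : Finset β) (i : ι) (G : β → ((i : ι) → α i) → ℝ) :
    mm i (fun a => ∑ b ∈ s, G b a) = fun a => ∑ b ∈ s, mm i (G b) a := by
  funext a
  unfold mm
  rw [← sum_div, sum_comm]

theorem ml_sum {β : Type} (s : Finset β) (l : List ι) (G : β → ((i : ι) → α i) → ℝ) :
    ml l (fun a => ∑ b ∈ s, G b a) = fun a => ∑ b ∈ s, ml l (G b) a := by
  induction l generalizing G with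
  | nil => rfl
  | cons i l ih =>
    rw [ml, mm_sum, ih]
    rfl

theorem ml_append (l l' : List ι) (G : ((i : ι) → α i) → ℝ) : ml (l ++ l') G = ml l' (ml l G) := by
  induction l generalizing G with
  | nil => rfl
  | cons i l ih => exact ih (mm i G)

/-- `G` does not depend on the coordinate `i` -/
def Indep (i : ι) (G : ((i : ι) → α i) → ℝ) : Prop := ∀ a r, G (Function.update a i r) = G a

theorem mm_indep {i : ι} {G : ((i : ι) → α i) → ℝ} (h : Indep i G) : mm i G = G := by
  funext a
  unfold mm
  rw [sum_congr rfl fun r _ => h a r, sum_const, card_univ, nsmul_eq_mul, mul_div_assoc,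
    mul_div_cancel_of_imp']
  intro h'
  exact absurd h' (cardi_pos i).ne'

theorem mm_mul_indep {i : ι} {G H : ((i : ι) → α i) → ℝ} (h : Indep i H) :
    mm i (fun a => G a * H a) = fun a => mm i G a * H a := by
  funext a
  unfold mm
  rw [div_mul_eq_mul_div, sum_mul]
  congr 1
  refine sum_congr rfl fun r _ => ?_
  show G _ * H _ = _
  rw [h a r]

theorem indep_mm {i j : ι} {G : ((i : ι) → α i) → ℝ} (h : Indep i G) : Indep i (mm j G) := by
  intro a r
  by_cases hij : i = j
  · subst hij
    rw [mm_indep h, h]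
  · unfold mm
    congr 1
    refine sum_congr rfl fun s _ => ?_
    rw [Function.update_comm hij, h]

theorem indep_ml {i : ι} (l : List ι) {G : ((i : ι) → α i) → ℝ} (h : Indep i G) : Indep i (ml l G) := by
  induction l generalizing G with
  | nil => exact h
  | cons j l ih => exact ih (indep_mm h)

theorem ml_mul_indep (l : List ι) {G H : ((i : ι) → α i) → ℝ} (h : ∀ i ∈ l, Indep i H) :
    ml l (fun a => G a * H a) = fun a => ml l G a * H a := by
  induction l generalizing G with
  | nil => rfl
  | cons i l ih =>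
    rw [ml, mm_mul_indep (h i (by simp)), ih fun j hj => h j (by simp [hj])]
    rfl

theorem ml_const (l : List ι) (c : ℝ) : ml l (fun _ : (i : ι) → α i => c) = fun _ => c := by
  induction l with
  | nil => rfl
  | cons i l ih =>
    rw [ml, mm_indep (fun _ _ => rfl), ih]

/-- Markov -/
theorem avg_ind_le {G : ((i : ι) → α i) → ℝ} (h0 : ∀ a, 0 ≤ G a) {P : ((i : ι) → α i) → Prop}
    [DecidablePred P] {c : ℝ} (hc : 0 < c) (h : ∀ a, P a → c ≤ G a) :
    avg (fun a => if P a then (1 : ℝ) else 0) ≤ avg G / c := by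
  rw [le_div_iff₀ hc, mul_comm, ← avg_mul]
  refine avg_mono fun a => ?_
  by_cases hP : P a
  · rw [if_pos hP, mul_one]; exact h a hP
  · rw [if_neg hP, mul_zero]; exact h0 a

end

/-! ### concentration -/

theorem exp_le_quad {y : ℝ} (h : |y| ≤ 1) : Real.exp y ≤ 1 + y + y ^ 2 := by
  have := Real.abs_exp_sub_one_sub_id_le h
  have := (abs_le.1 this).2
  linarith

section
variable {ι : Type} [Fintype ι] [DecidableEq ι] {α : ι → Type} [∀ i, Fintype (α i)] [∀ i, Nonempty (α i)]

/-- one step -/
theorem conc_step (i : ι) (f : ((i : ι) → α i) → ℝ) {D t : ℝ} (ht : 0 ≤ t) (htD : t * D ≤ 1)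
    (hf : ∀ a r r', |f (Function.update a i r) - f (Function.update a i r')| ≤ D) (a : (i : ι) → α i) :
    mm i (fun a => Real.exp (-t * f a)) a ≤ Real.exp (-t * mm i f a + t ^ 2 * D ^ 2) := by
  have hn := cardi_pos (α := α) i
  set n : ℝ := (Fintype.card (α i) : ℝ) with hnd
  set g : α i → ℝ := fun r => f (Function.update a i r) with hg
  set A : ℝ := mm i f a with hA
  have hAe : A * n = ∑ r, g r := by
    rw [hA]; unfold mm
    rw [div_mul_cancel₀ _ hn.ne']
  have hD0 : 0 ≤ D := by
    obtain ⟨r⟩ : Nonempty (α i) := inferInstance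
    exact (abs_nonneg _).trans (hf a r r)
  have hy : ∀ r, |A - g r| ≤ D := by
    intro r
    have h1 : (A - g r) * n = ∑ s, (g s - g r) := by
      rw [sum_sub_distrib, sub_mul, hAe, sum_const, card_univ, nsmul_eq_mul, ← hnd]
      ring
    have h2 : |A - g r| * n ≤ D * n := by
      rw [← abs_of_pos hn, ← abs_mul, h1, abs_of_pos hn]
      refine (abs_sum_le_sum_abs _ _).trans ?_
      refine (sum_le_sum fun s _ => hf a s r).trans ?_
      rw [sum_const, card_univ, nsmul_eq_mul, mul_comm]
    exact le_of_mul_le_mul_right h2 hn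
  have h1 : ∀ r, Real.exp (-t * g r) ≤
      Real.exp (-t * A) * (1 + t * (A - g r) + t ^ 2 * D ^ 2) := by
    intro r
    have e1 : -t * g r = -t * A + t * (A - g r) := by ring
    rw [e1, Real.exp_add]
    refine mul_le_mul_of_nonneg_left ?_ (Real.exp_pos _).le
    have h2 : |t * (A - g r)| ≤ 1 := by
      rw [abs_mul, abs_of_nonneg ht]
      exact (mul_le_mul_of_nonneg_left (hy r) ht).trans htD
    have h3 : (t * (A - g r)) ^ 2 ≤ t ^ 2 * D ^ 2 := by
      rw [mul_pow]
      refine mul_le_mul_of_nonneg_left ?_ (sq_nonneg t)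
      rw [← sq_abs (A - g r)]
      exact pow_le_pow_left₀ (abs_nonneg _) (hy r) 2
    linarith [exp_le_quad h2]
  have h2 : mm i (fun a => Real.exp (-t * f a)) a ≤ Real.exp (-t * A) * (1 + t ^ 2 * D ^ 2) := by
    unfold mm
    rw [div_le_iff₀ hn]
    refine (sum_le_sum fun r _ => h1 r).trans (le_of_eq ?_)
    rw [← mul_sum, mul_assoc]
    congr 1
    rw [sum_add_distrib, sum_add_distrib, ← mul_sum, sum_sub_distrib, ← hAe]
    simp only [sum_const, card_univ, nsmul_eq_mul]
    rw [← hnd]
    ring
  refine h2.trans ?_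
  rw [Real.exp_add]
  refine mul_le_mul_of_nonneg_left ?_ (Real.exp_pos _).le
  have := Real.add_one_le_exp (t ^ 2 * D ^ 2)
  linarith

theorem diff_mm {i j : ι} {f : ((i : ι) → α i) → ℝ} {D : ℝ}
    (hf : ∀ a r r', |f (Function.update a j r) - f (Function.update a j r')| ≤ D) (a : (i : ι) → α i)
    (r r' : α j) : |mm i f (Function.update a j r) - mm i f (Function.update a j r')| ≤ D := by
  have hn := cardi_pos (α := α) i
  have hD0 : 0 ≤ D := (abs_nonneg _).trans (hf a r r)
  by_cases hij : i = j
  · subst hij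
    have : mm i f (Function.update a i r) = mm i f (Function.update a i r') := by
      unfold mm
      simp only [Function.update_idem]
    rw [this, sub_self, abs_zero]
    exact hD0
  · unfold mm
    rw [← sub_div, ← sum_sub_distrib, abs_div, abs_of_pos hn, div_le_iff₀ hn]
    refine (abs_sum_le_sum_abs _ _).trans ?_
    refine (sum_le_sum (g := fun _ => D) fun s _ => ?_).trans ?_
    · rw [Function.update_comm (Ne.symm hij), Function.update_comm (Ne.symm hij)]
      exact hf _ r r'
    · rw [sum_const, card_univ, nsmul_eq_mul, mul_comm]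

/-- the concentration inequality of McDiarmid in exponential form -/
theorem conc (l : List ι) (f : ((i : ι) → α i) → ℝ) (D : ι → ℝ) {t : ℝ} (ht : 0 ≤ t)
    (htD : ∀ i ∈ l, t * D i ≤ 1)
    (hf : ∀ i ∈ l, ∀ a r r', |f (Function.update a i r) - f (Function.update a i r')| ≤ D i) :
    avg (fun a => Real.exp (-t * f a)) ≤
      avg (fun a => Real.exp (-t * ml l f a + t ^ 2 * (l.map fun i => D i ^ 2).sum)) := by
  induction l generalizing f with
  | nil => simp [ml]
  | cons i l ih =>
    have h1 : avg (fun a => Real.exp (-t * f a)) ≤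
        avg (fun a => Real.exp (t ^ 2 * D i ^ 2) * Real.exp (-t * mm i f a)) := by
      rw [← avg_mm i]
      refine avg_mono fun a => ?_
      have := conc_step i f ht (htD i (by simp)) (hf i (by simp)) a
      rw [← Real.exp_add]
      refine this.trans (le_of_eq ?_)
      congr 1
      ring
    rw [avg_mul] at h1
    have h2 := ih (mm i f) (fun j hj => htD j (by simp [hj])) (fun j hj a r r' =>
      diff_mm (hf j (by simp [hj])) a r r')
    refine h1.trans ((mul_le_mul_of_nonneg_left h2 (Real.exp_pos _).le).trans (le_of_eq ?_))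
    rw [← avg_mul]
    congr 1
    funext a
    rw [← Real.exp_add, List.map_cons, List.sum_cons, ml]
    congr 1
    ring

end

end Pool.Agent.W2helper64.RS
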