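import Pool.Agent.W2helper64.RS.Num

set_option autoImplicit false
set_option linter.unusedSectionVars false

/-!
Arithmetic input for the lower bound.
-/

namespace Pool.Agent.W2helper64.RS

open Finset Filter Topology

theorem fin_PM (m : ℕ) : {p : Nat.Primes | (p : ℕ) ≤ m}.Finite := by
  apply Set.Finite.of_injOn (f := fun p : Nat.Primes => (p : ℕ)) (t := Set.Iic m)
  · intro p hp
    simpa using hp
  · intro p _ q _ h
    exact Subtype.ext h
  · exact Set.finite_Iic _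

/-- the primes up to `m` -/
noncomputable def PM (m : ℕ) : Finset Nat.Primes := (fin_PM m).toFinset

theorem mem_PM {m : ℕ} {p : Nat.Primes} : p ∈ PM m ↔ (p : ℕ) ≤ m := by
  unfold PM
  rw [Set.Finite.mem_toFinset]
  rfl

theorem omega_le {m : ℕ} (hm : 1 ≤ m) : (m.primeFactors.card : ℝ) ≤ 2 * Real.log m := by
  have h1 : 2 ^ m.primeFactors.card ≤ m := by
    calc 2 ^ m.primeFactors.card = ∏ _p ∈ m.primeFactors, 2 := by rw [prod_const]
      _ ≤ ∏ p ∈ m.primeFactors, p := prod_le_prod' fun p hp => (Nat.prime_of_mem_primeFactors hp).two_le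
      _ ≤ m := Nat.le_of_dvd hm (Nat.prod_primeFactors_dvd m)
  have h2 : ((2 : ℝ)) ^ m.primeFactors.card ≤ m := by exact_mod_cast h1
  have h3 := Real.log_le_log (by positivity) h2
  rw [Real.log_pow] at h3
  have h4 : (0.6931471803 : ℝ) < Real.log 2 := Real.log_two_gt_d9
  have h5 : (0 : ℝ) ≤ m.primeFactors.card := Nat.cast_nonneg _
  nlinarith

/-- `φ(m) ≥ m / (log m) ^ η` for large `m` -/
theorem tot_lower (η : ℝ) (hη : 0 < η) : ∀ᶠ m : ℕ in atTop,
    (m : ℝ) / Real.log m ^ η ≤ (Nat.totient m : ℝ) := by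
  obtain ⟨c, hc, hV⟩ := Pool.Agent.Y835.SB.prod_ge
  have hL : Tendsto (fun m : ℕ => Real.log m) atTop atTop :=
    Real.tendsto_log_atTop.comp tendsto_natCast_atTop_atTop
  have hlo : ∀ᶠ L : ℝ in atTop, Real.log L ≤ (c / 6) * L ^ η := by
    have := (isLittleO_log_rpow_atTop hη).bound (show (0 : ℝ) < c / 6 by positivity)
    filter_upwards [this, eventually_ge_atTop (1 : ℝ)] with L hL hL1
    refine (le_abs_self _).trans (hL.trans (le_of_eq ?_))
    rw [Real.norm_of_nonneg (by positivity)]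
  filter_upwards [hL.eventually hlo, hL.eventually (eventually_ge_atTop (8 : ℝ)),
    eventually_ge_atTop 2] with m hlo hL8 hm2
  set L : ℝ := Real.log m with hLd
  have hm0 : (0 : ℝ) < m := by exact_mod_cast (by omega : 0 < m)
  set z : ℕ := ⌈L ^ 2⌉₊ with hz
  have hz1 : L ^ 2 ≤ z := Nat.le_ceil _
  have hz2 : (z : ℝ) < L ^ 2 + 1 := Nat.ceil_lt_add_one (by positivity)
  have hz3 : (z : ℝ) ≤ L ^ 3 := by nlinarith
  have hz4 : 2 ≤ z := by
    have : (2 : ℝ) ≤ z := by nlinarith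
    exact_mod_cast this
  have hz0 : (0 : ℝ) < z := by exact_mod_cast (by omega : 0 < z)
  have hlogz : Real.log z ≤ 3 * Real.log L := by
    have := Real.log_le_log hz0 hz3
    rwa [Real.log_pow] at this
  have hlogz0 : 0 < Real.log z := Real.log_pos (by exact_mod_cast (by omega : 1 < z))
  have hlogL0 : 0 < Real.log L := Real.log_pos (by linarith)
  -- the product
  have htot : (Nat.totient m : ℝ) = m * ∏ p ∈ m.primeFactors, (1 - 1 / (p : ℝ)) := by
    have h1 := Nat.totient_eq_mul_prod_factors m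
    have h2 : ((Nat.totient m : ℚ) : ℝ) = ((m * ∏ p ∈ m.primeFactors, (1 - (p : ℚ)⁻¹) : ℚ) : ℝ) := by
      rw [h1]
    push_cast at h2
    rw [h2]
    congr 1
    refine prod_congr rfl fun p _ => ?_
    rw [one_div]
  have hsplit := prod_filter_mul_prod_filter_not m.primeFactors (fun p => p ≤ z) (fun p => 1 - 1 / (p : ℝ))
  have hA := hV z hz4 (m.primeFactors.filter (fun p => p ≤ z)) (fun p hp =>
    ⟨Nat.prime_of_mem_primeFactors (mem_filter.mp hp).1, (mem_filter.mp hp).2⟩)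
  have hB : (1 : ℝ) / 2 ≤ ∏ p ∈ m.primeFactors.filter (fun p => ¬ p ≤ z), (1 - 1 / (p : ℝ)) := by
    have h1 : Real.exp (-(2 * ∑ p ∈ m.primeFactors.filter (fun p => ¬ p ≤ z), 1 / (p : ℝ))) ≤
        ∏ p ∈ m.primeFactors.filter (fun p => ¬ p ≤ z), (1 - 1 / (p : ℝ)) := by
      rw [mul_sum, ← sum_neg_distrib, Real.exp_sum]
      refine prod_le_prod (fun _ _ => (Real.exp_pos _).le) fun p hp => ?_
      have hp2 : (2 : ℝ) ≤ p := by
        exact_mod_cast (Nat.prime_of_mem_primeFactors (mem_filter.mp hp).1).two_le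
      apply one_sub_ge (by positivity)
      rw [div_le_div_iff₀ (by linarith) (by norm_num)]
      linarith
    refine le_trans ?_ h1
    have h2 : ∑ p ∈ m.primeFactors.filter (fun p => ¬ p ≤ z), 1 / (p : ℝ) ≤ 1 / 4 := by
      calc ∑ p ∈ m.primeFactors.filter (fun p => ¬ p ≤ z), 1 / (p : ℝ) ≤
            ∑ p ∈ m.primeFactors.filter (fun p => ¬ p ≤ z), 1 / (z : ℝ) := by
            refine sum_le_sum fun p hp => ?_
            have := (mem_filter.mp hp).2
            apply one_div_le_one_div_of_le hz0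
            exact_mod_cast (by omega : z ≤ p)
        _ ≤ m.primeFactors.card * (1 / (z : ℝ)) := by
            rw [sum_const, nsmul_eq_mul]
            apply mul_le_mul_of_nonneg_right _ (by positivity)
            exact_mod_cast card_filter_le _ _
        _ ≤ 2 * L * (1 / (z : ℝ)) := by
            apply mul_le_mul_of_nonneg_right _ (by positivity)
            exact omega_le (by omega)
        _ ≤ 1 / 4 := by
            rw [mul_one_div, div_le_div_iff₀ hz0 (by norm_num)]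
            nlinarith
    have h3 := Real.add_one_le_exp
      (-(2 * ∑ p ∈ m.primeFactors.filter (fun p => ¬ p ≤ z), 1 / (p : ℝ)))
    linarith
  rw [htot, ← hsplit, div_eq_mul_inv]
  apply mul_le_mul_of_nonneg_left _ hm0.le
  have h5 : c / Real.log z * (1 / 2) ≤
      (∏ p ∈ m.primeFactors.filter (fun p => p ≤ z), (1 - 1 / (p : ℝ))) *
      ∏ p ∈ m.primeFactors.filter (fun p => ¬ p ≤ z), (1 - 1 / (p : ℝ)) :=
    mul_le_mul hA hB (by norm_num) ((by positivity : 0 ≤ c / Real.log z).trans hA)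
  refine le_trans ?_ h5
  rw [div_mul_div_comm, mul_one, inv_eq_one_div, div_le_div_iff₀ (by positivity) (by positivity)]
  nlinarith

/-- a dyadic interval contains primes `p ∤ m` with `∑ 1 / p ≥ 1 / (8 log (2 Y))` -/
theorem dyadic_sum : ∃ Y0 : ℝ, ∀ Y m : ℕ, Y0 ≤ Y → 1 ≤ m →
    32 * Real.log m * Real.log (2 * Y) ≤ Y →
    1 / (8 * Real.log (2 * Y)) ≤
      ∑ p ∈ (Ioc Y (2 * Y)).filter (fun p => p.Prime ∧ ¬ p ∣ m), 1 / (p : ℝ) := by
  have ht := Pool.Agent.Helper923.PNT.theta_div_tendsto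
  have h1 : ∀ᶠ x : ℝ in atTop, Chebyshev.theta x ≤ 1.1 * x := by
    filter_upwards [ht.eventually (gt_mem_nhds (show (1 : ℝ) < 1.1 by norm_num)),
      eventually_gt_atTop 0] with x hx hx0
    exact ((div_lt_iff₀ hx0).mp hx).le
  have h2 : ∀ᶠ x : ℝ in atTop, 0.9 * x ≤ Chebyshev.theta x := by
    filter_upwards [ht.eventually (lt_mem_nhds (show (0.9 : ℝ) < 1 by norm_num)),
      eventually_gt_atTop 0] with x hx hx0
    exact ((lt_div_iff₀ hx0).mp hx).le
  have h2' : ∀ᶠ x : ℝ in atTop, 0.9 * (2 * x) ≤ Chebyshev.theta (2 * x) :=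
    (tendsto_id.const_mul_atTop (by norm_num : (0 : ℝ) < 2)).eventually h2
  obtain ⟨Y0, hY0⟩ := eventually_atTop.mp ((h1.and h2').and (eventually_ge_atTop (2 : ℝ)))
  refine ⟨Y0, fun Y m hY hm hYm => ?_⟩
  obtain ⟨⟨h1, h2⟩, h3⟩ := hY0 Y hY
  have hYpos : (0 : ℝ) < Y := by linarith
  set Lg : ℝ := Real.log (2 * Y) with hLg
  have hLg0 : 0 < Lg := Real.log_pos (by linarith)
  have hT : 0.7 * (Y : ℝ) ≤ Chebyshev.theta (2 * Y) - Chebyshev.theta Y := by linarith
  have hfl : ⌊(Y : ℝ)⌋₊ = Y := Nat.floor_natCast Y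
  have hfl2 : ⌊(2 * Y : ℝ)⌋₊ = 2 * Y := by
    have : (2 * Y : ℝ) = ((2 * Y : ℕ) : ℝ) := by push_cast; ring
    rw [this, Nat.floor_natCast]
  have hTe : Chebyshev.theta (2 * Y) - Chebyshev.theta Y
      = ∑ p ∈ (Ioc Y (2 * Y)).filter Nat.Prime, Real.log p := by
    unfold Chebyshev.theta
    rw [hfl, hfl2, sub_eq_iff_eq_add, sum_filter, sum_filter, sum_filter, add_comm,
      sum_Ioc_consecutive _ (Nat.zero_le _) (by omega)]
  have hinv : ∀ p ∈ (Ioc Y (2 * Y)).filter Nat.Prime, Real.log p ≤ (2 * Y * Lg) * (1 / (p : ℝ)) := by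
    intro p hp
    rw [mem_filter, mem_Ioc] at hp
    have hp0 : (0 : ℝ) < p := by exact_mod_cast hp.2.pos
    have hp2 : (p : ℝ) ≤ 2 * Y := by exact_mod_cast hp.1.2
    have hlp : Real.log p ≤ Lg := Real.log_le_log hp0 hp2
    have hlp0 : 0 ≤ Real.log p := Real.log_nonneg (by exact_mod_cast hp.2.one_lt.le)
    rw [mul_one_div, le_div_iff₀ hp0]
    nlinarith
  have hsum := sum_le_sum hinv
  rw [← mul_sum, ← hTe] at hsum
  have hS : 0.35 / Lg ≤ ∑ p ∈ (Ioc Y (2 * Y)).filter Nat.Prime, 1 / (p : ℝ) := by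
    rw [div_le_iff₀ hLg0]
    have : 0.7 * (Y : ℝ) ≤ 2 * Y * Lg * ∑ p ∈ (Ioc Y (2 * Y)).filter Nat.Prime, 1 / (p : ℝ) :=
      hT.trans hsum
    nlinarith
  -- remove the divisors of m
  have hsplit : ∑ p ∈ (Ioc Y (2 * Y)).filter Nat.Prime, 1 / (p : ℝ) ≤
      (∑ p ∈ (Ioc Y (2 * Y)).filter (fun p => p.Prime ∧ ¬ p ∣ m), 1 / (p : ℝ)) +
      m.primeFactors.card * (1 / (Y : ℝ)) := by
    have h5 : (Ioc Y (2 * Y)).filter Nat.Prime ⊆
        (Ioc Y (2 * Y)).filter (fun p => p.Prime ∧ ¬ p ∣ m) ∪ (m.primeFactors.filter (fun p => Y < p)) := by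
      intro p hp
      rw [mem_filter] at hp
      rw [mem_union, mem_filter, mem_filter, Nat.mem_primeFactors]
      by_cases h : p ∣ m
      · exact Or.inr ⟨⟨hp.2, h, by omega⟩, (mem_Ioc.mp hp.1).1⟩
      · exact Or.inl ⟨hp.1, hp.2, h⟩
    refine (sum_le_sum_of_subset_of_nonneg h5 fun _ _ _ => by positivity).trans ?_
    refine le_trans (b := (∑ p ∈ (Ioc Y (2 * Y)).filter (fun p => p.Prime ∧ ¬ p ∣ m), 1 / (p : ℝ)) +
      ∑ p ∈ m.primeFactors.filter (fun p => Y < p), 1 / (p : ℝ)) ?_ ?_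
    · rw [← sum_union_inter]
      have : 0 ≤ ∑ p ∈ (Ioc Y (2 * Y)).filter (fun p => p.Prime ∧ ¬ p ∣ m) ∩
        m.primeFactors.filter (fun p => Y < p), 1 / (p : ℝ) := sum_nonneg fun _ _ => by positivity
      linarith
    · gcongr
      calc ∑ p ∈ m.primeFactors.filter (fun p => Y < p), 1 / (p : ℝ) ≤
            ∑ p ∈ m.primeFactors.filter (fun p => Y < p), 1 / (Y : ℝ) := by
            refine sum_le_sum fun p hp => ?_
            apply one_div_le_one_div_of_le hYpos
            exact_mod_cast (mem_filter.mp hp).2.le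
        _ ≤ m.primeFactors.card * (1 / (Y : ℝ)) := by
            rw [sum_const, nsmul_eq_mul]
            apply mul_le_mul_of_nonneg_right _ (by positivity)
            exact_mod_cast card_filter_le _ _
  have h6 : (m.primeFactors.card : ℝ) * (1 / (Y : ℝ)) ≤ 1 / (16 * Lg) := by
    have h7 := omega_le hm
    rw [mul_one_div, div_le_div_iff₀ hYpos (by positivity)]
    nlinarith
  have h7 : 0.35 / Lg - 1 / (16 * Lg) ≥ 1 / (8 * Lg) := by
    have e1 : 0.35 / Lg - 1 / (16 * Lg) = 0.2875 / Lg := by field_simp; norm_num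
    have e2 : 1 / (8 * Lg) = 0.125 / Lg := by field_simp; norm_num
    rw [e1, e2]
    exact div_le_div_of_nonneg_right (by norm_num) hLg0.le
  linarith

end Pool.Agent.W2helper64.RS
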