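import Pool.Agent.W2helper64.RS.Low1

set_option autoImplicit false
set_option linter.unusedSectionVars false

/-!
Counting the classes.
-/

namespace Pool.Agent.W2helper64.RS

open Finset Filter Topology

/-- CRT: an integer `s` with `p ∣ s + (a p)` for all primes `p` of a finite set -/
theorem crt_neg (F : Finset Nat.Primes) (a : (p : {x // x ∈ F}) → ZMod ((p : Nat.Primes) : ℕ)) :
    ∃ s : ℕ, ∀ p : {x // x ∈ F}, ∀ n : ℕ, ((n : ZMod ((p : Nat.Primes) : ℕ)) = a p ↔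
      ((p : Nat.Primes) : ℕ) ∣ s + n) := by
  classical
  obtain ⟨s, hs⟩ := Nat.chineseRemainderOfFinset (fun p : {x // x ∈ F} => (-(a p)).val)
    (fun p : {x // x ∈ F} => ((p : Nat.Primes) : ℕ)) univ (fun p _ => (p : Nat.Primes).2.ne_zero) (by
      intro p _ q _ hpq
      show Nat.Coprime _ _
      rw [Nat.coprime_primes (p : Nat.Primes).2 (q : Nat.Primes).2]
      intro h
      exact hpq (Subtype.ext (Subtype.ext h)))
  refine ⟨s, fun p n => ?_⟩
  have h1 : ((s : ℕ) : ZMod ((p : Nat.Primes) : ℕ)) = -(a p) := by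
    have := (ZMod.natCast_eq_natCast_iff _ _ _).mpr (hs p (mem_univ _))
    rw [this, ZMod.natCast_val, ZMod.cast_id', id]
  rw [← ZMod.natCast_eq_zero_iff, Nat.cast_add, h1, neg_add_eq_zero]
  exact eq_comm

open Classical in
/-- the number of the reduced classes -/
theorem reduced_card (m : ℕ) (hm : 1 ≤ m)
    (a : (p : {x // x ∈ PM m}) → ZMod ((p : Nat.Primes) : ℕ)) :
    ((range m).filter (fun c => ∀ p : {x // x ∈ PM m}, ((p : Nat.Primes) : ℕ) ∣ m →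
      ((c : ℕ) : ZMod ((p : Nat.Primes) : ℕ)) ≠ a p)).card = Nat.totient m := by
  obtain ⟨s, hs⟩ := crt_neg (PM m) a
  rw [← Nat.filter_coprime_Ico_eq_totient m s]
  refine card_bij (fun c _ => s + c) ?_ ?_ ?_
  · intro c hc
    rw [mem_filter, mem_range] at hc
    rw [mem_filter, mem_Ico]
    refine ⟨⟨by omega, by omega⟩, ?_⟩
    apply Nat.coprime_of_dvd
    intro p hp hpm hpc
    have hple : p ≤ m := Nat.le_of_dvd hm hpm
    have := hc.2 ⟨⟨p, hp⟩, mem_PM.mpr hple⟩ hpm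
    exact this ((hs ⟨⟨p, hp⟩, mem_PM.mpr hple⟩ c).mpr hpc)
  · intro c _ d _ h
    simpa using h
  · intro x hx
    rw [mem_filter, mem_Ico] at hx
    refine ⟨x - s, ?_, by omega⟩
    rw [mem_filter, mem_range]
    refine ⟨by omega, fun p hpm hpc => ?_⟩
    rw [hs p, show s + (x - s) = x by omega] at hpc
    have := Nat.Coprime.eq_one_of_dvd (Nat.Coprime.coprime_dvd_left hpm hx.2) hpc
    exact (p : Nat.Primes).2.one_lt.ne' this

open Classical in
/-- upper bound sieve for arbitrary residue classes -/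
theorem upper_sieve : ∃ C δ0 : ℝ, 0 < C ∧ 0 < δ0 ∧ δ0 ≤ 1 / 4 ∧ ∀ δ : ℝ, 0 < δ → δ ≤ δ0 → ∀ᶠ m : ℕ in atTop,
    ∀ N : ℕ, m ≤ N → ∀ a : (p : {x // x ∈ PM m}) → ZMod ((p : Nat.Primes) : ℕ),
    (((range N).filter (fun n => ∀ p : {x // x ∈ PM m}, (((p : Nat.Primes) : ℕ) : ℝ) ≤ (m : ℝ) ^ δ →
      ((n : ℕ) : ZMod ((p : Nat.Primes) : ℕ)) ≠ a p)).card : ℝ) ≤ C * N / (δ * Real.log m) := by
  obtain ⟨C0, K0, hC0, hK0, H⟩ := Pool.Agent.Y835.SB.fl_int
  obtain ⟨C, hC, hV⟩ := V_le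
  set δ0 : ℝ := 1 / (4 * (4 * C0 * C0 + 1)) with hδ0
  have hC0' : (1 : ℝ) ≤ C0 := by exact_mod_cast hC0
  have hδ00 : 0 < δ0 := by positivity
  refine ⟨4 * C + 1, δ0, by positivity, hδ00, ?_, fun δ hδ hδδ => ?_⟩
  · rw [hδ0]
    apply one_div_le_one_div_of_le (by norm_num)
    nlinarith
  have hL : Tendsto (fun m : ℕ => Real.log m) atTop atTop :=
    Real.tendsto_log_atTop.comp tendsto_natCast_atTop_atTop
  have hp1 : ∀ᶠ m : ℕ in atTop, (4 : ℝ) ≤ (m : ℝ) ^ δ :=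
    ((tendsto_rpow_atTop hδ).comp tendsto_natCast_atTop_atTop).eventually_ge_atTop _
  have hp2 : ∀ᶠ m : ℕ in atTop, 2 * K0 * Real.log m ≤ (m : ℝ) ^ (3 / 4 : ℝ) := by
    have h1 := (isLittleO_log_rpow_atTop (show (0 : ℝ) < 3 / 4 by norm_num)).bound
      (show (0 : ℝ) < 1 / (2 * K0) by positivity)
    have h2 := (tendsto_natCast_atTop_atTop (R := ℝ)).eventually h1
    filter_upwards [h2, eventually_ge_atTop 1] with m hm hm1
    have hlog : 0 ≤ Real.log m := Real.log_nonneg (by exact_mod_cast hm1)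
    rw [Real.norm_of_nonneg hlog, Real.norm_of_nonneg (by positivity)] at hm
    have hK : (0 : ℝ) < 2 * K0 := by positivity
    rw [one_div, inv_mul_eq_div, le_div_iff₀ hK] at hm
    linarith
  filter_upwards [hp1, hp2, eventually_ge_atTop 3, hL.eventually (eventually_ge_atTop (1 : ℝ))]
    with m hm4 hmK hm3 hL1 N hN a
  set L : ℝ := Real.log m with hLd
  have hm0 : (0 : ℝ) < m := by exact_mod_cast (by omega : 0 < m)
  have hm1 : (1 : ℝ) ≤ m := by exact_mod_cast (by omega : 1 ≤ m)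
  set z : ℕ := ⌊(m : ℝ) ^ δ⌋₊ with hz
  have hz4 : 4 ≤ z := Nat.le_floor (by exact_mod_cast hm4)
  have hzle : (z : ℝ) ≤ (m : ℝ) ^ δ := Nat.floor_le (by positivity)
  have hzgt : (m : ℝ) ^ δ < z + 1 := Nat.lt_floor_add_one _
  have hδ1 : δ ≤ 1 / 4 := hδδ.trans (by
    rw [hδ0]
    apply one_div_le_one_div_of_le (by norm_num)
    nlinarith)
  have hzm : z ≤ m := by
    have : (z : ℝ) ≤ m := hzle.trans (by
      calc (m : ℝ) ^ δ ≤ (m : ℝ) ^ (1 : ℝ) := Real.rpow_le_rpow_of_exponent_le hm1 (by linarith)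
        _ = m := Real.rpow_one _)
    exact_mod_cast this
  obtain ⟨s, hs⟩ := crt_neg (PM m) a
  -- shift by one
  set P : Finset ℕ := (Icc 1 z).filter Nat.Prime with hP
  have hPz : ∀ p ∈ P, p.Prime ∧ p ≤ z := fun p hp =>
    ⟨(mem_filter.mp hp).2, (mem_Icc.mp (mem_filter.mp hp).1).2⟩
  -- choose the shift `s' = s - 1` modulo all primes: use `s * 1 + (Q - 1)`
  set Q : ℕ := ∏ p ∈ P, p with hQ
  have hQ0 : 0 < Q := prod_pos fun p hp => (hPz p hp).1.pos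
  have hfl := H C0 le_rfl z (by omega) P hPz (s + (Q - 1)) N
  have hcount : ((range N).filter (fun n => ∀ p : {x // x ∈ PM m},
      (((p : Nat.Primes) : ℕ) : ℝ) ≤ (m : ℝ) ^ δ → ((n : ℕ) : ZMod ((p : Nat.Primes) : ℕ)) ≠ a p)).card ≤
      ((Icc 1 N).filter (fun k => ∀ p ∈ P, ¬ p ∣ s + (Q - 1) + k)).card := by
    refine card_le_card_of_injOn (fun n => n + 1) ?_ ?_
    · intro n hn
      rw [mem_coe, mem_filter, mem_range] at hn
      show n + 1 ∈ ((Icc 1 N).filter (fun k => ∀ p ∈ P, ¬ p ∣ s + (Q - 1) + k) : Finset ℕ)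
      rw [mem_filter, mem_Icc]
      refine ⟨⟨by omega, by omega⟩, fun p hp hdvd => ?_⟩
      obtain ⟨hpp, hpz⟩ := hPz p hp
      have hpm : p ≤ m := hpz.trans hzm
      have h1 := hn.2 ⟨⟨p, hpp⟩, mem_PM.mpr hpm⟩ (by
        have : (p : ℝ) ≤ z := by exact_mod_cast hpz
        exact this.trans hzle)
      apply h1
      rw [hs]
      have h2 : s + (Q - 1) + (n + 1) = (s + n) + Q := by omega
      rw [h2] at hdvd
      exact (Nat.dvd_add_left (dvd_prod_of_mem _ hp)).mp hdvd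
    · intro x _ y _ h
      simpa using h
  have hVz : ∏ p ∈ P, (1 - 1 / (p : ℝ)) = V z := rfl
  rw [hVz] at hfl
  have hVC := hV z (by omega)
  have hV0 := V_nonneg z
  have hN0 : (0 : ℝ) ≤ N := Nat.cast_nonneg _
  have hb1 : (1 / 2 : ℝ) ^ C0 ≤ 1 := pow_le_one₀ (by norm_num) (by norm_num)
  have h1 := (abs_le.mp hfl).2
  have h2 : (((Icc 1 N).filter (fun k => ∀ p ∈ P, ¬ p ∣ s + (Q - 1) + k)).card : ℝ) ≤
      2 * (N * V z) + 2 * K0 * (z : ℝ) ^ (4 * C0 * C0 + 1) := by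
    have h3 : (1 / 2 : ℝ) ^ C0 * (N * V z) ≤ 1 * (N * V z) :=
      mul_le_mul_of_nonneg_right hb1 (by positivity)
    linarith
  -- `log z ≥ δ L / 2`
  have hlogz : δ / 2 * L ≤ Real.log z := by
    have h3 : (m : ℝ) ^ (δ / 2) ≤ z := by
      have h4 : (m : ℝ) ^ δ = (m : ℝ) ^ (δ / 2) * (m : ℝ) ^ (δ / 2) := by
        rw [← Real.rpow_add hm0]; congr 1; ring
      have h5 : 2 ≤ (m : ℝ) ^ (δ / 2) := by
        by_contra hc
        push Not at hc
        have : 0 < (m : ℝ) ^ (δ / 2) := by positivity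
        nlinarith
      nlinarith
    rw [← Real.log_rpow hm0]
    exact Real.log_le_log (by positivity) h3
  have hδL : 0 < δ * L := by positivity
  have h3 : V z ≤ 2 * C / (δ * L) := by
    refine hVC.trans ?_
    rw [div_le_div_iff₀ (lt_of_lt_of_le (by positivity) hlogz) hδL]
    nlinarith
  have h4 : (z : ℝ) ^ (4 * C0 * C0 + 1) ≤ (m : ℝ) ^ (1 / 4 : ℝ) := by
    calc (z : ℝ) ^ (4 * C0 * C0 + 1) ≤ ((m : ℝ) ^ δ) ^ (4 * C0 * C0 + 1) :=
          pow_le_pow_left₀ (by positivity) hzle _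
      _ = (m : ℝ) ^ (δ * ((4 * C0 * C0 + 1 : ℕ) : ℝ)) := by
          rw [← Real.rpow_natCast, ← Real.rpow_mul hm0.le]
      _ ≤ (m : ℝ) ^ (1 / 4 : ℝ) := by
          apply Real.rpow_le_rpow_of_exponent_le hm1
          push_cast
          calc δ * (4 * C0 * C0 + 1) ≤ δ0 * (4 * C0 * C0 + 1) :=
                mul_le_mul_of_nonneg_right hδδ (by positivity)
            _ = 1 / 4 := by
                rw [hδ0]; field_simp
  have h5 : 2 * K0 * (z : ℝ) ^ (4 * C0 * C0 + 1) ≤ N / (δ * L) := by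
    rw [le_div_iff₀ hδL]
    have h6 : (m : ℝ) = (m : ℝ) ^ (3 / 4 : ℝ) * (m : ℝ) ^ (1 / 4 : ℝ) := by
      rw [← Real.rpow_add hm0]; norm_num
    have h7 : (m : ℝ) ≤ N := by exact_mod_cast hN
    have h8 : 0 < (m : ℝ) ^ (1 / 4 : ℝ) := by positivity
    calc 2 * K0 * (z : ℝ) ^ (4 * C0 * C0 + 1) * (δ * L) ≤ 2 * K0 * (m : ℝ) ^ (1 / 4 : ℝ) * (1 * L) := by
          gcongr
          linarith
      _ = (2 * K0 * L) * (m : ℝ) ^ (1 / 4 : ℝ) := by ring
      _ ≤ (m : ℝ) ^ (3 / 4 : ℝ) * (m : ℝ) ^ (1 / 4 : ℝ) := mul_le_mul_of_nonneg_right hmK h8.le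
      _ = m := h6.symm
      _ ≤ N := h7
  calc _ ≤ (((Icc 1 N).filter (fun k => ∀ p ∈ P, ¬ p ∣ s + (Q - 1) + k)).card : ℝ) := by
        exact_mod_cast hcount
    _ ≤ 2 * (N * V z) + 2 * K0 * (z : ℝ) ^ (4 * C0 * C0 + 1) := h2
    _ ≤ 2 * (N * (2 * C / (δ * L))) + N / (δ * L) := by
        gcongr
    _ = (4 * C + 1) * N / (δ * L) := by ring

end Pool.Agent.W2helper64.RS
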