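import Pool.Agent.W2helper64.RS.Low2

set_option autoImplicit false
set_option linter.unusedSectionVars false

/-!
The conditional structure for the lower bound.
-/

namespace Pool.Agent.W2helper64.RS

open Finset Filter Topology

section
variable {ι : Type} [Fintype ι] [DecidableEq ι] {α : ι → Type} [∀ i, Fintype (α i)] [∀ i, Nonempty (α i)]

theorem ml_mono_on (l : List ι) {G H : ((i : ι) → α i) → ℝ} (a : (i : ι) → α i)
    (h : ∀ a', (∀ i, i ∉ l → a' i = a i) → G a' ≤ H a') : ml l G a ≤ ml l H a := by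
  induction l generalizing G H with
  | nil => exact h a fun _ _ => rfl
  | cons i l ih =>
    apply ih
    intro a' ha'
    unfold mm
    refine div_le_div_of_nonneg_right (sum_le_sum fun r _ => ?_) (cardi_pos i).le
    apply h
    intro i' hi'
    rw [List.mem_cons, not_or] at hi'
    rw [Function.update_of_ne hi'.1]
    exact ha' i' hi'.2

end

/-- the coordinates -/
abbrev Om (m : ℕ) : Type := (p : {x // x ∈ PM m}) → ZMod ((p : Nat.Primes) : ℕ)

/-- the class `c` is reduced -/
def red (m : ℕ) (a : Om m) (c : ℕ) : Prop :=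
  ∀ p : {x // x ∈ PM m}, ((p : Nat.Primes) : ℕ) ∣ m → ((c : ℕ) : ZMod ((p : Nat.Primes) : ℕ)) ≠ a p

open Classical in
/-- the terms which survive the small primes -/
noncomputable def Hc (m J : ℕ) (w : ℝ) (a : Om m) (c : ℕ) : Finset ℕ :=
  (range J).filter fun j => ∀ p : {x // x ∈ PM m}, (((p : Nat.Primes) : ℕ) : ℝ) ≤ w → phi m c p j ≠ a p

/-- the class `c` is counted -/
def cnt (m J k : ℕ) (w : ℝ) (l : List {x // x ∈ PM m}) (a : Om m) (c : ℕ) : Prop :=
  red m a c ∧ (Hc m J w a c).card ≤ k ∧ ∀ j ∈ Hc m J w a c, ∃ p ∈ l, phi m c (p : Nat.Primes) j = a p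

theorem red_congr {m : ℕ} {a a' : Om m} {l : List {x // x ∈ PM m}}
    (hl : ∀ p ∈ l, ¬ ((p : Nat.Primes) : ℕ) ∣ m) (h : ∀ p, p ∉ l → a' p = a p) (c : ℕ) :
    red m a' c ↔ red m a c := by
  unfold red
  refine forall₂_congr fun p hp => ?_
  rw [h p fun hpl => hl p hpl hp]

theorem Hc_congr {m J : ℕ} {w : ℝ} {a a' : Om m} {l : List {x // x ∈ PM m}}
    (hl : ∀ p ∈ l, w < (((p : Nat.Primes) : ℕ) : ℝ)) (h : ∀ p, p ∉ l → a' p = a p) (c : ℕ) :
    Hc m J w a' c = Hc m J w a c := by
  classical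
  unfold Hc
  refine filter_congr fun j _ => ?_
  refine forall₂_congr fun p hp => ?_
  rw [h p fun hpl => absurd hp (not_le.mpr (hl p hpl))]

open Classical in
/-- the conditional expectation -/
theorem ml_low {m J k : ℕ} {w θ : ℝ} (hθ0 : 0 ≤ θ) (hθ1 : θ ≤ 1) (L : List (List {x // x ∈ PM m}))
    (hk : L.length = k) (hnd : L.flatten.Nodup)
    (hl1 : ∀ p ∈ L.flatten, ¬ ((p : Nat.Primes) : ℕ) ∣ m)
    (hl2 : ∀ p ∈ L.flatten, w < (((p : Nat.Primes) : ℕ) : ℝ))
    (hL : ∀ l ∈ L, (l.map fun i : {x // x ∈ PM m} =>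
      (1 - 1 / (Fintype.card (ZMod ((i : Nat.Primes) : ℕ)) : ℝ))).prod ≤ 1 - θ)
    (C : Finset ℕ) (a : Om m) :
    ((C.filter (fun c => red m a c ∧ (Hc m J w a c).card ≤ k)).card : ℝ) * θ ^ k ≤
      ml L.flatten (fun a => ∑ c ∈ C, if cnt m J k w L.flatten a c then (1 : ℝ) else 0) a := by
  rw [ml_sum]
  rw [card_filter, Nat.cast_sum, sum_mul]
  refine sum_le_sum fun c _ => ?_
  by_cases hg : red m a c ∧ (Hc m J w a c).card ≤ k
  · rw [if_pos hg, Nat.cast_one, one_mul]
    have h1 := hit_low (fun (p : {x // x ∈ PM m}) j => phi m c p j) θ hθ0 hθ1 L hnd hL (Hc m J w a c)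
      (by rw [hk]; exact hg.2) a
    have h2 : θ ^ k ≤ θ ^ (Hc m J w a c).card := pow_le_pow_of_le_one hθ0 hθ1 hg.2
    refine h2.trans (h1.trans ?_)
    refine ml_mono_on _ a fun a' ha' => ?_
    by_cases hh : ∀ j ∈ Hc m J w a c, ∃ i ∈ L.flatten, phi m c (i : Nat.Primes) j = a' i
    · rw [if_pos hh, if_pos]
      refine ⟨(red_congr hl1 ha' c).mpr hg.1, ?_, ?_⟩
      · rw [Hc_congr hl2 ha' c]; exact hg.2
      · rw [Hc_congr hl2 ha' c]; exact hh
    · rw [if_neg hh]
      split_ifs <;> norm_num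
  · rw [if_neg hg, Nat.cast_zero, zero_mul]
    have h0 : ∀ a : Om m, (0 : ℝ) ≤ if cnt m J k w L.flatten a c then (1 : ℝ) else 0 := by
      intro a; split_ifs <;> norm_num
    have := ml_mono L.flatten h0 a
    rw [ml_const] at this
    exact this

open Classical in
theorem class_le {m : ℕ} {p : Nat.Primes} (j : ℕ) (r : ZMod (p : ℕ)) :
    ((range m).filter (fun c => phi m c p j = r)).card ≤ m / (p : ℕ) + 1 := by
  rw [← card_range (m / (p : ℕ) + 1)]
  refine card_le_card_of_injOn (fun c => c / (p : ℕ)) ?_ ?_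
  · intro c hc
    rw [mem_coe, mem_filter, mem_range] at hc
    rw [mem_coe, mem_range]
    have := Nat.div_le_div_right (c := (p : ℕ)) hc.1.le
    show c / (p : ℕ) < _
    omega
  · intro c hc d hd hcd
    rw [mem_coe, mem_filter] at hc hd
    have h1 : c ≡ d [MOD p] := by
      have h3 : phi m c p j = phi m d p j := hc.2.trans hd.2.symm
      unfold phi at h3
      push_cast at h3
      rw [add_left_inj, ZMod.natCast_eq_natCast_iff] at h3
      exact h3
    have h2 : c / (p : ℕ) = d / (p : ℕ) := hcd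
    rw [← Nat.div_add_mod c (p : ℕ), ← Nat.div_add_mod d (p : ℕ), h2, h1]

open Classical in
/-- bounded differences -/
theorem diff_le {m J k : ℕ} {w : ℝ} (hm : 1 ≤ m) (l : List {x // x ∈ PM m})
    (hl1 : ∀ p ∈ l, ¬ ((p : Nat.Primes) : ℕ) ∣ m) (hl2 : ∀ p ∈ l, w < (((p : Nat.Primes) : ℕ) : ℝ))
    (C : Finset ℕ) (hC : C ⊆ range m) (p : {x // x ∈ PM m}) (hp : p ∈ l) (a : Om m)
    (r r' : ZMod ((p : Nat.Primes) : ℕ)) :
    |(∑ c ∈ C, if cnt m J k w l (Function.update a p r) c then (1 : ℝ) else 0) -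
      (∑ c ∈ C, if cnt m J k w l (Function.update a p r') c then (1 : ℝ) else 0)| ≤
      4 * J * m / (((p : Nat.Primes) : ℕ) : ℝ) := by
  rw [← sum_sub_distrib]
  refine (abs_sum_le_sum_abs _ _).trans ?_
  have hp0 : (0 : ℝ) < (((p : Nat.Primes) : ℕ) : ℝ) := by exact_mod_cast (p : Nat.Primes).2.pos
  have hpm : ((p : Nat.Primes) : ℕ) ≤ m := mem_PM.mp p.2
  -- the two vectors agree outside `l`
  have hout : ∀ s : ZMod ((p : Nat.Primes) : ℕ), ∀ q, q ∉ l → Function.update a p s q = a q := by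
    intro s q hq
    exact Function.update_of_ne (fun h => hq (by rw [h]; exact hp)) _ _
  have hkey : ∀ c, ¬ (∃ j ∈ range J, phi m c (p : Nat.Primes) j = r ∨ phi m c (p : Nat.Primes) j = r') →
      (cnt m J k w l (Function.update a p r) c ↔ cnt m J k w l (Function.update a p r') c) := by
    intro c hno
    push Not at hno
    unfold cnt
    rw [red_congr hl1 (hout r) c, red_congr hl1 (hout r') c, Hc_congr hl2 (hout r) c,
      Hc_congr hl2 (hout r') c]
    refine and_congr_right fun _ => and_congr_right fun _ => ?_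
    refine forall₂_congr fun j hj => ?_
    have hj' : j ∈ range J := by
      unfold Hc at hj
      exact (mem_filter.mp hj).1
    obtain ⟨h1, h2⟩ := hno j hj'
    refine exists_congr fun q => and_congr_right fun hq => ?_
    by_cases hqp : q = p
    · subst hqp
      rw [Function.update_self, Function.update_self]
      exact ⟨fun h => absurd h h1, fun h => absurd h h2⟩
    · rw [Function.update_of_ne hqp, Function.update_of_ne hqp]
  have hterm : ∀ c ∈ C, |(if cnt m J k w l (Function.update a p r) c then (1 : ℝ) else 0) -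
      (if cnt m J k w l (Function.update a p r') c then (1 : ℝ) else 0)| ≤
      ∑ j ∈ range J, ((if phi m c (p : Nat.Primes) j = r then (1 : ℝ) else 0) +
        (if phi m c (p : Nat.Primes) j = r' then (1 : ℝ) else 0)) := by
    intro c _
    have hnn : ∀ j ∈ range J, (0 : ℝ) ≤ (if phi m c (p : Nat.Primes) j = r then (1 : ℝ) else 0) +
        (if phi m c (p : Nat.Primes) j = r' then (1 : ℝ) else 0) := by
      intro j _
      apply add_nonneg <;> split_ifs <;> norm_num
    by_cases hh : ∃ j ∈ range J, phi m c (p : Nat.Primes) j = r ∨ phi m c (p : Nat.Primes) j = r'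
    · obtain ⟨j, hj, hjr⟩ := hh
      have h1 := single_le_sum hnn hj
      refine le_trans ?_ h1
      have h2 : (1 : ℝ) ≤ (if phi m c (p : Nat.Primes) j = r then (1 : ℝ) else 0) +
        (if phi m c (p : Nat.Primes) j = r' then (1 : ℝ) else 0) := by
        rcases hjr with h | h
        · rw [if_pos h]
          split_ifs <;> norm_num
        · rw [if_pos h]
          split_ifs <;> norm_num
      refine le_trans ?_ h2
      split_ifs <;> norm_num
    · rw [if_congr (hkey c hh) rfl rfl, sub_self, abs_zero]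
      exact sum_nonneg hnn
  refine (sum_le_sum hterm).trans ?_
  rw [sum_comm]
  have hone : ∀ (s : ZMod ((p : Nat.Primes) : ℕ)) (j : ℕ),
      ∑ c ∈ C, (if phi m c (p : Nat.Primes) j = s then (1 : ℝ) else 0) ≤
        2 * m / (((p : Nat.Primes) : ℕ) : ℝ) := by
    intro s j
    rw [← Nat.cast_one, ← Nat.cast_zero]
    have e1 : ∑ c ∈ C, (if phi m c (p : Nat.Primes) j = s then ((1 : ℕ) : ℝ) else ((0 : ℕ) : ℝ)) =
        ((C.filter (fun c => phi m c (p : Nat.Primes) j = s)).card : ℝ) := by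
      rw [card_filter, Nat.cast_sum]
      refine sum_congr rfl fun c _ => ?_
      split_ifs <;> rfl
    rw [e1]
    have h1 : (C.filter (fun c => phi m c (p : Nat.Primes) j = s)).card ≤ m / ((p : Nat.Primes) : ℕ) + 1 :=
      (card_le_card (filter_subset_filter _ hC)).trans (class_le j s)
    have h2 : ((C.filter (fun c => phi m c (p : Nat.Primes) j = s)).card : ℝ) ≤
        ((m / ((p : Nat.Primes) : ℕ) : ℕ) : ℝ) + 1 := by exact_mod_cast h1
    have h3 : ((m / ((p : Nat.Primes) : ℕ) : ℕ) : ℝ) ≤ (m : ℝ) / ((p : Nat.Primes) : ℕ) := Nat.cast_div_le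
    have h4 : (1 : ℝ) ≤ (m : ℝ) / ((p : Nat.Primes) : ℕ) := by
      rw [le_div_iff₀ hp0, one_mul]
      exact_mod_cast hpm
    rw [mul_div_assoc]
    linarith
  calc ∑ j ∈ range J, ∑ c ∈ C, ((if phi m c (p : Nat.Primes) j = r then (1 : ℝ) else 0) +
        (if phi m c (p : Nat.Primes) j = r' then (1 : ℝ) else 0)) ≤
      ∑ _j ∈ range J, (4 * m / (((p : Nat.Primes) : ℕ) : ℝ)) := by
        refine sum_le_sum fun j _ => ?_
        rw [sum_add_distrib]
        have h1 := hone r j
        have h2 := hone r' j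
        have e : 4 * (m : ℝ) / (((p : Nat.Primes) : ℕ) : ℝ) = 2 * m / (((p : Nat.Primes) : ℕ) : ℝ) +
          2 * m / (((p : Nat.Primes) : ℕ) : ℝ) := by ring
        rw [e]
        exact add_le_add h1 h2
    _ = 4 * J * m / (((p : Nat.Primes) : ℕ) : ℝ) := by
        rw [sum_const, card_range, nsmul_eq_mul]
        ring

open Classical in
/-- the classes with many survivors of the small primes are few -/
theorem many_le {m J k : ℕ} {w : ℝ} (a : Om m) (hm : 1 ≤ m) :
    (k + 1) * ((range m).filter (fun c => ¬ (Hc m J w a c).card ≤ k)).card ≤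
      ((range (m * J)).filter (fun n => ∀ p : {x // x ∈ PM m}, (((p : Nat.Primes) : ℕ) : ℝ) ≤ w →
        ((n : ℕ) : ZMod ((p : Nat.Primes) : ℕ)) ≠ a p)).card := by
  have h1 : (k + 1) * ((range m).filter (fun c => ¬ (Hc m J w a c).card ≤ k)).card ≤
      ∑ c ∈ range m, (Hc m J w a c).card := by
    rw [mul_comm, ← smul_eq_mul, ← sum_const]
    refine (sum_le_sum (g := fun c => (Hc m J w a c).card) fun c hc => ?_).trans
      (sum_le_sum_of_subset (filter_subset _ _))
    have := (mem_filter.mp hc).2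
    omega
  refine h1.trans ?_
  rw [← card_sigma]
  refine card_le_card_of_injOn (fun x => x.1 + m * x.2) ?_ ?_
  · intro x hx
    rw [mem_coe, mem_sigma, mem_range] at hx
    unfold Hc at hx
    rw [mem_filter, mem_range] at hx
    obtain ⟨h1, h2, h3⟩ := hx
    show x.1 + m * x.2 ∈ ((range (m * J)).filter (fun n => ∀ p : {x // x ∈ PM m},
      (((p : Nat.Primes) : ℕ) : ℝ) ≤ w → ((n : ℕ) : ZMod ((p : Nat.Primes) : ℕ)) ≠ a p) : Finset ℕ)
    rw [mem_filter, mem_range]
    refine ⟨?_, fun p hp => h3 p hp⟩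
    calc x.1 + m * x.2 < m + m * x.2 := by omega
      _ = m * (x.2 + 1) := by ring
      _ ≤ m * J := Nat.mul_le_mul_left m h2
  · intro x hx y hy hxy
    rw [mem_coe, mem_sigma, mem_range] at hx hy
    have h2 : x.1 + m * x.2 = y.1 + m * y.2 := hxy
    have h3 : x.1 = y.1 := by
      have := congrArg (· % m) h2
      simp only [Nat.add_mul_mod_self_left] at this
      rwa [Nat.mod_eq_of_lt hx.1, Nat.mod_eq_of_lt hy.1] at this
    have h4 : x.2 = y.2 := by
      rw [h3] at h2
      have h5 : m * x.2 = m * y.2 := by omega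
      exact Nat.eq_of_mul_eq_mul_left hm h5
    exact Sigma.ext h3 (heq_of_eq h4)

end Pool.Agent.W2helper64.RS
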