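import Pool.Agent.W2helper64.RS.Low3

set_option autoImplicit false
set_option linter.unusedSectionVars false

/-!
The lower bound: combination of the concentration inequality with the conditional expectation.
-/

namespace Pool.Agent.W2helper64.RS

open Finset Filter Topology

open Classical in
/-- the group number `i` of primes -/
noncomputable def grp (m W i : ℕ) : Finset {x // x ∈ PM m} :=
  univ.filter fun p => 2 ^ i * W < ((p : Nat.Primes) : ℕ) ∧ ((p : Nat.Primes) : ℕ) ≤ 2 ^ (i + 1) * W ∧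
    ¬ ((p : Nat.Primes) : ℕ) ∣ m

noncomputable def grps (m W k : ℕ) : List (List {x // x ∈ PM m}) := (List.range k).map fun i => (grp m W i).toList

theorem mem_grps {m W k : ℕ} {p : {x // x ∈ PM m}} (h : p ∈ (grps m W k).flatten) :
    W < ((p : Nat.Primes) : ℕ) ∧ ((p : Nat.Primes) : ℕ) ≤ 2 ^ k * W ∧ ¬ ((p : Nat.Primes) : ℕ) ∣ m := by
  rw [List.mem_flatten] at h
  obtain ⟨l, hl, hp⟩ := h
  unfold grps at hl
  rw [List.mem_map] at hl
  obtain ⟨i, hi, rfl⟩ := hl
  rw [List.mem_range] at hi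
  rw [mem_toList] at hp
  unfold grp at hp
  rw [mem_filter] at hp
  obtain ⟨-, h1, h2, h3⟩ := hp
  refine ⟨?_, ?_, h3⟩
  · refine lt_of_le_of_lt ?_ h1
    exact Nat.le_mul_of_pos_left W (by positivity)
  · refine h2.trans ?_
    exact Nat.mul_le_mul_right W (Nat.pow_le_pow_right (by norm_num) hi)

theorem nodup_grps (m W k : ℕ) : (grps m W k).flatten.Nodup := by
  rw [List.nodup_flatten]
  constructor
  · intro l hl
    unfold grps at hl
    rw [List.mem_map] at hl
    obtain ⟨i, _, rfl⟩ := hl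
    exact nodup_toList _
  · unfold grps
    rw [List.pairwise_map]
    have := List.pairwise_lt_range (n := k)
    refine this.imp ?_
    intro i j hij
    rw [List.disjoint_left]
    intro p hp hq
    rw [mem_toList] at hp hq
    unfold grp at hp hq
    rw [mem_filter] at hp hq
    have h1 : 2 ^ (i + 1) * W ≤ 2 ^ j * W :=
      Nat.mul_le_mul_right W (Nat.pow_le_pow_right (by norm_num) hij)
    omega

theorem sum_sq_le {m W : ℕ} (hW : 1 ≤ W) (l : List {x // x ∈ PM m}) (hnd : l.Nodup)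
    (hl : ∀ p ∈ l, W < ((p : Nat.Primes) : ℕ)) (D : ℝ) :
    (l.map fun p : {x // x ∈ PM m} => (D / (((p : Nat.Primes) : ℕ) : ℝ)) ^ 2).sum ≤ D ^ 2 / W := by
  classical
  rw [← List.sum_toFinset _ hnd]
  have hW0 : (0 : ℝ) < W := by exact_mod_cast hW
  have h1 : ∑ p ∈ l.toFinset, (D / (((p : Nat.Primes) : ℕ) : ℝ)) ^ 2 =
      D ^ 2 * ∑ n ∈ l.toFinset.image (fun p : {x // x ∈ PM m} => ((p : Nat.Primes) : ℕ)), ((n : ℝ) ^ 2)⁻¹ := by
    rw [sum_image, mul_sum]
    · refine sum_congr rfl fun p _ => ?_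
      rw [div_pow, div_eq_mul_inv]
    · intro x _ y _ hxy
      exact Subtype.ext (Subtype.ext hxy)
  rw [h1, div_eq_mul_inv]
  apply mul_le_mul_of_nonneg_left _ (sq_nonneg D)
  have hsub : l.toFinset.image (fun p : {x // x ∈ PM m} => ((p : Nat.Primes) : ℕ)) ⊆ Ioc W (max W m) := by
    intro n hn
    rw [mem_image] at hn
    obtain ⟨p, hp, rfl⟩ := hn
    rw [List.mem_toFinset] at hp
    rw [mem_Ioc]
    exact ⟨hl p hp, (mem_PM.mp p.2).trans (le_max_right _ _)⟩
  have h2 := sum_le_sum_of_subset_of_nonneg (f := fun n : ℕ => ((n : ℝ) ^ 2)⁻¹) hsub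
    fun _ _ _ => by positivity
  have h3 := sum_Ioc_inv_sq_le_sub (α := ℝ) (k := W) (n := max W m) (by omega) (le_max_left _ _)
  have h4 : (0 : ℝ) ≤ ((max W m : ℕ) : ℝ)⁻¹ := by positivity
  linarith

open Classical in
theorem combine {m J k W : ℕ} {w θ N : ℝ} (hm : 1 ≤ m) (hJ : 1 ≤ J) (hW : 1 ≤ W) (hw : w ≤ W)
    (hθ0 : 0 ≤ θ) (hθ1 : θ ≤ 1) (hN0 : 0 ≤ N)
    (hG : ∀ i < k, ∏ p ∈ grp m W i, (1 - 1 / (((p : Nat.Primes) : ℕ) : ℝ)) ≤ 1 - θ)
    (C : Finset ℕ) (hC : C ⊆ range m)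
    (hN : ∀ a : Om m, N ≤ ((C.filter (fun c => red m a c ∧ (Hc m J w a c).card ≤ k)).card : ℝ)) :
    avg (fun a : Om m => if ((C.filter (fun c => red m a c ∧ ∀ j ∈ range J,
      ∃ p : {x // x ∈ PM m}, ((p : Nat.Primes) : ℕ) ≤ 2 ^ k * W ∧ phi m c p j = a p)).card : ℝ) <
        N * θ ^ k / 2 then (1 : ℝ) else 0) ≤
      Real.exp (1 - Real.sqrt W * (N * θ ^ k) / (8 * J * m)) := by
  set L := grps m W k with hL
  set l := L.flatten with hl
  have hm0 : (0 : ℝ) < m := by exact_mod_cast hm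
  have hJ0 : (0 : ℝ) < J := by exact_mod_cast hJ
  have hW0 : (0 : ℝ) < W := by exact_mod_cast hW
  have hmem : ∀ p ∈ l, W < ((p : Nat.Primes) : ℕ) ∧ ((p : Nat.Primes) : ℕ) ≤ 2 ^ k * W ∧
      ¬ ((p : Nat.Primes) : ℕ) ∣ m := fun p hp => mem_grps hp
  have hl1 : ∀ p ∈ l, ¬ ((p : Nat.Primes) : ℕ) ∣ m := fun p hp => (hmem p hp).2.2
  have hl2 : ∀ p ∈ l, w < (((p : Nat.Primes) : ℕ) : ℝ) := fun p hp =>
    lt_of_le_of_lt hw (by exact_mod_cast (hmem p hp).1)
  have hnd : l.Nodup := nodup_grps m W k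
  set f : Om m → ℝ := fun a => ∑ c ∈ C, if cnt m J k w l a c then (1 : ℝ) else 0 with hf
  set lam : ℝ := N * θ ^ k with hlam
  have hlam0 : 0 ≤ lam := mul_nonneg hN0 (pow_nonneg hθ0 k)
  -- the conditional expectation
  have hml : ∀ a, lam ≤ ml l f a := by
    intro a
    have h1 := ml_low (J := J) (k := k) (w := w) hθ0 hθ1 L (by rw [hL]; unfold grps; simp) hnd hl1 hl2 (by
      intro l' hl'
      rw [hL] at hl'
      unfold grps at hl'
      rw [List.mem_map] at hl'
      obtain ⟨i, hi, rfl⟩ := hl'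
      rw [List.mem_range] at hi
      have h2 : ((grp m W i).toList.map fun i : {x // x ∈ PM m} =>
          (1 - 1 / (Fintype.card (ZMod ((i : Nat.Primes) : ℕ)) : ℝ))).prod =
          ∏ p ∈ grp m W i, (1 - 1 / (((p : Nat.Primes) : ℕ) : ℝ)) := by
        rw [prod_map_toList]
        refine prod_congr rfl fun p _ => ?_
        rw [ZMod.card]
      rw [h2]
      exact hG i hi) C a
    refine le_trans ?_ h1
    exact mul_le_mul_of_nonneg_right (hN a) (pow_nonneg hθ0 k)
  -- the parameter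
  set t : ℝ := Real.sqrt W / (4 * J * m) with ht
  have hsW : 0 < Real.sqrt W := Real.sqrt_pos.mpr hW0
  have hsW1 : 1 ≤ Real.sqrt W := by
    rw [Real.one_le_sqrt]; exact_mod_cast hW
  have ht0 : 0 ≤ t := by positivity
  have hsq : Real.sqrt W * Real.sqrt W = W := Real.mul_self_sqrt hW0.le
  have hconc := conc l f (fun p => (4 * J * m) / (((p : Nat.Primes) : ℕ) : ℝ)) ht0 (by
    intro p hp
    have hp1 : (W : ℝ) < (((p : Nat.Primes) : ℕ) : ℝ) := by exact_mod_cast (hmem p hp).1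
    have e : t * (4 * J * m / (((p : Nat.Primes) : ℕ) : ℝ)) = Real.sqrt W / (((p : Nat.Primes) : ℕ) : ℝ) := by
      rw [ht]; field_simp
    rw [e, div_le_one (by linarith)]
    nlinarith) (by
    intro p hp a r r'
    exact diff_le hm l hl1 hl2 C hC p hp a r r')
  have hsum := sum_sq_le hW l hnd (fun p hp => (hmem p hp).1) (4 * J * m)
  have hexp : ∀ a, -t * ml l f a + t ^ 2 *
      (l.map fun p : {x // x ∈ PM m} => (4 * J * m / (((p : Nat.Primes) : ℕ) : ℝ)) ^ 2).sum ≤ 1 - t * lam := by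
    intro a
    have h1 : t ^ 2 * (l.map fun p : {x // x ∈ PM m} => (4 * J * m / (((p : Nat.Primes) : ℕ) : ℝ)) ^ 2).sum ≤ 1 := by
      calc _ ≤ t ^ 2 * ((4 * J * m) ^ 2 / W) := mul_le_mul_of_nonneg_left hsum (sq_nonneg t)
        _ = (Real.sqrt W * Real.sqrt W) / W := by rw [ht]; field_simp
        _ = 1 := by rw [hsq, div_self hW0.ne']
    have h2 := mul_le_mul_of_nonneg_left (hml a) ht0
    linarith
  have h3 : avg (fun a => Real.exp (-t * f a)) ≤ Real.exp (1 - t * lam) := by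
    refine hconc.trans (avg_le_const fun a => ?_)
    exact Real.exp_le_exp.mpr (hexp a)
  -- Markov
  have h4 := avg_ind_le (G := fun a => Real.exp (-t * f a)) (fun a => (Real.exp_pos _).le)
    (P := fun a : Om m => ((C.filter (fun c => red m a c ∧ ∀ j ∈ range J,
      ∃ p : {x // x ∈ PM m}, ((p : Nat.Primes) : ℕ) ≤ 2 ^ k * W ∧ phi m c p j = a p)).card : ℝ) <
        N * θ ^ k / 2) (c := Real.exp (-t * (lam / 2))) (Real.exp_pos _) (by
    intro a ha
    apply Real.exp_le_exp.mpr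
    have h5 : f a ≤ ((C.filter (fun c => red m a c ∧ ∀ j ∈ range J,
        ∃ p : {x // x ∈ PM m}, ((p : Nat.Primes) : ℕ) ≤ 2 ^ k * W ∧ phi m c p j = a p)).card : ℝ) := by
      rw [hf, card_filter, Nat.cast_sum]
      refine sum_le_sum fun c _ => ?_
      by_cases hc : cnt m J k w l a c
      · rw [if_pos hc, if_pos, Nat.cast_one]
        obtain ⟨hc1, hc2, hc3⟩ := hc
        refine ⟨hc1, fun j hj => ?_⟩
        by_cases hjH : j ∈ Hc m J w a c
        · obtain ⟨p, hp, hpj⟩ := hc3 j hjH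
          exact ⟨p, (hmem p hp).2.1, hpj⟩
        · unfold Hc at hjH
          rw [mem_filter] at hjH
          push Not at hjH
          obtain ⟨p, hp, hpj⟩ := hjH hj
          refine ⟨p, ?_, hpj⟩
          have h6 : (((p : Nat.Primes) : ℕ) : ℝ) ≤ W := hp.trans hw
          have h7 : ((p : Nat.Primes) : ℕ) ≤ W := by exact_mod_cast h6
          exact h7.trans (Nat.le_mul_of_pos_left W (by positivity))
      · rw [if_neg hc]
        exact Nat.cast_nonneg _
    have h6 : f a ≤ lam / 2 := h5.trans ha.le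
    nlinarith)
  refine h4.trans ?_
  rw [div_le_iff₀ (Real.exp_pos _), ← Real.exp_add]
  refine h3.trans (Real.exp_le_exp.mpr (le_of_eq ?_))
  rw [ht]
  field_simp
  ring

end Pool.Agent.W2helper64.RS
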