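import Pool.Agent.W2helper64.RS.Main

set_option autoImplicit false
set_option linter.unusedSectionVars false

/-!
The lower bound, almost surely.
-/

namespace Pool.Agent.W2helper64.RS

open Finset Filter Topology MeasureTheory ProbabilityTheory

/-- the event that few classes are bad -/
def few (δ ε : ℝ) (m : ℕ) (a : Om m) : Prop := by
  classical
  exact ((((range m).filter (fun c : ℕ => (m : ℝ) ^ (1 / 2 : ℝ) ≤ c)).filter (fun c =>
      red m a c ∧ ∀ j ∈ range (⌊Real.log m ^ (2 - ε)⌋₊ + 1), ∃ p : {x // x ∈ PM m},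
        (((p : Nat.Primes) : ℕ) : ℝ) ≤ (m : ℝ) ^ (3 * δ) ∧ phi m c p j = a p)).card : ℝ) <
        (m : ℝ) ^ (1 - ε)

open Classical in
theorem few_iff (δ ε : ℝ) (m : ℕ) (a : Om m) : few δ ε m a ↔
    ((((range m).filter (fun c : ℕ => (m : ℝ) ^ (1 / 2 : ℝ) ≤ c)).filter (fun c =>
      red m a c ∧ ∀ j ∈ range (⌊Real.log m ^ (2 - ε)⌋₊ + 1), ∃ p : {x // x ∈ PM m},
        (((p : Nat.Primes) : ℕ) : ℝ) ≤ (m : ℝ) ^ (3 * δ) ∧ phi m c p j = a p)).card : ℝ) <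
        (m : ℝ) ^ (1 - ε) := by
  unfold few
  refine iff_of_eq (congrArg (· < (m : ℝ) ^ (1 - ε)) ?_)
  congr 2

theorem ae_low1 : ∃ δ0 : ℝ, 0 < δ0 ∧ δ0 ≤ 1 / 4 ∧ ∀ δ : ℝ, 0 < δ → δ ≤ δ0 → ∀ ε : ℝ, 0 < ε → ε ≤ δ / 2 →
    ∀ᵐ a ∂law, ∀ᶠ m : ℕ in atTop, ¬ few δ ε m ((PM m).restrict a) := by
  classical
  obtain ⟨δ0, h0, h1, h⟩ := lower_fin
  refine ⟨δ0, h0, h1, fun δ hδ hδ0 ε hε hεδ => ?_⟩
  have h2 := h δ hδ hδ0 ε hε hεδ
  refine bc (fun m => {a | few δ ε m ((PM m).restrict a)}) 1 (by norm_num) ?_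
  filter_upwards [h2, eventually_ge_atTop 1] with m hm hm1
  have hm0 : (0 : ℝ) < m := by exact_mod_cast hm1
  have h3 := law_cyl (PM m) (few δ ε m) (inst := Classical.decPred _)
  rw [h3]
  apply ENNReal.ofReal_le_ofReal
  have h4 : Real.exp (-(2 * Real.log m)) = 1 / (m : ℝ) ^ 2 := by
    rw [Real.exp_neg, one_div]
    congr 1
    rw [← Real.exp_log hm0, Real.log_exp, ← Real.exp_nat_mul]
    norm_num
  rw [one_mul, ← h4]
  refine le_trans (le_of_eq ?_) hm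
  refine congrArg avg ?_
  funext a
  by_cases h5 : few δ ε m a
  · rw [if_pos h5]
    have h6 := (few_iff δ ε m a).mp h5
    rw [if_pos]
    convert h6
  · rw [if_neg h5]
    have h6 := fun h => h5 ((few_iff δ ε m a).mpr h)
    rw [if_neg]
    convert h6

/-- a bad class has no small element of `R` -/
theorem low_det (c0 : ℝ) (hc0 : 0 < c0) (hV : ∀ y : ℕ, 2 ≤ y → c0 / Real.log y ≤ V y) (δ ε : ℝ) (hδ : 0 < δ)
    (hδc : 6 * δ ≤ c0) {m : ℕ} (hm : 3 ≤ m) (a : (p : Nat.Primes) → ZMod (p : ℕ)) {c : ℕ} (hcm : c < m)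
    (hc : (m : ℝ) ^ (1 / 2 : ℝ) ≤ c)
    (h : ∀ j ∈ range (⌊Real.log m ^ (2 - ε)⌋₊ + 1), ∃ p : {x // x ∈ PM m},
        (((p : Nat.Primes) : ℕ) : ℝ) ≤ (m : ℝ) ^ (3 * δ) ∧ phi m c p j = (PM m).restrict a p)
    {n : ℕ} (hn : n ∈ R a) (hnc : n ≡ c [MOD m]) : (m : ℝ) * Real.log m ^ (2 - ε) < n := by
  by_contra hcon
  push Not at hcon
  have hm0 : (0 : ℝ) < m := by exact_mod_cast (by omega : 0 < m)
  have hm1 : (1 : ℝ) < m := by exact_mod_cast (by omega : 1 < m)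
  have hlm : 0 < Real.log m := Real.log_pos hm1
  -- n = c + m j
  have hnm : n % m = c := by
    have : n % m = c % m := hnc
    rw [this, Nat.mod_eq_of_lt hcm]
  set j : ℕ := n / m with hj
  have hnj : n = c + m * j := by
    rw [hj, ← hnm]
    exact (Nat.mod_add_div n m).symm
  have hjr : j ∈ range (⌊Real.log m ^ (2 - ε)⌋₊ + 1) := by
    rw [mem_range, Nat.lt_succ_iff]
    apply Nat.le_floor
    have h1 : (m : ℝ) * j ≤ n := by
      have : m * j ≤ n := by omega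
      exact_mod_cast this
    have h2 : (m : ℝ) * j ≤ m * Real.log m ^ (2 - ε) := h1.trans hcon
    exact le_of_mul_le_mul_left h2 hm0
  obtain ⟨p, hp, hpa⟩ := h j hjr
  obtain ⟨-, hR⟩ := hn
  refine hR (p : Nat.Primes) ?_ ?_
  · have hp2 := (p : Nat.Primes).2.two_le
    have hp1 : (1 : ℝ) < (((p : Nat.Primes) : ℕ) : ℝ) := by exact_mod_cast (by omega : 1 < ((p : Nat.Primes) : ℕ))
    have hlp : 0 < Real.log (((p : Nat.Primes) : ℕ) : ℝ) := Real.log_pos hp1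
    have h1 := hV _ hp2
    have h2 : Real.log (((p : Nat.Primes) : ℕ) : ℝ) ≤ 3 * δ * Real.log m := by
      rw [← Real.log_rpow hm0]
      exact Real.log_le_log (by linarith) hp
    have h3 : 1 / 2 * Real.log m ≤ Real.log n := by
      rw [← Real.log_rpow hm0]
      apply Real.log_le_log (Real.rpow_pos_of_pos hm0 _)
      refine hc.trans ?_
      have : c ≤ n := by omega
      exact_mod_cast this
    have h4 : 1 / (1 / 2 * Real.log m) ≤ c0 / Real.log (((p : Nat.Primes) : ℕ) : ℝ) := by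
      rw [div_le_div_iff₀ (by positivity) hlp]
      nlinarith
    have h5 : 1 / (1 / 2 * Real.log m) ≤ V ((p : Nat.Primes) : ℕ) := h4.trans h1
    rw [div_le_iff₀ (by positivity)] at h5
    exact h5.trans (mul_le_mul_of_nonneg_left h3 (V_nonneg _))
  · rw [hnj]
    exact hpa

/-- the lower bound, almost surely -/
theorem ae_low : ∀ᵐ a ∂law, ∀ ε : ℝ, 0 < ε → ∀ᶠ m : ℕ in atTop,
    (m : ℝ) ^ (1 - ε) ≤ (Set.ncard {c : ℕ | c < m ∧ Reduced a m c ∧
      ∀ n ∈ R a, n ≡ c [MOD m] → (m : ℝ) * Real.log m ^ (2 - ε) < n} : ℝ) := by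
  classical
  obtain ⟨δ0, h0, h1, h⟩ := ae_low1
  obtain ⟨c0, hc0, hV⟩ := V_ge
  set δ : ℝ := min δ0 (c0 / 6) with hδ
  have hδpos : 0 < δ := lt_min h0 (by positivity)
  have hδ0 : δ ≤ δ0 := min_le_left _ _
  have hδc : 6 * δ ≤ c0 := by
    have := min_le_right δ0 (c0 / 6)
    linarith
  have hall : ∀ᵐ a ∂law, ∀ k : ℕ, ∀ᶠ m : ℕ in atTop,
      ¬ few δ (min (1 / ((k : ℝ) + 1)) (δ / 2)) m ((PM m).restrict a) := by
    rw [ae_all_iff]
    intro k
    exact h δ hδpos hδ0 _ (lt_min (by positivity) (by positivity)) (min_le_right _ _)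
  filter_upwards [hall] with a ha ε hε
  obtain ⟨k, hk⟩ := exists_nat_one_div_lt hε
  set ε' : ℝ := min (1 / ((k : ℝ) + 1)) (δ / 2) with hε'
  have hεε : ε' ≤ ε := (min_le_left _ _).trans hk.le
  have hlog : Tendsto (fun x : ℕ => Real.log (x : ℝ)) atTop atTop :=
    Real.tendsto_log_atTop.comp tendsto_natCast_atTop_atTop
  filter_upwards [ha k, hlog.eventually_ge_atTop 1, eventually_ge_atTop 3] with m hm hlm hm3
  rw [few_iff, not_lt] at hm
  have hm1 : (1 : ℝ) ≤ m := by exact_mod_cast (by omega : 1 ≤ m)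
  have e1 : (m : ℝ) ^ (1 - ε) ≤ (m : ℝ) ^ (1 - ε') :=
    Real.rpow_le_rpow_of_exponent_le hm1 (by linarith)
  refine (e1.trans hm).trans ?_
  rw [Nat.cast_le]
  have hfin : {c : ℕ | c < m ∧ Reduced a m c ∧
      ∀ n ∈ R a, n ≡ c [MOD m] → (m : ℝ) * Real.log m ^ (2 - ε) < n}.Finite :=
    (Set.finite_Iio m).subset fun c hc => hc.1
  rw [← Set.ncard_coe_finset]
  refine Set.ncard_le_ncard ?_ hfin
  intro c hc
  rw [mem_coe] at hc
  obtain ⟨hc', hred, hall'⟩ := mf.mp hc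
  obtain ⟨hc'', hcs⟩ := mf.mp hc'
  have hcm := mem_range.mp hc''
  refine ⟨hcm, ?_, ?_⟩
  · intro p hp
    have hpm : (p : ℕ) ≤ m := Nat.le_of_dvd (by omega) hp
    exact hred ⟨p, mem_PM.mpr hpm⟩ hp
  · intro n hn hnc
    have := low_det c0 hc0 hV δ ε' hδpos hδc hm3 a hcm hcs hall' hn hnc
    refine lt_of_le_of_lt ?_ this
    apply mul_le_mul_of_nonneg_left _ (by positivity)
    exact Real.rpow_le_rpow_of_exponent_le hlm (by linarith)

end Pool.Agent.W2helper64.RS
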